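import Pool.Agent.Lib.MP_8f595d_ag.SH.Spec

section
/-! # Linear chains (module HLC) -/
set_option autoImplicit false

namespace Pool.Agent.SH.HLC

variable {K L : Type}

theorem lbd_single (k : ℕ) (v : Fin (k + 2) → K) (a : ℚ) :
    lbd k (Finsupp.single v a) = a • lbdS k v := by
  simp [lbd]

theorem lbd_single' (k : ℕ) (v : Fin (k + 2) → K) (a : ℚ) :
    lbd k (Finsupp.single v a) =
      ∑ i : Fin (k + 2), ((-1 : ℚ) ^ (i : ℕ)) • Finsupp.single (v ∘ Fin.succAbove i) a := by
  rw [lbd_single, lbdS, Finset.smul_sum]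
  apply Finset.sum_congr rfl
  intro i _
  rw [smul_comm, Finsupp.smul_single, smul_eq_mul, mul_one]

theorem cone_single (k : ℕ) (b : K) (v : Fin (k + 1) → K) (a : ℚ) :
    cone k b (Finsupp.single v a) = Finsupp.single (Fin.cons b v : Fin (k + 2) → K) a := by
  simp [cone]

theorem lpush_single (k : ℕ) (g : K → L) (v : Fin (k + 1) → K) (a : ℚ) :
    lpush k g (Finsupp.single v a) = Finsupp.single (g ∘ v) a := by
  simp [lpush]

theorem lbd_lpush (k : ℕ) (g : K → L) (c : LC K (k + 1)) :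
    lbd k (lpush (k + 1) g c) = lpush k g (lbd k c) := by
  induction c using Finsupp.induction_linear with
  | zero => simp
  | add f g hf hg => simp only [map_add, hf, hg]
  | single v a =>
    rw [lpush_single, lbd_single', lbd_single', map_sum]
    apply Finset.sum_congr rfl
    intro i _
    rw [map_smul, lpush_single]
    rfl

theorem lpush_cone (k : ℕ) (g : K → L) (b : K) (c : LC K k) :
    lpush (k + 1) g (cone k b c) = cone k (g b) (lpush k g c) := by
  induction c using Finsupp.induction_linear with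
  | zero => simp
  | add f g hf hg => simp only [map_add, hf, hg]
  | single v a =>
    rw [cone_single, lpush_single, lpush_single, cone_single]
    congr 1
    funext i
    refine Fin.cases ?_ (fun j => ?_) i <;> simp

theorem lbd_cone_zero (b : K) (c : LC K 0) :
    lbd 0 (cone 0 b c) = c - (c.sum fun _ a => a) • Finsupp.single (fun _ => b) (1 : ℚ) := by
  induction c using Finsupp.induction_linear with
  | zero => simp
  | add f g hf hg =>
    rw [map_add, map_add, hf, hg, Finsupp.sum_add_index' (fun _ => rfl) (fun _ _ _ => rfl),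
      add_smul]
    abel
  | single v a =>
    rw [cone_single, lbd_single', Fin.sum_univ_two, Finsupp.sum_single_index rfl]
    simp only [Fin.val_zero, pow_zero, one_smul, Fin.val_one, pow_one, neg_smul,
      Finsupp.smul_single, smul_eq_mul, mul_one]
    rw [← sub_eq_add_neg]
    congr 2
    · funext i
      rw [Fin.fin_one_eq_zero i]
      rfl

theorem lbd_cone (k : ℕ) (b : K) (c : LC K (k + 1)) :
    lbd (k + 1) (cone (k + 1) b c) = c - cone k b (lbd k c) := by
  induction c using Finsupp.induction_linear with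
  | zero => simp
  | add f g hf hg =>
    simp only [map_add, hf, hg]
    abel
  | single v a =>
    rw [cone_single, lbd_single', Fin.sum_univ_succ, lbd_single', map_sum, sub_eq_add_neg,
      ← Finset.sum_neg_distrib]
    congr 1
    · simp only [Fin.val_zero, pow_zero, one_smul]
      congr 1
    · apply Finset.sum_congr rfl
      intro i _
      rw [map_smul, cone_single, Fin.val_succ, pow_succ]
      rw [mul_neg, mul_one, neg_smul]
      congr 3
      funext j
      refine Fin.cases ?_ (fun l => ?_) j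
      · simp
      · simp [Fin.succ_succAbove_succ]

theorem lbd_lbd (k : ℕ) (c : LC K (k + 2)) : lbd k (lbd (k + 1) c) = 0 := by
  induction k with
  | zero =>
    induction c using Finsupp.induction_linear with
    | zero => simp
    | add f g hf hg => simp only [map_add, hf, hg, add_zero]
    | single v a =>
      have hv : (Finsupp.single v a : LC K 2) =
          cone 1 (v 0) (Finsupp.single (Fin.tail v) a) := by
        rw [cone_single, Fin.cons_self_tail]
      rw [hv, lbd_cone, map_sub, lbd_cone_zero]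
      have hs : ((lbd 0 (Finsupp.single (Fin.tail v) a)).sum fun _ a => a) = 0 := by
        rw [lbd_single', Fin.sum_univ_two]
        simp only [Fin.val_zero, pow_zero, one_smul, Fin.val_one, pow_one, neg_smul]
        rw [← Finsupp.single_neg,
          Finsupp.sum_add_index' (fun _ => rfl) (fun _ _ _ => rfl),
          Finsupp.sum_single_index rfl, Finsupp.sum_single_index rfl, add_neg_cancel]
      rw [hs, zero_smul, sub_zero, sub_self]
  | succ n ih =>
    induction c using Finsupp.induction_linear with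
    | zero => simp
    | add f g hf hg => simp only [map_add, hf, hg, add_zero]
    | single v a =>
      have hv : (Finsupp.single v a : LC K (n + 1 + 2)) =
          cone (n + 2) (v 0) (Finsupp.single (Fin.tail v) a) := by
        rw [cone_single, Fin.cons_self_tail]
      rw [hv, lbd_cone, map_sub, lbd_cone, ih, map_zero, sub_zero, sub_self]

end Pool.Agent.SH.HLC

namespace Pool.Agent.SH

open HLC in
theorem specLC : SpecLC :=
  ⟨fun _ k c => lbd_lbd k c, fun _ b k c => lbd_cone k b c, fun _ b c => lbd_cone_zero b c,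
    fun _ _ g k c => lbd_lpush k g c, fun _ _ g b k c => lpush_cone k g b c⟩

end Pool.Agent.SH
end

section
/-! # Realization of linear chains (module HRE) -/
set_option autoImplicit false

namespace Pool.Agent.SH.HRE

open HLC

variable {E F : Type} [NormedAddCommGroup E] [NormedSpace ℝ E]
  [NormedAddCommGroup F] [NormedSpace ℝ F] {K : Set E} (hK : Convex ℝ K) {L : Set F}
  (hL : Convex ℝ L)

theorem aff_apply (k : ℕ) (v : Fin (k + 1) → K) (t : Dl k) :
    ((aff hK k v t : K) : E) = ∑ i, (t : Fin (k + 1) → ℝ) i • (v i : E) := rfl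

theorem map_apply {m n : ℕ} (f : Fin (m + 1) → Fin (n + 1)) (t : Dl m) (j : Fin (n + 1)) :
    ((stdSimplex.map f t : Dl n) : Fin (n + 1) → ℝ) j = ∑ i with f i = j, (t : Fin (m + 1) → ℝ) i := by
  show FunOnFinite.linearMap ℝ ℝ f t.1 j = _
  rw [FunOnFinite.linearMap_apply_apply]
  rfl

theorem aff_comp_face (k : ℕ) (v : Fin (k + 2) → K) (i : Fin (k + 2)) :
    (aff hK (k + 1) v).comp (face k i) = aff hK k (v ∘ Fin.succAbove i) := by
  ext t
  show (∑ j, ((stdSimplex.map (Fin.succAbove i) t : Dl (k + 1)) : Fin (k + 2) → ℝ) j • (v j : E)) =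
    ∑ j, (t : Fin (k + 1) → ℝ) j • (v (Fin.succAbove i j) : E)
  rw [← Finset.sum_fiberwise (s := Finset.univ) (g := Fin.succAbove i)
    (f := fun j => (t : Fin (k + 1) → ℝ) j • (v (Fin.succAbove i j) : E))]
  apply Finset.sum_congr rfl
  intro j _
  rw [map_apply, Finset.sum_smul]
  apply Finset.sum_congr rfl
  intro l hl
  rw [(Finset.mem_filter.mp hl).2]

theorem vert_apply (k : ℕ) (i j : Fin (k + 1)) :
    ((vert k i : Dl k) : Fin (k + 1) → ℝ) j = if j = i then 1 else 0 := by
  show (Pi.single i (1 : ℝ) : Fin (k + 1) → ℝ) j = _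
  rw [Pi.single_apply]

theorem aff_vert (k : ℕ) (v : Fin (k + 1) → K) (i : Fin (k + 1)) :
    aff hK k v (vert k i) = v i := by
  apply Subtype.ext
  rw [aff_apply]
  simp [vert_apply]

theorem aff_coe (n k : ℕ) (v : Fin (k + 1) → Dl n) (t : Dl k) (j : Fin (n + 1)) :
    (aff (convex_Dl n) k v t : Dl n) j = ∑ i, t i * (v i) j := by
  show ((aff (convex_Dl n) k v t : Dl n) : Fin (n + 1) → ℝ) j = _
  have h := congrFun (aff_apply (convex_Dl n) k v t) j
  refine h.trans ?_
  rw [Finset.sum_apply]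
  rfl

theorem vert_coe (k : ℕ) (i j : Fin (k + 1)) : (vert k i) j = if j = i then 1 else 0 :=
  vert_apply k i j

theorem aff_id (k : ℕ) : aff (convex_Dl k) k (vert k) = ContinuousMap.id _ := by
  ext t j
  show (aff (convex_Dl k) k (vert k) t : Dl k) j = t j
  rw [aff_coe]
  simp [vert_coe]

theorem isAff_aff (k : ℕ) (v : Fin (k + 1) → K) : IsAff (convex_Dl k) hK (aff hK k v) := by
  intro m w t
  apply Subtype.ext
  rw [aff_apply, aff_apply]
  have h : ∀ i, (aff (convex_Dl k) m w t : Dl k) i = ∑ l, t l * (w l) i :=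
    fun i => aff_coe k m w t i
  simp only [h, aff_apply, Finset.sum_smul, Function.comp_apply, Finset.smul_sum, smul_smul]
  rw [Finset.sum_comm]

theorem face_eq (k : ℕ) (i : Fin (k + 2)) :
    face k i = aff (convex_Dl (k + 1)) k (vert (k + 1) ∘ Fin.succAbove i) := by
  have h := aff_comp_face (convex_Dl (k + 1)) k (vert (k + 1)) i
  rw [aff_id] at h
  rw [← h]
  rfl

theorem isAff_face (k : ℕ) (i : Fin (k + 2)) :
    IsAff (convex_Dl k) (convex_Dl (k + 1)) (face k i) := by
  rw [face_eq]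
  exact isAff_aff _ _ _

/-- the centre of the simplex -/
noncomputable def ctr (k : ℕ) : Dl k :=
  ⟨fun _ => (k + 1 : ℝ)⁻¹, fun _ => by positivity, by
    rw [Finset.sum_const, Finset.card_univ, Fintype.card_fin, nsmul_eq_mul]
    push_cast
    field_simp⟩

theorem bary_eq (k : ℕ) (v : Fin (k + 1) → K) : bary hK k v = aff hK k v (ctr k) := rfl

theorem isAff_bary (g : K → L) (hg : IsAff hK hL g) (k : ℕ) (v : Fin (k + 1) → K) :
    g (bary hK k v) = bary hL k (g ∘ v) := by
  rw [bary_eq, bary_eq, hg]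

theorem real_single (k : ℕ) (v : Fin (k + 1) → K) (a : ℚ) :
    real hK k (Finsupp.single v a) = Finsupp.single (aff hK k v) a := by
  simp [real]

theorem bd_single' {X : Type} [TopologicalSpace X] (k : ℕ) (σ : Smp (k + 1) X) (a : ℚ) :
    bd k (Finsupp.single σ a) =
      ∑ i : Fin (k + 2), ((-1 : ℚ) ^ (i : ℕ)) • Finsupp.single (σ.comp (face k i)) a := by
  rw [bd_single, bdS, Finset.smul_sum]
  apply Finset.sum_congr rfl
  intro i _
  rw [smul_comm, Finsupp.smul_single, smul_eq_mul, mul_one]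

theorem bd_real (k : ℕ) (c : LC K (k + 1)) :
    bd k (real hK (k + 1) c) = real hK k (lbd k c) := by
  induction c using Finsupp.induction_linear with
  | zero => simp
  | add f g hf hg => simp only [map_add, hf, hg]
  | single v a =>
    rw [real_single, bd_single', lbd_single', map_sum]
    apply Finset.sum_congr rfl
    intro i _
    rw [map_smul, real_single, aff_comp_face]

theorem push_real (g : C(K, L)) (hg : IsAff hK hL g) (k : ℕ) (c : LC K k) :
    push k g (real hK k c) = real hL k (lpush k g c) := by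
  induction c using Finsupp.induction_linear with
  | zero => simp
  | add f g hf hg => simp only [map_add, hf, hg]
  | single v a =>
    rw [real_single, push_single, lpush_single, real_single]
    congr 1
    ext1 t
    exact hg k v t

theorem aff_dist_le (k : ℕ) (v : Fin (k + 1) → K) (R : ℝ) (x : K) (h : ∀ i, dist (v i) x ≤ R)
    (t : Dl k) : dist (aff hK k v t) x ≤ R := by
  have h1 : ((aff hK k v t : K) : E) ∈ Metric.closedBall (x : E) R := by
    rw [aff_apply]
    exact (convex_closedBall (x : E) R).sum_mem (fun i _ => t.2.1 i) t.2.2 (fun i _ => h i)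
  exact h1

theorem aff_dist (k : ℕ) (v : Fin (k + 1) → K) (R : ℝ) (h : ∀ i j, dist (v i) (v j) ≤ R)
    (s t : Dl k) : dist (aff hK k v s) (aff hK k v t) ≤ R := by
  apply aff_dist_le
  intro i
  rw [dist_comm]
  apply aff_dist_le
  intro j
  exact h j i

end Pool.Agent.SH.HRE

namespace Pool.Agent.SH

open HRE in
theorem specReal : SpecReal :=
  ⟨fun _ _ _ _ hK k c => bd_real hK k c,
    fun _ _ _ _ _ _ _ hK _ hL g hg => ⟨fun k c => push_real hK hL g hg k c,
      fun k v => isAff_bary hK hL g hg k v⟩,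
    fun k i => isAff_face k i, fun _ _ _ _ hK k v => isAff_aff hK k v, fun k => aff_id k,
    fun _ _ _ _ hK k v i => aff_vert hK k v i,
    fun _ _ _ _ hK k v R h s t => aff_dist hK k v R h s t⟩

end Pool.Agent.SH
end

section
/-! # Subdivision and prism on linear chains (module HSD) -/
set_option autoImplicit false

namespace Pool.Agent.SH.HSD

open HLC

variable {K L K' L' : Type}

theorem single_eq_smul {α : Type} (v : α) (a : ℚ) :
    (Finsupp.single v a : α →₀ ℚ) = a • Finsupp.single v 1 := by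
  rw [Finsupp.smul_single, smul_eq_mul, mul_one]

theorem lbd_one (k : ℕ) (v : Fin (k + 2) → K) : lbd k (Finsupp.single v 1) = lbdS k v := by
  rw [lbd_single, one_smul]

theorem sum_lbd (c : LC K 1) : ((lbd 0 c).sum fun _ a => a) = 0 := by
  induction c using Finsupp.induction_linear with
  | zero => simp
  | add f g hf hg =>
    rw [map_add, Finsupp.sum_add_index' (fun _ => rfl) (fun _ _ _ => rfl), hf, hg, add_zero]
  | single v a =>
    rw [lbd_single', Fin.sum_univ_two]
    simp only [Fin.val_zero, pow_zero, one_smul, Fin.val_one, pow_one, neg_smul]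
    rw [← Finsupp.single_neg, Finsupp.sum_add_index' (fun _ => rfl) (fun _ _ _ => rfl),
      Finsupp.sum_single_index rfl, Finsupp.sum_single_index rfl, add_neg_cancel]

/-- a cone over a 0-chain of degree 0 -/
theorem lbd_cone_zero' (b : K) (c : LC K 0) (hc : (c.sum fun _ a => a) = 0) :
    lbd 0 (cone 0 b c) = c := by
  rw [lbd_cone_zero, hc, zero_smul, sub_zero]

section sd

variable (ba : ∀ k : ℕ, (Fin (k + 1) → K) → K) (ba' : ∀ k : ℕ, (Fin (k + 1) → L) → L)

theorem Sd_zero (c : LC K 0) : Sd ba 0 c = c := rfl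

theorem Sd_succ (k : ℕ) (v : Fin (k + 2) → K) (a : ℚ) :
    Sd ba (k + 1) (Finsupp.single v a) =
      cone k (ba (k + 1) v) (Sd ba k (lbd k (Finsupp.single v a))) := by
  rw [single_eq_smul v a, map_smul, map_smul, map_smul, map_smul, lbd_one]
  congr 1
  rw [Sd, Finsupp.linearCombination_single, one_smul]

theorem Tt_zero (c : LC K 0) : Tt ba 0 c = 0 := rfl

theorem Tt_succ (k : ℕ) (v : Fin (k + 2) → K) (a : ℚ) :
    Tt ba (k + 1) (Finsupp.single v a) =
      cone (k + 1) (ba (k + 1) v) (Finsupp.single v a - Sd ba (k + 1) (Finsupp.single v a)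
        - Tt ba k (lbd k (Finsupp.single v a))) := by
  rw [single_eq_smul v a, map_smul, map_smul, map_smul, map_smul, ← smul_sub, ← smul_sub,
    map_smul, lbd_one]
  congr 1
  rw [Tt, Finsupp.linearCombination_single, one_smul]

theorem lbd_Sd (k : ℕ) (c : LC K (k + 1)) : lbd k (Sd ba (k + 1) c) = Sd ba k (lbd k c) := by
  induction k with
  | zero =>
    induction c using Finsupp.induction_linear with
    | zero => simp
    | add f g hf hg => simp only [map_add, hf, hg]
    | single v a => rw [Sd_succ, Sd_zero, lbd_cone_zero' _ _ (sum_lbd _)]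
  | succ k ih =>
    induction c using Finsupp.induction_linear with
    | zero => simp
    | add f g hf hg => simp only [map_add, hf, hg]
    | single v a => rw [Sd_succ, lbd_cone, ih, lbd_lbd, map_zero, map_zero, sub_zero]

theorem lbd_Tt (k : ℕ) (c : LC K (k + 1)) :
    lbd (k + 1) (Tt ba (k + 1) c) + Tt ba k (lbd k c) = c - Sd ba (k + 1) c := by
  induction k with
  | zero =>
    induction c using Finsupp.induction_linear with
    | zero => simp
    | add f g hf hg =>
      simp only [map_add]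
      rw [show ∀ p q r s : LC K 1, (p + q) + (r + s) = (p + r) + (q + s) from
        fun p q r s => by abel, hf, hg]
      abel
    | single v a =>
      rw [Tt_succ, lbd_cone, Tt_zero, sub_zero, add_zero, map_sub (lbd 0), lbd_Sd, Sd_zero,
        sub_self, map_zero, sub_zero]
  | succ k ih =>
    induction c using Finsupp.induction_linear with
    | zero => simp
    | add f g hf hg =>
      simp only [map_add]
      rw [show ∀ p q r s : LC K (k + 1 + 1), (p + q) + (r + s) = (p + r) + (q + s) from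
        fun p q r s => by abel, hf, hg]
      abel
    | single v a =>
      rw [Tt_succ, lbd_cone]
      have h1 := ih (lbd (k + 1) (Finsupp.single v a))
      rw [lbd_lbd, map_zero, add_zero] at h1
      rw [map_sub (lbd (k + 1)), map_sub (lbd (k + 1)), h1, lbd_Sd, sub_self, map_zero, sub_zero,
        sub_add_cancel]

theorem lpush_Sd (g : K → L) (hg : ∀ (k : ℕ) (v : Fin (k + 1) → K), g (ba k v) = ba' k (g ∘ v))
    (k : ℕ) (c : LC K k) : lpush k g (Sd ba k c) = Sd ba' k (lpush k g c) := by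
  induction k with
  | zero => rfl
  | succ k ih =>
    induction c using Finsupp.induction_linear with
    | zero => simp
    | add f g hf hg => simp only [map_add, hf, hg]
    | single v a =>
      rw [Sd_succ, lpush_cone, ih, ← lbd_lpush, lpush_single, Sd_succ, hg]

theorem lpush_Tt (g : K → L) (hg : ∀ (k : ℕ) (v : Fin (k + 1) → K), g (ba k v) = ba' k (g ∘ v))
    (k : ℕ) (c : LC K k) : lpush (k + 1) g (Tt ba k c) = Tt ba' k (lpush k g c) := by
  induction k with
  | zero => rw [Tt_zero, Tt_zero, map_zero]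
  | succ k ih =>
    induction c using Finsupp.induction_linear with
    | zero => simp
    | add f g hf hg => simp only [map_add, hf, hg]
    | single v a =>
      rw [Tt_succ, lpush_cone, map_sub (lpush (k + 1) g), map_sub (lpush (k + 1) g), ih,
        lpush_Sd ba ba' g hg, ← lbd_lpush, lpush_single, Tt_succ, hg]

end sd

section pr

variable (g₀ g₁ : K → L)

theorem Pr_zero (v : Fin 1 → K) (a : ℚ) :
    Pr g₀ g₁ 0 (Finsupp.single v a) =
      cone 0 (g₀ (v 0)) (lpush 0 g₁ (Finsupp.single v a) - lpush 0 g₀ (Finsupp.single v a)) := by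
  rw [single_eq_smul v a, map_smul, map_smul, map_smul, ← smul_sub, map_smul, lpush_single,
    lpush_single]
  congr 1
  rw [Pr, Finsupp.linearCombination_single, one_smul]

theorem Pr_succ (k : ℕ) (v : Fin (k + 2) → K) (a : ℚ) :
    Pr g₀ g₁ (k + 1) (Finsupp.single v a) =
      cone (k + 1) (g₀ (v 0)) (lpush (k + 1) g₁ (Finsupp.single v a)
        - lpush (k + 1) g₀ (Finsupp.single v a) - Pr g₀ g₁ k (lbd k (Finsupp.single v a))) := by
  rw [single_eq_smul v a, map_smul, map_smul, map_smul, map_smul, map_smul, ← smul_sub,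
    ← smul_sub, map_smul, lbd_one, lpush_single, lpush_single]
  congr 1
  rw [Pr, Finsupp.linearCombination_single, one_smul]

theorem lbd_Pr_zero (c : LC K 0) :
    lbd 0 (Pr g₀ g₁ 0 c) = lpush 0 g₁ c - lpush 0 g₀ c := by
  induction c using Finsupp.induction_linear with
  | zero => simp
  | add f g hf hg =>
    simp only [map_add, hf, hg]
    abel
  | single v a =>
    rw [Pr_zero, lbd_cone_zero']
    rw [lpush_single, lpush_single, sub_eq_add_neg, ← Finsupp.single_neg,
      Finsupp.sum_add_index' (fun _ => rfl) (fun _ _ _ => rfl),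
      Finsupp.sum_single_index rfl, Finsupp.sum_single_index rfl, add_neg_cancel]

theorem lbd_Pr (k : ℕ) (c : LC K (k + 1)) :
    lbd (k + 1) (Pr g₀ g₁ (k + 1) c) + Pr g₀ g₁ k (lbd k c) =
      lpush (k + 1) g₁ c - lpush (k + 1) g₀ c := by
  induction k with
  | zero =>
    induction c using Finsupp.induction_linear with
    | zero => simp
    | add f g hf hg =>
      simp only [map_add]
      rw [show ∀ p q r s : LC L 1, (p + q) + (r + s) = (p + r) + (q + s) from
        fun p q r s => by abel, hf, hg]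
      abel
    | single v a =>
      rw [Pr_succ, lbd_cone, map_sub (lbd 0), lbd_Pr_zero, map_sub (lbd 0), lbd_lpush, lbd_lpush,
        sub_self, map_zero, sub_zero, sub_add_cancel]
  | succ k ih =>
    induction c using Finsupp.induction_linear with
    | zero => simp
    | add f g hf hg =>
      simp only [map_add]
      rw [show ∀ p q r s : LC L (k + 1 + 1), (p + q) + (r + s) = (p + r) + (q + s) from
        fun p q r s => by abel, hf, hg]
      abel
    | single v a =>
      rw [Pr_succ, lbd_cone]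
      have h1 := ih (lbd (k + 1) (Finsupp.single v a))
      rw [lbd_lbd, map_zero, add_zero] at h1
      rw [map_sub (lbd (k + 1)), map_sub (lbd (k + 1)), h1, lbd_lpush, lbd_lpush, sub_self,
        map_zero, sub_zero, sub_add_cancel]

theorem lpush_lpush (k : ℕ) (a : K → L) (b : L → K') (c : LC K k) :
    lpush k b (lpush k a c) = lpush k (b ∘ a) c := by
  induction c using Finsupp.induction_linear with
  | zero => simp
  | add f g hf hg => simp only [map_add, hf, hg]
  | single v a => rw [lpush_single, lpush_single, lpush_single]; rfl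

theorem lpush_Pr (g₀' g₁' : K' → L') (a : K → K') (b : L → L') (h0 : b ∘ g₀ = g₀' ∘ a)
    (h1 : b ∘ g₁ = g₁' ∘ a) (k : ℕ) (c : LC K k) :
    lpush (k + 1) b (Pr g₀ g₁ k c) = Pr g₀' g₁' k (lpush k a c) := by
  induction k with
  | zero =>
    induction c using Finsupp.induction_linear with
    | zero => simp
    | add f g hf hg => simp only [map_add, hf, hg]
    | single v x =>
      rw [Pr_zero, lpush_cone, map_sub (lpush 0 b), lpush_lpush, lpush_lpush, h0, h1,
        lpush_single _ a, Pr_zero, lpush_single, lpush_single, lpush_single, lpush_single]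
      have h2 : b (g₀ (v 0)) = g₀' ((a ∘ v) 0) := congrFun h0 (v 0)
      rw [h2]
      rfl
  | succ k ih =>
    induction c using Finsupp.induction_linear with
    | zero => simp
    | add f g hf hg => simp only [map_add, hf, hg]
    | single v x =>
      rw [Pr_succ, lpush_cone, map_sub (lpush (k + 1) b), map_sub (lpush (k + 1) b),
        lpush_lpush, lpush_lpush, h0, h1, ih, ← lbd_lpush, lpush_single _ a, Pr_succ,
        lpush_single, lpush_single, lpush_single, lpush_single]
      have h2 : b (g₀ (v 0)) = g₀' ((a ∘ v) 0) := congrFun h0 (v 0)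
      rw [h2]
      rfl

end pr

end Pool.Agent.SH.HSD

namespace Pool.Agent.SH

open HSD in
theorem specSdT (_h : SpecLC) : SpecSdT :=
  ⟨fun _ ba => ⟨fun k c => lbd_Sd ba k c, fun k c => lbd_Tt ba k c⟩,
    fun _ _ ba ba' g hg k c => ⟨lpush_Sd ba ba' g hg k c, lpush_Tt ba ba' g hg k c⟩,
    fun _ _ g₀ g₁ => ⟨fun c => lbd_Pr_zero g₀ g₁ c, fun k c => lbd_Pr g₀ g₁ k c⟩,
    fun _ _ _ _ g₀ g₁ g₀' g₁' a b h0 h1 k c => lpush_Pr g₀ g₁ g₀' g₁' a b h0 h1 k c⟩

end Pool.Agent.SH
end

section
/-! # The subdivision operators on singular chains (module HOP) -/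
set_option autoImplicit false

namespace Pool.Agent.SH.HOP

open HLC HRE HSD

variable {X Y : Type} [TopologicalSpace X] [TopologicalSpace Y]

theorem sdS_single (k : ℕ) (σ : Smp k X) (a : ℚ) :
    sdS k X (Finsupp.single σ a) =
      push k σ (real (convex_Dl k) k (Sd (bary (convex_Dl k)) k (Finsupp.single (vert k) a))) := by
  rw [single_eq_smul (vert k) a, map_smul, map_smul, map_smul, sdS,
    Finsupp.linearCombination_single]

theorem tS_single (k : ℕ) (σ : Smp k X) (a : ℚ) :
    tS k X (Finsupp.single σ a) =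
      push (k + 1) σ (real (convex_Dl k) (k + 1)
        (Tt (bary (convex_Dl k)) k (Finsupp.single (vert k) a))) := by
  rw [single_eq_smul (vert k) a, map_smul, map_smul, map_smul, tS,
    Finsupp.linearCombination_single]

theorem sdS_push (f : C(X, Y)) (k : ℕ) (z : Ch k X) :
    push k f (sdS k X z) = sdS k Y (push k f z) := by
  induction z using Finsupp.induction_linear with
  | zero => simp
  | add f g hf hg => simp only [map_add, hf, hg]
  | single σ a => rw [push_single, sdS_single, sdS_single, push_comp]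

theorem tS_push (f : C(X, Y)) (k : ℕ) (z : Ch k X) :
    push (k + 1) f (tS k X z) = tS k Y (push k f z) := by
  induction z using Finsupp.induction_linear with
  | zero => simp
  | add f g hf hg => simp only [map_add, hf, hg]
  | single σ a => rw [push_single, tS_single, tS_single, push_comp]

section real

variable {E : Type} [NormedAddCommGroup E] [NormedSpace ℝ E] {K : Set E} (hK : Convex ℝ K)

theorem lpush_vert (k : ℕ) (v : Fin (k + 1) → K) (a : ℚ) :
    lpush k (aff hK k v) (Finsupp.single (vert k) a) = Finsupp.single v a := by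
  rw [lpush_single]
  congr 1
  funext i
  exact aff_vert hK k v i

theorem single_real (k : ℕ) (v : Fin (k + 1) → K) (a : ℚ) :
    real hK k (Finsupp.single v a) =
      push k (aff hK k v) (Finsupp.single (ContinuousMap.id _) a) := by
  rw [real_single, push_single, ContinuousMap.comp_id]

theorem sdS_real (k : ℕ) (c : LC K k) :
    sdS k K (real hK k c) = real hK k (Sd (bary hK) k c) := by
  induction c using Finsupp.induction_linear with
  | zero => simp
  | add f g hf hg => simp only [map_add, hf, hg]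
  | single v a =>
    have hA := isAff_aff hK k v
    rw [real_single, sdS_single, push_real (convex_Dl k) hK _ hA,
      lpush_Sd (bary (convex_Dl k)) (bary hK) _ (fun j w => isAff_bary (convex_Dl k) hK _ hA j w),
      lpush_vert]

theorem tS_real (k : ℕ) (c : LC K k) :
    tS k K (real hK k c) = real hK (k + 1) (Tt (bary hK) k c) := by
  induction c using Finsupp.induction_linear with
  | zero => simp
  | add f g hf hg => simp only [map_add, hf, hg]
  | single v a =>
    have hA := isAff_aff hK k v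
    rw [real_single, tS_single, push_real (convex_Dl k) hK _ hA,
      lpush_Tt (bary (convex_Dl k)) (bary hK) _ (fun j w => isAff_bary (convex_Dl k) hK _ hA j w),
      lpush_vert]

end real

theorem single_eq (k : ℕ) (σ : Smp k X) (a : ℚ) :
    (Finsupp.single σ a : Ch k X) =
      push k σ (real (convex_Dl k) k (Finsupp.single (vert k) a)) := by
  rw [real_single, push_single, aff_id, ContinuousMap.comp_id]

theorem sdS_zero (z : Ch 0 X) : sdS 0 X z = z := by
  induction z using Finsupp.induction_linear with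
  | zero => simp
  | add f g hf hg => simp only [map_add, hf, hg]
  | single σ a => rw [sdS_single, Sd_zero, ← single_eq]

theorem bd_sdS (k : ℕ) (z : Ch (k + 1) X) :
    bd k (sdS (k + 1) X z) = sdS k X (bd k z) := by
  induction z using Finsupp.induction_linear with
  | zero => simp
  | add f g hf hg => simp only [map_add, hf, hg]
  | single σ a =>
    rw [single_eq, bd_push, ← sdS_push, ← sdS_push, bd_push, sdS_real, bd_real, bd_real,
      sdS_real, lbd_Sd]

theorem bd_tS (k : ℕ) (z : Ch (k + 1) X) :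
    bd (k + 1) (tS (k + 1) X z) + tS k X (bd k z) = z - sdS (k + 1) X z := by
  induction z using Finsupp.induction_linear with
  | zero => simp
  | add f g hf hg =>
    simp only [map_add]
    rw [show ∀ p q r s : Ch (k + 1) X, (p + q) + (r + s) = (p + r) + (q + s) from
        fun p q r s => by abel, hf, hg]
    abel
  | single σ a =>
    rw [single_eq, ← tS_push, bd_push, tS_real, bd_real, ← sdS_push, sdS_real, bd_push,
      ← tS_push, bd_real, tS_real, ← map_sub, ← map_sub, ← map_add, ← map_add, lbd_Tt]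

theorem sdS_iter_push (f : C(X, Y)) (k m : ℕ) (z : Ch k X) :
    ((sdS k Y) ^ m) (push k f z) = push k f (((sdS k X) ^ m) z) := by
  induction m with
  | zero => rfl
  | succ m ih =>
    rw [pow_succ', pow_succ', Module.End.mul_apply, Module.End.mul_apply, ih, sdS_push]

theorem sdS_iter_real {E : Type} [NormedAddCommGroup E] [NormedSpace ℝ E] {K : Set E}
    (hK : Convex ℝ K) (k m : ℕ) (c : LC K k) :
    ((sdS k K) ^ m) (real hK k c) = real hK k (((Sd (bary hK) k) ^ m) c) := by
  induction m with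
  | zero => rfl
  | succ m ih =>
    rw [pow_succ', pow_succ', Module.End.mul_apply, Module.End.mul_apply, ih, sdS_real]

theorem sdS_iter (k m : ℕ) (σ : Smp k X) :
    ((sdS k X) ^ m) (Finsupp.single σ 1) =
      push k σ (real (convex_Dl k) k (((Sd (bary (convex_Dl k)) k) ^ m)
        (Finsupp.single (vert k) 1))) := by
  rw [single_eq, sdS_iter_push, sdS_iter_real]

end Pool.Agent.SH.HOP

namespace Pool.Agent.SH

open HOP in
theorem specOps (_h1 : SpecLC) (_h2 : SpecReal) (_h3 : SpecSdT) : SpecOps :=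
  ⟨fun _ _ z => sdS_zero z, fun _ _ k z => bd_sdS k z, fun _ _ k z => bd_tS k z,
    fun _ _ _ _ f k z => ⟨sdS_push f k z, tS_push f k z⟩, fun _ _ k m σ => sdS_iter k m σ⟩

end Pool.Agent.SH
end

section
/-! # Bridge to the singular homology of Mathlib (module HBR) -/
set_option autoImplicit false

open CategoryTheory Limits AlgebraicTopology Simplicial

namespace Pool.Agent.SH.HBR

open HRE

/-- the singular simplicial set -/
noncomputable abbrev SM (X : Type) [TopologicalSpace X] : SSet.{0} :=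
  TopCat.toSSet.obj (TopCat.of X)

/-- the singular complex of Mathlib -/
noncomputable abbrev KM (X : Type) [TopologicalSpace X] : ChainComplex (ModuleCat.{0} ℚ) ℕ :=
  (SM X).chainComplex (ModuleCat.of ℚ ℚ)

theorem KM_eq (X : Type) [TopologicalSpace X] :
    ((singularChainComplexFunctor (ModuleCat.{0} ℚ)).obj (ModuleCat.of ℚ ℚ)).obj (TopCat.of X) =
      KM X := rfl

theorem HM_eq (X : Type) [TopologicalSpace X] (n : ℕ) :
    ((singularHomologyFunctor (ModuleCat.{0} ℚ) n).obj (ModuleCat.of ℚ ℚ)).obj (TopCat.of X) =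
      (KM X).homology n := rfl

variable (X : Type) [TopologicalSpace X]

/-- a singular simplex in the sense of Mathlib -/
noncomputable def toM (n : ℕ) : Smp n X ≃ (SM X) _⦋n⦌ :=
  (TopCat.toSSetObjEquiv (TopCat.of X) (Opposite.op ⦋n⦌)).symm

theorem toM_face (n : ℕ) (σ : Smp (n + 1) X) (i : Fin (n + 2)) :
    (SM X).δ i (toM X (n + 1) σ) = toM X n (σ.comp (face n i)) := by
  rfl

/-- the inclusion of a summand of the module of chains -/
noncomputable def io (n : ℕ) (x : (SM X) _⦋n⦌) : ℚ →ₗ[ℚ] (KM X).X n :=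
  (SSet.ιChainComplex (R := ModuleCat.of ℚ ℚ) (SM X) x).hom

/-- from concrete chains to the chains of Mathlib -/
noncomputable def eFwd (n : ℕ) : Ch n X →ₗ[ℚ] (KM X).X n :=
  Finsupp.lsum ℚ fun σ => io X n (toM X n σ)

theorem eFwd_single (n : ℕ) (σ : Smp n X) (a : ℚ) :
    eFwd X n (Finsupp.single σ a) = io X n (toM X n σ) a := by
  simp [eFwd]

/-- from the chains of Mathlib to concrete chains -/
noncomputable def eBwd' (n : ℕ) : (KM X).X n ⟶ ModuleCat.of ℚ (Ch n X) :=
  (SSet.isColimitChainComplexXCofan (SM X) (ModuleCat.of ℚ ℚ) n).desc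
    (Cofan.mk _ fun x => ModuleCat.ofHom (Finsupp.lsingle (R := ℚ) (M := ℚ) ((toM X n).symm x)))

/-- from the chains of Mathlib to concrete chains -/
noncomputable def eBwd (n : ℕ) : (KM X).X n →ₗ[ℚ] Ch n X := (eBwd' X n).hom

theorem eBwd_io (n : ℕ) (x : (SM X) _⦋n⦌) (a : ℚ) :
    eBwd X n (io X n x a) = Finsupp.single ((toM X n).symm x) a := by
  have h := (SSet.isColimitChainComplexXCofan (SM X) (ModuleCat.of ℚ ℚ) n).fac
    (Cofan.mk _ fun x => ModuleCat.ofHom (Finsupp.lsingle (R := ℚ) (M := ℚ) ((toM X n).symm x)))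
    ⟨x⟩
  have h2 := congrArg (fun g => g.hom a) h
  exact h2

theorem io_ext {M : Type} [AddCommGroup M] [Module ℚ M] {n : ℕ} {f g : (KM X).X n →ₗ[ℚ] M}
    (h : ∀ x a, f (io X n x a) = g (io X n x a)) : f = g := by
  have h1 : ModuleCat.ofHom f = ModuleCat.ofHom g := by
    apply SSet.chainComplex_hom_ext
    intro x
    exact ModuleCat.hom_ext (LinearMap.ext fun a => h x a)
  exact congrArg (fun g => g.hom) h1

/-- concrete chains are the chains of Mathlib -/
noncomputable def eK (n : ℕ) : Ch n X ≃ₗ[ℚ] (KM X).X n :=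
  LinearEquiv.ofLinearMap (eFwd X n) (eBwd X n)
    (by
      apply io_ext
      intro x a
      rw [LinearMap.comp_apply, eBwd_io, eFwd_single, Equiv.apply_symm_apply]
      rfl)
    (by
      apply Finsupp.lhom_ext
      intro σ a
      rw [LinearMap.comp_apply, eFwd_single, eBwd_io, Equiv.symm_apply_apply]
      rfl)

theorem eK_single (n : ℕ) (σ : Smp n X) (a : ℚ) :
    eK X n (Finsupp.single σ a) = io X n (toM X n σ) a := eFwd_single X n σ a

/-- the boundary of Mathlib as a linear map -/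
noncomputable def dM (n : ℕ) : (KM X).X (n + 1) →ₗ[ℚ] (KM X).X n := ((KM X).d (n + 1) n).hom

theorem dM_io (n : ℕ) (x : (SM X) _⦋n + 1⦌) (a : ℚ) :
    dM X n (io X (n + 1) x a) =
      ∑ i : Fin (n + 2), ((-1 : ℚ) ^ (i : ℕ)) • io X n ((SM X).δ i x) a := by
  have h := SSet.ιChainComplex_d (R := ModuleCat.of ℚ ℚ) (SM X) x
  have h2 := congrArg (fun g => g.hom a) h
  have h3 : dM X n (io X (n + 1) x a) = (∑ (i : Fin (n + 2)), (-1) ^ i.val •
    SSet.ιChainComplex (R := ModuleCat.of ℚ ℚ) (SM X) ((SM X).δ i x)).hom a := h2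
  rw [h3, ModuleCat.hom_sum, LinearMap.sum_apply]
  apply Finset.sum_congr rfl
  intro i _
  rw [ModuleCat.hom_zsmul, LinearMap.smul_apply, ← Int.cast_smul_eq_zsmul ℚ]
  push_cast
  rfl

theorem eK_bd (n : ℕ) (c : Ch (n + 1) X) : eK X n (bd n c) = dM X n (eK X (n + 1) c) := by
  induction c using Finsupp.induction_linear with
  | zero => simp
  | add f g hf hg => simp only [map_add, hf, hg]
  | single σ a =>
    rw [bd_single', eK_single, map_sum, dM_io]
    apply Finset.sum_congr rfl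
    intro i _
    rw [map_smul, eK_single, toM_face]

theorem exactAt (k : ℕ) (h : Subsingleton (H (k + 1) X)) : (KM X).ExactAt (k + 1) := by
  rw [HomologicalComplex.exactAt_iff' (KM X) (k + 2) (k + 1) k (by simp) (by simp),
    ShortComplex.moduleCat_exact_iff]
  intro x hx
  obtain ⟨c, rfl⟩ := (eK X (k + 1)).surjective x
  have h1 : bd k c = 0 := by
    apply (eK X k).injective
    rw [eK_bd, map_zero]
    exact hx
  have h2 : cls (k + 1) (⟨c, h1⟩ : ↥(cyc (k + 1) X)) = 0 := Subsingleton.elim _ _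
  rw [cls_eq_zero_iff] at h2
  obtain ⟨b, hb⟩ := h2
  refine ⟨eK X (k + 2) b, ?_⟩
  have h3 := eK_bd X (k + 1) b
  rw [hb] at h3
  exact h3.symm

end Pool.Agent.SH.HBR

namespace Pool.Agent.SH

open HBR in
theorem specBridge : SpecBridge := by
  intro X _ k h
  rw [HM_eq, ← HomologicalComplex.exactAt_iff_isZero_homology]
  exact exactAt X k h

end Pool.Agent.SH
end

section
/-!
# Module HZE: degree zero
-/
set_option autoImplicit false

open Finset

namespace Pool.Agent.SH.HzeM

variable {X Y : Type} [TopologicalSpace X] [TopologicalSpace Y]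

/-- The augmentation: the sum of the coefficients of a `0`-chain. -/
noncomputable def aug (X : Type) [TopologicalSpace X] : Ch 0 X →ₗ[ℚ] ℚ :=
  Finsupp.linearCombination ℚ (fun _ : Smp 0 X => (1 : ℚ))

@[simp] lemma aug_single (σ : Smp 0 X) (a : ℚ) : aug X (Finsupp.single σ a) = a := by
  simp [aug]

lemma aug_bd (z : Ch 1 X) : aug X (bd 0 z) = 0 := by
  induction z using Finsupp.induction_linear with
  | zero => simp
  | add f g hf hg => rw [map_add, map_add, hf, hg, add_zero]
  | single a b => simp [bdS]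

lemma aug_push (f : C(X, Y)) (z : Ch 0 X) : aug Y (push 0 f z) = aug X z := by
  induction z using Finsupp.induction_linear with
  | zero => simp
  | add f g hf hg => simp only [map_add, hf, hg]
  | single a b => simp

/-- The point `vert 0 0` of `Dl 0`. -/
lemma eq_vert (t : Dl 0) : t = vert 0 0 := Subsingleton.elim _ _

lemma face_zero (t : Dl 0) : face 0 0 t = vert 1 1 := by
  rw [eq_vert t]
  apply Subtype.ext
  funext i
  fin_cases i <;> simp [face, vert, stdSimplex.map]

lemma face_one (t : Dl 0) : face 0 1 t = vert 1 0 := by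
  rw [eq_vert t]
  apply Subtype.ext
  funext i
  fin_cases i <;> simp [face, vert, stdSimplex.map]

/-- The constant simplex. -/
def pt (k : ℕ) (x : X) : Smp k X := ContinuousMap.const _ x

lemma smp_zero (σ : Smp 0 X) : σ = pt 0 (σ (vert 0 0)) := by
  ext t
  rw [eq_vert t]
  rfl

lemma coord_mem (i : Fin 2) (t : Dl 1) : (t : Fin 2 → ℝ) i ∈ Set.Icc (0 : ℝ) 1 :=
  ⟨t.2.1 i, by
    have h1 := t.2.2
    rw [Fin.sum_univ_two] at h1
    have h2 := t.2.1 0
    have h3 := t.2.1 1
    fin_cases i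
    · show t.1 0 ≤ 1
      linarith
    · show t.1 1 ≤ 1
      linarith⟩

/-- The singular `1`-simplex of a path. -/
noncomputable def ofPath {x y : X} (γ : Path x y) : Smp 1 X :=
  ⟨fun t => γ ⟨(t : Fin 2 → ℝ) 1, coord_mem 1 t⟩, γ.continuous.comp
    (Continuous.subtype_mk ((continuous_apply 1).comp continuous_subtype_val) _)⟩

lemma bdS_ofPath {x y : X} (γ : Path x y) :
    bdS 0 (ofPath γ) = Finsupp.single (pt 0 y) 1 - Finsupp.single (pt 0 x) 1 := by
  rw [bdS, Fin.sum_univ_two]
  have h0 : (ofPath γ).comp (face 0 0) = pt 0 y := by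
    ext t
    show ofPath γ (face 0 0 t) = y
    rw [face_zero]
    show γ ⟨_, _⟩ = y
    have : (⟨((vert 1 1 : Dl 1) : Fin 2 → ℝ) 1, coord_mem 1 _⟩ : unitInterval) = 1 := by
      apply Subtype.ext
      simp [vert]
    rw [this]
    exact γ.target
  have h1 : (ofPath γ).comp (face 0 1) = pt 0 x := by
    ext t
    show ofPath γ (face 0 1 t) = x
    rw [face_one]
    show γ ⟨_, _⟩ = x
    have : (⟨((vert 1 0 : Dl 1) : Fin 2 → ℝ) 1, coord_mem 1 _⟩ : unitInterval) = 0 := by
      apply Subtype.ext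
      simp [vert]
    rw [this]
    exact γ.source
  rw [h0, h1]
  simp [sub_eq_add_neg]

lemma sub_mem_bdr [PathConnectedSpace X] (x : X) (z : Ch 0 X) :
    z - (aug X z) • Finsupp.single (pt 0 x) (1 : ℚ) ∈ bdr 0 X := by
  induction z using Finsupp.induction_linear with
  | zero => simp
  | add f g hf hg =>
    have := Submodule.add_mem _ hf hg
    convert this using 1
    rw [map_add, add_smul]
    abel
  | single a b =>
    rw [aug_single]
    obtain ⟨γ⟩ := PathConnectedSpace.joined x (a (vert 0 0))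
    refine ⟨Finsupp.single (ofPath γ) b, ?_⟩
    rw [bd_single, bdS_ofPath, smul_sub, ← smp_zero]
    simp

/-- The augmentation on homology. -/
noncomputable def eps (X : Type) [TopologicalSpace X] : H 0 X →ₗ[ℚ] ℚ :=
  Submodule.liftQ _ ((aug X).comp (cyc 0 X).subtype) (by
    intro z hz
    obtain ⟨w, hw⟩ := hz
    show aug X (z : Ch 0 X) = 0
    rw [show ((z : Ch 0 X)) = bd 0 w from hw.symm]
    exact aug_bd w)

lemma eps_cls (z : ↥(cyc 0 X)) : eps X (cls 0 z) = aug X (z : Ch 0 X) := rfl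

lemma eps_bijective [PathConnectedSpace X] : Function.Bijective (eps X) := by
  obtain ⟨x⟩ := (PathConnectedSpace.nonempty : Nonempty X)
  constructor
  · rw [injective_iff_map_eq_zero]
    intro c hc
    obtain ⟨z, rfl⟩ := cls_surjective 0 c
    rw [eps_cls] at hc
    rw [cls_eq_zero_iff]
    have := sub_mem_bdr x (z : Ch 0 X)
    rw [hc, zero_smul, sub_zero] at this
    exact this
  · intro a
    refine ⟨cls 0 ⟨Finsupp.single (pt 0 x) a, Submodule.mem_top⟩, ?_⟩
    rw [eps_cls]
    exact aug_single _ _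

lemma eps_Hmap (f : C(X, Y)) (c : H 0 X) : eps Y (Hmap 0 f c) = eps X c := by
  obtain ⟨z, rfl⟩ := cls_surjective 0 c
  rw [Hmap_cls, eps_cls, eps_cls]
  exact aug_push f _

end Pool.Agent.SH.HzeM

namespace Pool.Agent.SH

open HzeM

theorem specZero : SpecZero := by
  refine ⟨?_, ?_⟩
  · intro X Y _ _ _ _ f
    have h : (eps Y) ∘ (Hmap 0 f) = eps X := funext (eps_Hmap f)
    have h1 : Function.Bijective ((eps Y) ∘ (Hmap 0 f)) := by rw [h]; exact eps_bijective
    exact (Function.Bijective.of_comp_iff' eps_bijective _).1 h1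
  · intro X _ _
    refine ⟨eps X, eps_bijective, fun σ => ?_⟩
    rw [eps_cls]
    exact aug_single _ _

end Pool.Agent.SH
end

section
/-!
# Module HCI: the circle
-/
set_option autoImplicit false

open Finset

namespace Pool.Agent.SH.HciM

/-! ### Lifting of maps to the circle -/

lemma contractible_Dl (n : ℕ) : ContractibleSpace (Dl n) :=
  Convex.contractibleSpace (convex_stdSimplex ℝ _) ⟨_, (vert n 0).2⟩

/-- Every map from a contractible space to the circle has a logarithm. -/
lemma exists_lift {A : Type} [TopologicalSpace A] [ContractibleSpace A] (σ : C(A, Circle)) :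
    ∃ F : C(A, ℝ), ∀ a, Circle.exp (F a) = σ a := by
  have : Fact (0 < 2 * Real.pi) := ⟨by positivity⟩
  have cov : IsCoveringMap ((↑) : ℝ → AddCircle (2 * Real.pi)) := AddCircle.isCoveringMap_coe _
  obtain ⟨a₀, ⟨Φ⟩⟩ := (contractible_iff_id_nullhomotopic A).1 inferInstance
  let h := AddCircle.homeomorphCircle'
  let H : C(unitInterval × A, AddCircle (2 * Real.pi)) :=
    ⟨fun p => h.symm (σ (Φ.symm p)), by fun_prop⟩
  obtain ⟨r, hr⟩ : ∃ r : ℝ, (r : AddCircle (2 * Real.pi)) = h.symm (σ a₀) :=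
    QuotientAddGroup.mk_surjective _
  have H0 : ∀ a, H (0, a) = ((ContinuousMap.const A r a : ℝ) : AddCircle (2 * Real.pi)) := by
    intro a
    show h.symm (σ (Φ.symm (0, a))) = (r : AddCircle (2 * Real.pi))
    rw [hr, ContinuousMap.Homotopy.apply_zero]
    rfl
  let G := cov.liftHomotopy H (ContinuousMap.const A r) H0
  have hG := cov.liftHomotopy_lifts H (ContinuousMap.const A r) H0
  refine ⟨⟨fun a => G (1, a), by fun_prop⟩, fun a => ?_⟩
  have h1 : ((G (1, a) : ℝ) : AddCircle (2 * Real.pi)) = H (1, a) := congrFun hG (1, a)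
  have h2 : h ((G (1, a) : ℝ) : AddCircle (2 * Real.pi)) = Circle.exp (G (1, a)) := rfl
  show Circle.exp (G (1, a)) = σ a
  rw [← h2, h1]
  show h (h.symm (σ (Φ.symm (1, a)))) = σ a
  rw [Homeomorph.apply_symm_apply, ContinuousMap.Homotopy.apply_one]
  rfl

/-- Two logarithms have the same variation. -/
lemma lift_sub {A : Type} [TopologicalSpace A] [PreconnectedSpace A] {F G : C(A, ℝ)}
    (h : ∀ a, Circle.exp (F a) = Circle.exp (G a)) (a b : A) : F b - F a = G b - G a := by
  have : Fact (0 < 2 * Real.pi) := ⟨by positivity⟩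
  have cov : IsCoveringMap ((↑) : ℝ → AddCircle (2 * Real.pi)) := AddCircle.isCoveringMap_coe _
  have he : ∀ c, ((F c : ℝ) : AddCircle (2 * Real.pi)) = ((G c : ℝ) : AddCircle (2 * Real.pi)) := by
    intro c
    apply AddCircle.homeomorphCircle'.injective
    rw [AddCircle.homeomorphCircle'_apply_mk, AddCircle.homeomorphCircle'_apply_mk]
    exact h c
  have key : (fun c => F c) = fun c => G c + (F a - G a) := by
    refine cov.eq_of_comp_eq F.continuous (G.continuous.add continuous_const) ?_ a ?_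
    · funext c
      simp only [Function.comp_apply]
      rw [AddCircle.coe_add, AddCircle.coe_sub, he a, sub_self, add_zero]
      exact he c
    · ring
  have := congrFun key b
  rw [this]
  ring

/-! ### The winding functional -/

instance (n : ℕ) : ContractibleSpace (Dl n) := contractible_Dl n

/-- A logarithm of a simplex of the circle. -/
noncomputable def lg {n : ℕ} (σ : Smp n Circle) : C(Dl n, ℝ) := (exists_lift σ).choose

lemma exp_lg {n : ℕ} (σ : Smp n Circle) (t : Dl n) : Circle.exp (lg σ t) = σ t :=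
  (exists_lift σ).choose_spec t

/-- The winding of a `1`-simplex. -/
noncomputable def wS (σ : Smp 1 Circle) : ℝ := (lg σ (vert 1 1) - lg σ (vert 1 0)) / (2 * Real.pi)

lemma wS_eq {σ : Smp 1 Circle} (F : C(Dl 1, ℝ)) (h : ∀ t, Circle.exp (F t) = σ t) :
    wS σ = (F (vert 1 1) - F (vert 1 0)) / (2 * Real.pi) := by
  rw [wS, lift_sub (F := lg σ) (G := F) (fun a => by rw [exp_lg, h])]

/-- The winding functional on `1`-chains. -/
noncomputable def wCh : Ch 1 Circle →ₗ[ℚ] ℝ := Finsupp.linearCombination ℚ wS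

@[simp] lemma wCh_single (σ : Smp 1 Circle) (a : ℚ) : wCh (Finsupp.single σ a) = a • wS σ := by
  simp [wCh]

lemma face_vert (k : ℕ) (i : Fin (k + 2)) (j : Fin (k + 1)) :
    face k i (vert k j) = vert (k + 1) (i.succAbove j) := by
  apply Subtype.ext
  show (stdSimplex.map _ (vert k j)).1 = _
  simp [vert, stdSimplex.map]

lemma wS_face (τ : Smp 2 Circle) (i : Fin 3) :
    wS (τ.comp (face 1 i)) =
      (lg τ (vert 2 (i.succAbove 1)) - lg τ (vert 2 (i.succAbove 0))) / (2 * Real.pi) := by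
  rw [wS_eq ((lg τ).comp (face 1 i)) (fun t => exp_lg τ _)]
  simp only [ContinuousMap.comp_apply, face_vert]

lemma wCh_bd (z : Ch 2 Circle) : wCh (bd 1 z) = 0 := by
  induction z using Finsupp.induction_linear with
  | zero => simp
  | add f g hf hg => rw [map_add, map_add, hf, hg, add_zero]
  | single a b =>
    rw [bd_single, map_smul, bdS, Fin.sum_univ_three]
    simp only [map_add, map_smul, wCh_single, wS_face]
    have e1 : ((0 : Fin 3).succAbove (1 : Fin 2)) = 2 := by decide
    have e2 : ((0 : Fin 3).succAbove (0 : Fin 2)) = 1 := by decide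
    have e3 : ((1 : Fin 3).succAbove (1 : Fin 2)) = 2 := by decide
    have e4 : ((1 : Fin 3).succAbove (0 : Fin 2)) = 0 := by decide
    have e5 : ((2 : Fin 3).succAbove (1 : Fin 2)) = 1 := by decide
    have e6 : ((2 : Fin 3).succAbove (0 : Fin 2)) = 0 := by decide
    rw [e1, e2, e3, e4, e5, e6]
    simp only [Fin.val_zero, Fin.val_one, Fin.val_two, pow_zero, pow_one, one_smul, neg_smul]
    norm_num
    rw [← smul_neg, ← smul_add, ← smul_add]
    convert smul_zero b using 2
    ring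

/-- The winding functional on homology. -/
noncomputable def wH : H 1 Circle →ₗ[ℚ] ℝ :=
  Submodule.liftQ _ (wCh.comp (cyc 1 Circle).subtype) (by
    intro z hz
    obtain ⟨w, hw⟩ := hz
    show wCh (z : Ch 1 Circle) = 0
    rw [show ((z : Ch 1 Circle)) = bd 1 w from hw.symm]
    exact wCh_bd w)

lemma wH_cls (z : ↥(cyc 1 Circle)) : wH (cls 1 z) = wCh (z : Ch 1 Circle) := rfl

/-- `exp(2 π i s₁)` composed with a power map. -/
lemma wS_circS (a : ℝ) (σ : Smp 1 Circle)
    (h : ∀ s : Dl 1, σ s = Circle.exp (a * (2 * Real.pi * (s : Fin 2 → ℝ) 1))) : wS σ = a := by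
  have hc : Continuous fun s : Dl 1 => a * (2 * Real.pi * (s : Fin 2 → ℝ) 1) :=
    continuous_const.mul (continuous_const.mul
      ((continuous_apply 1).comp continuous_subtype_val))
  rw [wS_eq ⟨_, hc⟩ (fun t => (h t).symm)]
  simp only [ContinuousMap.coe_mk]
  have h1 : ((vert 1 1 : Dl 1) : Fin 2 → ℝ) 1 = 1 := by simp [vert]
  have h0 : ((vert 1 0 : Dl 1) : Fin 2 → ℝ) 1 = 0 := by simp [vert]
  rw [h1, h0]
  have := Real.pi_pos
  field_simp
  ring

lemma wH_circ : wH circ = 1 := by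
  rw [circ, wH_cls]
  show wCh (Finsupp.single circS (1 : ℚ)) = 1
  rw [wCh_single, one_smul]
  exact wS_circS 1 circS (fun s => by rw [one_mul]; rfl)

lemma circ_ne : circ ≠ 0 := by
  intro h
  have := wH_circ
  rw [h, map_zero] at this
  exact zero_ne_one this

/-- The inversion of the circle. -/
noncomputable def cinv : C(Circle, Circle) := ⟨fun s => s⁻¹, continuous_inv⟩

lemma wH_inv : wH (Hmap 1 cinv circ) = -1 := by
  rw [circ, Hmap_cls, wH_cls]
  show wCh (push 1 cinv (Finsupp.single circS (1 : ℚ))) = -1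
  rw [push_single, wCh_single, one_smul]
  refine wS_circS (-1) _ (fun s => ?_)
  show (Circle.exp (2 * Real.pi * (s : Fin 2 → ℝ) 1))⁻¹ = _
  rw [← Circle.exp_neg]
  congr 1
  ring

/-! ### Arcs are contractible -/

/-- The part of the circle in a subset of the plane. -/
abbrev arcs (A : Set ℂ) : Set Circle := {z | (z : ℂ) ∈ A}

/-- The part of the circle in a star-shaped cone is contractible. -/
lemma contractible_arc {A : Set ℂ} {c : ℂ} (hs : StarConvex ℝ c A) (hc : c ∈ A) (h0 : (0 : ℂ) ∉ A)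
    (hcone : ∀ t : ℝ, 0 < t → ∀ z ∈ A, (t : ℂ) * z ∈ A) :
    ContractibleSpace ↥(arcs A) := by
  have hA : ContractibleSpace A := hs.contractibleSpace ⟨c, hc⟩
  rw [contractible_iff_id_nullhomotopic] at hA ⊢
  have hc1 : Continuous fun z : ↥(arcs A) => ((z : Circle) : ℂ) := by fun_prop
  let i : C(↥(arcs A), A) := ⟨fun z => ⟨((z : Circle) : ℂ), z.2⟩, hc1.subtype_mk _⟩
  have hne : ∀ w : A, (w : ℂ) ≠ 0 := fun w h => h0 (h ▸ w.2)
  have hno : ∀ w : A, ‖(w : ℂ)‖ ≠ 0 := fun w => norm_ne_zero_iff.2 (hne w)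
  have hsp : ∀ w : A, (((‖(w : ℂ)‖⁻¹ : ℝ) : ℂ) * (w : ℂ)) ∈ Submonoid.unitSphere ℂ := by
    intro w
    refine mem_sphere_zero_iff_norm.2 ?_
    rw [norm_mul, Complex.norm_real, norm_inv, norm_norm]
    exact inv_mul_cancel₀ (hno w)
  let r : C(A, ↥(arcs A)) :=
    ⟨fun w => ⟨⟨((‖(w : ℂ)‖⁻¹ : ℝ) : ℂ) * (w : ℂ), hsp w⟩,
      hcone _ (inv_pos.2 (norm_pos_iff.2 (hne w))) _ w.2⟩, by
      refine Continuous.subtype_mk (Continuous.subtype_mk ?_ _) _
      exact (Complex.continuous_ofReal.comp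
        (continuous_subtype_val.norm.inv₀ hno)).mul continuous_subtype_val⟩
  have h1 := (hA.comp_right r).comp_left i
  convert h1 using 1
  ext z
  show ((z : Circle) : ℂ) = ((‖((z : Circle) : ℂ)‖⁻¹ : ℝ) : ℂ) * ((z : Circle) : ℂ)
  rw [Circle.norm_coe]
  simp

/-- The circle minus `-1`. -/
def cU : Set Circle := {z | (z : ℂ) ∈ Complex.slitPlane}
/-- The circle minus `1`. -/
def cV : Set Circle := {z | (z : ℂ) ∈ -Complex.slitPlane}
/-- The upper half circle. -/
def cP : Set Circle := {z | (z : ℂ) ∈ {w : ℂ | 0 < w.im}}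
/-- The lower half circle. -/
def cN : Set Circle := {z | (z : ℂ) ∈ {w : ℂ | w.im < 0}}

lemma cone_slit (t : ℝ) (ht : 0 < t) (z : ℂ) (hz : z ∈ Complex.slitPlane) :
    (t : ℂ) * z ∈ Complex.slitPlane := by
  rw [Complex.mem_slitPlane_iff] at hz ⊢
  rw [Complex.re_ofReal_mul, Complex.im_ofReal_mul]
  rcases hz with h | h
  · exact Or.inl (mul_pos ht h)
  · exact Or.inr (mul_ne_zero ht.ne' h)

lemma contr_cU : ContractibleSpace ↥cU :=
  contractible_arc Complex.starConvex_one_slitPlane Complex.one_mem_slitPlane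
    (by simp) cone_slit

lemma contr_cV : ContractibleSpace ↥cV := by
  refine contractible_arc (c := -1) (Complex.starConvex_one_slitPlane.neg) ?_ (by simp) ?_
  · simp
  · intro t ht z hz
    rw [Set.mem_neg] at hz ⊢
    rw [← mul_neg]
    exact cone_slit t ht _ hz

lemma convex_im_pos : Convex ℝ {w : ℂ | 0 < w.im} :=
  convex_halfSpace_im_gt 0

lemma convex_im_neg : Convex ℝ {w : ℂ | w.im < 0} :=
  convex_halfSpace_im_lt 0

lemma contr_cP : ContractibleSpace ↥cP := by
  refine contractible_arc (c := Complex.I) (convex_im_pos.starConvex (by simp)) (by simp)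
    (by simp) ?_
  intro t ht z hz
  show 0 < ((t : ℂ) * z).im
  rw [Complex.im_ofReal_mul]
  exact mul_pos ht hz

lemma contr_cN : ContractibleSpace ↥cN := by
  refine contractible_arc (c := -Complex.I) (convex_im_neg.starConvex (by simp)) (by simp)
    (by simp) ?_
  intro t ht z hz
  show ((t : ℂ) * z).im < 0
  rw [Complex.im_ofReal_mul]
  exact mul_neg_of_pos_of_neg ht hz

lemma open_cU : IsOpen cU := Complex.isOpen_slitPlane.preimage continuous_subtype_val
lemma open_cV : IsOpen cV := (Complex.isOpen_slitPlane.neg).preimage continuous_subtype_val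
lemma open_cP : IsOpen cP :=
  (isOpen_lt continuous_const Complex.continuous_im).preimage continuous_subtype_val
lemma open_cN : IsOpen cN :=
  (isOpen_lt Complex.continuous_im continuous_const).preimage continuous_subtype_val

lemma cU_union_cV : cU ∪ cV = Set.univ := by
  ext z
  simp only [Set.mem_union, Set.mem_univ, iff_true]
  show (z : ℂ) ∈ Complex.slitPlane ∨ (z : ℂ) ∈ -Complex.slitPlane
  rw [Set.mem_neg, Complex.mem_slitPlane_iff, Complex.mem_slitPlane_iff]
  by_cases h : (z : ℂ).im = 0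
  · have hne := z.coe_ne_zero
    have h2 : (z : ℂ).re ≠ 0 := fun h3 => hne (Complex.ext h3 h)
    rcases lt_or_gt_of_ne h2 with h4 | h4
    · right; left
      simpa using h4
    · left; left; exact h4
  · left; right; exact h

lemma cU_inter_cV : cU ∩ cV = cP ∪ cN := by
  ext z
  show ((z : ℂ) ∈ Complex.slitPlane ∧ (z : ℂ) ∈ -Complex.slitPlane) ↔
    (0 < (z : ℂ).im ∨ (z : ℂ).im < 0)
  rw [Set.mem_neg, Complex.mem_slitPlane_iff, Complex.mem_slitPlane_iff]
  rw [Complex.neg_re, Complex.neg_im]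
  constructor
  · rintro ⟨h1, h2⟩
    by_contra h
    push Not at h
    have h3 : (z : ℂ).im = 0 := le_antisymm h.1 h.2
    rw [h3] at h1 h2
    simp at h1 h2
    linarith
  · intro h
    have h3 : (z : ℂ).im ≠ 0 := by
      rcases h with h | h
      · exact h.ne'
      · exact h.ne
    exact ⟨Or.inr h3, Or.inr (neg_ne_zero.2 h3)⟩

/-! ### Disjoint unions of two open contractible pieces -/

/-- A space which is the disjoint union of two open contractible subspaces. -/
structure TwoPieces (X : Type) [TopologicalSpace X] (P N : Set X) : Prop where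
  oP : IsOpen P
  oN : IsOpen N
  un : P ∪ N = Set.univ
  disj : P ∩ N = ∅
  cP : ContractibleSpace ↥P
  cN : ContractibleSpace ↥N

lemma TwoPieces.sub {X : Type} [TopologicalSpace X] {P N : Set X} (h : TwoPieces X P N)
    (hMV : SpecMV) (hH : SpecHtpy) (k : ℕ) : Subsingleton (H (k + 1) X) := by
  have := h.cP
  have := h.cN
  obtain ⟨δ, -, h2, -, -⟩ := hMV X P N h.oP h.oN h.un
  have : Subsingleton (H (k + 1) ↥P) := hH.2.2.1 _ k
  have : Subsingleton (H (k + 1) ↥N) := hH.2.2.1 _ k
  have : IsEmpty ↥(P ∩ N) := by rw [h.disj]; infer_instance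
  have : Subsingleton (H k ↥(P ∩ N)) := hH.2.2.2 _ k
  refine ⟨fun x y => ?_⟩
  have hx : ∀ x : H (k + 1) X, x = 0 := by
    intro x
    obtain ⟨w, hw⟩ := (h2 k x).1 (Subsingleton.elim _ _)
    rw [← hw, show w = 0 from Subsingleton.elim _ _, map_zero]
  rw [hx x, hx y]

open HzeM in
lemma TwoPieces.zero {X : Type} [TopologicalSpace X] {P N : Set X} (h : TwoPieces X P N)
    (hMV : SpecMV) : ∃ g : H 0 X, ∀ x : H 0 X, eps X x = 0 → ∃ a : ℚ, x = a • g := by
  have := h.cP
  have := h.cN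
  obtain ⟨δ, -, -, -, h4⟩ := hMV X P N h.oP h.oN h.un
  obtain ⟨a0, ha0⟩ := (eps_bijective (X := ↥P)).2 1
  obtain ⟨b0, hb0⟩ := (eps_bijective (X := ↥N)).2 1
  refine ⟨mvSum 0 P N (a0, -b0), fun x hx => ?_⟩
  obtain ⟨⟨a, b⟩, rfl⟩ := h4 x
  have ha : a = (eps _ a) • a0 := by
    apply (eps_bijective (X := ↥P)).1
    rw [map_smul, ha0, smul_eq_mul, mul_one]
  have hb : b = (eps _ b) • b0 := by
    apply (eps_bijective (X := ↥N)).1
    rw [map_smul, hb0, smul_eq_mul, mul_one]
  have hs : eps _ a + eps _ b = 0 := by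
    have : eps X (mvSum 0 P N (a, b)) = eps _ a + eps _ b := by
      simp only [mvSum, LinearMap.coprod_apply, map_add, eps_Hmap]
    rw [← this]
    exact hx
  refine ⟨eps _ a, ?_⟩
  rw [← map_smul]
  congr 1
  refine Prod.ext ha ?_
  show b = eps _ a • (-b0)
  rw [smul_neg, ← neg_smul]
  have : eps _ b = - eps _ a := by linarith
  rw [← this]
  exact hb

/-- Pull back of a contractible subset. -/
lemma contr_pre {X : Type} [TopologicalSpace X] {A B : Set X} (h : B ⊆ A)
    [hB : ContractibleSpace ↥B] : ContractibleSpace ↥{x : ↥A | (x : X) ∈ B} := by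
  let e : ↥{x : ↥A | (x : X) ∈ B} ≃ₜ ↥B :=
    { toFun := fun x => ⟨x.1.1, x.2⟩
      invFun := fun x => ⟨⟨x.1, h x.2⟩, x.2⟩
      left_inv := fun x => rfl
      right_inv := fun x => rfl
      continuous_toFun :=
        Continuous.subtype_mk (continuous_subtype_val.comp continuous_subtype_val) _
      continuous_invFun :=
        Continuous.subtype_mk (Continuous.subtype_mk continuous_subtype_val _) _ }
  exact e.contractibleSpace

lemma two_arcs : TwoPieces ↥(cU ∩ cV) {x | (x : Circle) ∈ cP} {x | (x : Circle) ∈ cN} := by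
  have := contr_cP
  have := contr_cN
  refine ⟨open_cP.preimage continuous_subtype_val, open_cN.preimage continuous_subtype_val,
    ?_, ?_, ?_, ?_⟩
  · ext x
    simp only [Set.mem_union, Set.mem_univ, iff_true]
    exact (Set.ext_iff.1 cU_inter_cV (x : Circle)).1 x.2
  · ext x
    simp only [Set.mem_inter_iff, Set.mem_empty_iff_false, iff_false]
    rintro ⟨h1, h2⟩
    have h1' : 0 < ((x : Circle) : ℂ).im := h1
    have h2' : ((x : Circle) : ℂ).im < 0 := h2
    exact absurd h1' (not_lt.2 h2'.le)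
  · exact contr_pre (by rw [cU_inter_cV]; exact Set.subset_union_left)
  · exact contr_pre (by rw [cU_inter_cV]; exact Set.subset_union_right)

end Pool.Agent.SH.HciM

namespace Pool.Agent.SH

open HciM HzeM

theorem specCirc (hMV : SpecMV) (hH : SpecHtpy) : SpecCirc := by
  have := contr_cU
  have := contr_cV
  obtain ⟨δ, -, h2, h3, -⟩ := hMV Circle cU cV open_cU open_cV cU_union_cV
  have hsub : ∀ k, Subsingleton (H (k + 1) ↥cU × H (k + 1) ↥cV) := by
    intro k
    have : Subsingleton (H (k + 1) ↥cU) := hH.2.2.1 _ k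
    have : Subsingleton (H (k + 1) ↥cV) := hH.2.2.1 _ k
    infer_instance
  have hinj : ∀ k (x : H (k + 1) Circle), δ k x = 0 → x = 0 := by
    intro k x hx
    have := hsub k
    obtain ⟨w, hw⟩ := (h2 k x).1 hx
    rw [← hw, show w = 0 from Subsingleton.elim _ _, map_zero]
  have hgen : ∀ x : H 1 Circle, ∃ a : ℚ, x = a • circ := by
    obtain ⟨g, hg⟩ := two_arcs.zero hMV
    have hδ : ∀ x : H 1 Circle, ∃ a : ℚ, δ 0 x = a • g := by
      intro x
      apply hg
      have h5 : mvDiff 0 cU cV (δ 0 x) = 0 := (h3 0 (δ 0 x)).2 ⟨x, rfl⟩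
      have h6 : Hmap 0 (inc Set.inter_subset_left) (δ 0 x) = (0 : H 0 ↥cU) :=
        congrArg Prod.fst h5
      rw [← eps_Hmap (inc (Set.inter_subset_left : cU ∩ cV ⊆ cU)), h6, map_zero]
    obtain ⟨t, ht⟩ := hδ circ
    have ht0 : t ≠ 0 := by
      rintro rfl
      rw [zero_smul] at ht
      exact circ_ne (hinj 0 _ ht)
    intro x
    obtain ⟨s, hs⟩ := hδ x
    refine ⟨s / t, ?_⟩
    have : δ 0 (x - (s / t) • circ) = 0 := by
      rw [map_sub, map_smul, hs, ht, smul_smul, div_mul_cancel₀ _ ht0, sub_self]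
    exact sub_eq_zero.1 (hinj 0 _ this)
  refine ⟨?_, hgen, circ_ne, ?_⟩
  · intro k
    have : Subsingleton (H (k + 1) ↥(cU ∩ cV)) := two_arcs.sub hMV hH k
    refine ⟨fun x y => ?_⟩
    rw [hinj (k + 1) x (Subsingleton.elim _ _), hinj (k + 1) y (Subsingleton.elim _ _)]
  · obtain ⟨a, ha⟩ := hgen (Hmap 1 cinv circ)
    have h7 := wH_inv
    rw [ha, map_smul, wH_circ] at h7
    have h8 : (a : ℝ) = -1 := by
      rw [← h7]
      exact (Rat.smul_one_eq_cast ..).symm
    have h9 : a = -1 := by exact_mod_cast h8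
    show Hmap 1 cinv circ = -circ
    rw [ha, h9, neg_one_smul]

end Pool.Agent.SH
end

section
/-! # The mesh of iterated subdivisions (module HDI) -/
set_option autoImplicit false

namespace Pool.Agent.SH.HDI

open HLC HRE HSD

theorem sup_of_single {α M : Type} [AddCommGroup M] [Module ℚ M] (L : (α →₀ ℚ) →ₗ[ℚ] M)
    (S : Set α) (N : Submodule ℚ M) (h : ∀ v ∈ S, L (Finsupp.single v 1) ∈ N) (c : α →₀ ℚ)
    (hc : c ∈ Finsupp.supported ℚ ℚ S) : L c ∈ N := by
  rw [Finsupp.supported_eq_span_single] at hc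
  induction hc using Submodule.span_induction with
  | mem x hx =>
    obtain ⟨v, hv, rfl⟩ := hx
    exact h v hv
  | zero => rw [map_zero]; exact N.zero_mem
  | add x y _ _ hx hy => rw [map_add]; exact N.add_mem hx hy
  | smul a x _ hx => rw [map_smul]; exact N.smul_mem a hx

theorem single_mem {α : Type} {S : Set α} {v : α} (hv : v ∈ S) (a : ℚ) :
    (Finsupp.single v a : α →₀ ℚ) ∈ Finsupp.supported ℚ ℚ S :=
  Finsupp.single_mem_supported ℚ a hv

theorem supp_mono {α : Type} {S T : Set α} (h : S ⊆ T) {c : α →₀ ℚ}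
    (hc : c ∈ Finsupp.supported ℚ ℚ S) : c ∈ Finsupp.supported ℚ ℚ T :=
  Finsupp.supported_mono h hc

variable {n : ℕ}

theorem bary_dist {k : ℕ} (v : Fin (k + 1) → Dl n) (r : ℝ)
    (h : ∀ i j, dist (v i) (v j) ≤ r) (i : Fin (k + 1)) :
    dist (bary (convex_Dl n) k v) (v i) ≤ ((k : ℝ) / (k + 1)) * r := by
  have hr : 0 ≤ r := dist_nonneg.trans (h i i)
  rw [Subtype.dist_eq, dist_eq_norm]
  have h1 : (bary (convex_Dl n) k v).1 - (v i).1 =
      ∑ j, ((k + 1 : ℝ)⁻¹) • ((v j).1 - (v i).1) := by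
    show (∑ j, ((k + 1 : ℝ)⁻¹) • (v j).1) - _ = _
    simp only [smul_sub, Finset.sum_sub_distrib]
    congr 1
    rw [← Finset.sum_smul, Finset.sum_const, Finset.card_univ, Fintype.card_fin, nsmul_eq_mul]
    push_cast
    rw [mul_inv_cancel₀ (by positivity), one_smul]
  rw [h1, ← Finset.sum_erase_add _ _ (Finset.mem_univ i), sub_self, smul_zero, add_zero]
  calc ‖∑ j ∈ Finset.univ.erase i, ((k + 1 : ℝ)⁻¹) • ((v j).1 - (v i).1)‖
      ≤ ∑ j ∈ Finset.univ.erase i, ‖((k + 1 : ℝ)⁻¹) • ((v j).1 - (v i).1)‖ := norm_sum_le _ _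
    _ ≤ ∑ j ∈ Finset.univ.erase i, ((k + 1 : ℝ)⁻¹) * r := by
        apply Finset.sum_le_sum
        intro j _
        rw [norm_smul, Real.norm_of_nonneg (by positivity : (0 : ℝ) ≤ (k + 1 : ℝ)⁻¹)]
        refine mul_le_mul_of_nonneg_left ?_ (by positivity)
        have := h j i
        rwa [Subtype.dist_eq, dist_eq_norm] at this
    _ = ((k : ℝ) / (k + 1)) * r := by
        rw [Finset.sum_const, Finset.card_erase_of_mem (Finset.mem_univ i), Finset.card_univ,
          Fintype.card_fin, nsmul_eq_mul, Nat.add_sub_cancel, div_eq_mul_inv, mul_assoc]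

/-- tuples in the hull of `v` and of mesh at most `r` -/
def Tup {k : ℕ} (j : ℕ) (v : Fin (k + 1) → Dl n) (r : ℝ) : Set (Fin (j + 1) → Dl n) :=
  {w | (∀ i, w i ∈ Set.range (aff (convex_Dl n) k v)) ∧ ∀ i i', dist (w i) (w i') ≤ r}

theorem Sd_mesh (k : ℕ) (v : Fin (k + 1) → Dl n) (r : ℝ) (h : ∀ i j, dist (v i) (v j) ≤ r)
    (a : ℚ) : Sd (bary (convex_Dl n)) k (Finsupp.single v a) ∈
      Finsupp.supported ℚ ℚ (Tup k v (((k : ℝ) / (k + 1)) * r)) := by
  have hr : 0 ≤ r := dist_nonneg.trans (h 0 0)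
  induction k with
  | zero =>
    rw [Sd_zero]
    apply single_mem
    refine ⟨fun i => ⟨vert 0 i, aff_vert _ _ _ _⟩, fun i i' => ?_⟩
    rw [Fin.fin_one_eq_zero i, Fin.fin_one_eq_zero i', dist_self]
    positivity
  | succ k ih =>
    rw [Sd_succ]
    have hle : ((k : ℝ) / (k + 1)) * r ≤ (((k + 1 : ℕ) : ℝ) / ((k + 1 : ℕ) + 1)) * r := by
      apply mul_le_mul_of_nonneg_right _ hr
      rw [div_le_div_iff₀ (by positivity) (by positivity)]
      push_cast
      nlinarith
    apply sup_of_single (cone k (bary (convex_Dl n) (k + 1) v))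
      (Tup k v (((k : ℝ) / (k + 1)) * r))
    · intro w hw
      rw [cone_single]
      apply single_mem
      have hb : ∀ x ∈ Set.range (aff (convex_Dl n) (k + 1) v),
          dist (bary (convex_Dl n) (k + 1) v) x ≤ (((k + 1 : ℕ) : ℝ) / ((k + 1 : ℕ) + 1)) * r := by
        rintro _ ⟨t, rfl⟩
        rw [dist_comm]
        refine aff_dist_le _ _ _ _ _ (fun i => ?_) t
        rw [dist_comm]
        exact bary_dist v r h i
      refine ⟨fun i => ?_, fun i j => ?_⟩
      · refine Fin.cases ?_ (fun j => ?_) i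
        · exact ⟨ctr (k + 1), rfl⟩
        · rw [Fin.cons_succ]
          exact hw.1 j
      · refine Fin.cases ?_ (fun i' => ?_) i
        · refine Fin.cases ?_ (fun j' => ?_) j
          · rw [dist_self]
            positivity
          · rw [Fin.cons_succ, Fin.cons_zero]
            exact hb _ (hw.1 j')
        · refine Fin.cases ?_ (fun j' => ?_) j
          · rw [Fin.cons_succ, Fin.cons_zero, dist_comm]
            exact hb _ (hw.1 i')
          · rw [Fin.cons_succ, Fin.cons_succ]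
            exact (hw.2 i' j').trans hle
    · rw [lbd_single', map_sum]
      apply Submodule.sum_mem
      intro i _
      rw [map_smul]
      apply Submodule.smul_mem
      have h1 := ih (v ∘ Fin.succAbove i) (fun a b => h _ _)
      refine supp_mono ?_ h1
      rintro w ⟨hw1, hw2⟩
      refine ⟨fun j => ?_, hw2⟩
      obtain ⟨t, ht⟩ := hw1 j
      refine ⟨face k i t, ?_⟩
      rw [← ht]
      exact congrArg (fun g => g t) (aff_comp_face (convex_Dl n) k v i)

theorem Sd_iter_mesh (k m : ℕ) (v : Fin (k + 1) → Dl n) (r : ℝ)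
    (h : ∀ i j, dist (v i) (v j) ≤ r) (a : ℚ) :
    ((Sd (bary (convex_Dl n)) k) ^ m) (Finsupp.single v a) ∈
      Finsupp.supported ℚ ℚ
        {w : Fin (k + 1) → Dl n | ∀ i j, dist (w i) (w j) ≤ ((k : ℝ) / (k + 1)) ^ m * r} := by
  induction m with
  | zero =>
    have h0 : ((k : ℝ) / (k + 1)) ^ 0 * r = r := by rw [pow_zero, one_mul]
    rw [h0]
    exact single_mem (S := {w : Fin (k + 1) → Dl n | ∀ i j, dist (w i) (w j) ≤ r}) h a
  | succ m ih =>
    rw [pow_succ' (Sd (bary (convex_Dl n)) k) m, Module.End.mul_apply]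
    refine sup_of_single (Sd (bary (convex_Dl n)) k) _ _ ?_ _ ih
    intro w hw
    have h1 := Sd_mesh k w _ hw 1
    refine supp_mono ?_ h1
    rintro u ⟨-, hu⟩ i j
    refine (hu i j).trans (le_of_eq ?_)
    rw [pow_succ']
    ring

end Pool.Agent.SH.HDI

namespace Pool.Agent.SH

open HDI in
theorem specDiam (_h : SpecReal) : SpecDiam := by
  intro n k m v R h w hw
  have h1 := Sd_iter_mesh k m v R h 1
  rw [Finsupp.mem_supported] at h1
  exact h1 hw

end Pool.Agent.SH
end

section
/-!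
# Removing a finite family of tubed curves
-/
set_option autoImplicit false
set_option linter.unusedSectionVars false

namespace Pool.Agent.SH

namespace HFAM

variable {V T : Type} [TopologicalSpace V] [TopologicalSpace T]

lemma step [ContractibleSpace T] (h1 : SpecGYS) {A B C : Set V} {φ : T × ℂ → V}
    (hB : B = A \ C) (hBo : IsOpen B) (hA : IsOpen A) (hT : Tube A C φ) (hBA : B ⊆ A) (z : T)
    (hφ : Continuous φ) (hz : ∀ s : Circle, φ (z, (s : ℂ)) ∈ B) :
    (∀ k : ℕ, Function.Bijective (Hmap (k + 3) (inc hBA))) ∧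
    Function.Injective (Hmap 2 (inc hBA)) ∧
    Function.Surjective (Hmap 1 (inc hBA)) ∧
    LinearMap.ker (Hmap 1 (inc hBA)) = Submodule.span ℚ {loop (merid B φ hφ z hz)} ∧
    ∃ ι : H 2 ↥A →ₗ[ℚ] ℚ,
      LinearMap.ker ι = LinearMap.range (Hmap 2 (inc hBA)) ∧
      ∀ a : ℚ, a ∈ LinearMap.range ι ↔ a • loop (merid B φ hφ z hz) = 0 := by
  subst hB
  exact h1 V T A C φ hBo hA hT z hz

lemma subsingleton_of_surj {M N : Type*} {f : M → N} (hf : Function.Surjective f)
    [Subsingleton M] : Subsingleton N := hf.subsingleton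

lemma dim_step {M N : Type} [AddCommGroup M] [Module ℚ M] [AddCommGroup N] [Module ℚ N]
    (f : M →ₗ[ℚ] N) (hf : Function.Injective f) (ι : N →ₗ[ℚ] ℚ)
    (hk : LinearMap.ker ι = LinearMap.range f) (hι : Function.Surjective ι) :
    (Module.Finite ℚ N ↔ Module.Finite ℚ M) ∧
    (Module.Finite ℚ N → Module.finrank ℚ N = Module.finrank ℚ M + 1) := by
  have hiff : Module.Finite ℚ N ↔ Module.Finite ℚ M := by
    constructor
    · intro hN
      exact Module.Finite.of_injective f hf
    · intro hM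
      have h1 : Module.Finite ℚ (LinearMap.ker ι) := by
        rw [hk]
        exact Module.Finite.range f
      have h2 : Module.Finite ℚ (N ⧸ LinearMap.ker ι) :=
        Module.Finite.equiv (ι.quotKerEquivOfSurjective hι).symm
      exact Module.Finite.of_submodule_quotient (LinearMap.ker ι)
  refine ⟨hiff, fun hN => ?_⟩
  have h1 := LinearMap.finrank_range_add_finrank_ker ι
  have h2 : LinearMap.range ι = ⊤ := LinearMap.range_eq_top.mpr hι
  rw [h2, finrank_top, hk, LinearMap.finrank_range_of_inj hf, Module.finrank_self] at h1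
  omega

/-- The complement of the first `m` curves. -/
def S {n : ℕ} (A : Set V) (C : Fin n → Set V) (m : ℕ) : Set V :=
  {x | x ∈ A ∧ ∀ i : Fin n, (i : ℕ) < m → x ∉ C i}

lemma S_zero {n : ℕ} (A : Set V) (C : Fin n → Set V) : S A C 0 = A := by
  ext x; simp [S]

lemma S_last {n : ℕ} (A : Set V) (C : Fin n → Set V) : S A C n = A \ ⋃ i, C i := by
  ext x; simp [S]

lemma S_succ {n : ℕ} (A : Set V) (C : Fin n → Set V) {m : ℕ} (hm : m < n) :
    S A C (m + 1) = S A C m \ C ⟨m, hm⟩ := by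
  ext x
  simp only [S, Set.mem_ofPred_eq, Set.mem_sdiff]
  constructor
  · rintro ⟨h1, h2⟩
    exact ⟨⟨h1, fun i hi => h2 i (by omega)⟩, h2 ⟨m, hm⟩ (by simp)⟩
  · rintro ⟨⟨h1, h2⟩, h3⟩
    refine ⟨h1, fun i hi => ?_⟩
    rcases Nat.lt_succ_iff_lt_or_eq.mp hi with h | h
    · exact h2 i h
    · have : i = ⟨m, hm⟩ := Fin.ext h
      rw [this]; exact h3

lemma S_anti {n : ℕ} (A : Set V) (C : Fin n → Set V) {m m' : ℕ} (h : m ≤ m') :
    S A C m' ⊆ S A C m := by
  intro x hx
  exact ⟨hx.1, fun i hi => hx.2 i (by omega)⟩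

lemma S_open {n : ℕ} {A : Set V} {C : Fin n → Set V} {φ : Fin n → T × ℂ → V}
    (h : Tubes n A C φ) (m : ℕ) (hm : m ≤ n) : IsOpen (S A C m) := by
  induction m with
  | zero => rw [S_zero]; exact h.isOpen
  | succ m ih =>
    have h1 : S A C (m + 1) = S A C m ∩ (A \ C ⟨m, hm⟩) := by
      rw [S_succ A C (by omega : m < n)]
      ext x
      constructor
      · rintro ⟨h1, h2⟩
        exact ⟨h1, h1.1, h2⟩
      · rintro ⟨h1, h2, h3⟩
        exact ⟨h1, h3⟩
    rw [h1]
    exact (ih (by omega)).inter (h.closed _)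

lemma S_tube {n : ℕ} {A : Set V} {C : Fin n → Set V} {φ : Fin n → T × ℂ → V}
    (h : Tubes n A C φ) (m : ℕ) (hm : m < n) : Tube (S A C m) (C ⟨m, hm⟩) (φ ⟨m, hm⟩) where
  emb := (h.tube _).emb
  sub := by
    intro x hx
    refine ⟨(h.tube _).sub hx, fun i hi hxi => ?_⟩
    have hne : (⟨m, hm⟩ : Fin n) ≠ i := by
      intro h0
      rw [← h0] at hi
      simp at hi
    exact Set.disjoint_left.mp (h.disj _ i hne) hx hxi
  cov := (h.tube _).cov
  mem := (h.tube _).mem

lemma merid_mem {n : ℕ} {A : Set V} {C : Fin n → Set V} {φ : Fin n → T × ℂ → V}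
    (h : Tubes n A C φ) (j : Fin n) (z : T) (s : Circle) (m : ℕ) :
    φ j (z, (s : ℂ)) ∈ S A C m := by
  refine ⟨(h.tube j).sub ⟨_, rfl⟩, fun i _ hi => ?_⟩
  by_cases hij : j = i
  · subst hij
    have := ((h.tube j).mem (z, (s : ℂ))).mp hi
    exact s.coe_ne_zero this
  · exact Set.disjoint_left.mp (h.disj j i hij) ⟨_, rfl⟩ hi

lemma Hmap_inc_loop {A B : Set V} (hBA : B ⊆ A) (φ : T × ℂ → V) (hφ : Continuous φ) (z : T)
    (hB : ∀ s : Circle, φ (z, (s : ℂ)) ∈ B) (hA : ∀ s : Circle, φ (z, (s : ℂ)) ∈ A) :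
    Hmap 1 (inc hBA) (loop (merid B φ hφ z hB)) = loop (merid A φ hφ z hA) := by
  rw [loop, loop, ← Hmap_comp]
  rfl

lemma subsing_of_eq {A B : Set V} (h : A = B) (k : ℕ) (hA : Subsingleton (H k ↥A)) :
    Subsingleton (H k ↥B) := by
  subst h; exact hA

end HFAM

open HFAM in
theorem specFam (h1 : SpecGYS) : SpecFam := by
  intro V T _ _ _ n A C φ hT
  have hsl := S_last A C
  have hs0 := S_zero A C
  -- nonempty
  obtain ⟨z0⟩ : Nonempty T := inferInstance
  have key := fun (m : ℕ) (hm : m < n) (z : T) (hφ : Continuous (φ ⟨m, hm⟩)) =>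
    step h1 (S_succ A C hm) (S_open hT (m + 1) hm) (S_open hT m hm.le) (S_tube hT m hm)
      (S_anti A C (Nat.le_succ m)) z hφ (fun s => merid_mem hT ⟨m, hm⟩ z s (m + 1))
  have hc : ∀ j, Continuous (φ j) := fun j => (hT.tube j).emb.continuous
  -- bijectivity in high degrees
  have hbij : ∀ k m : ℕ, m ≤ n → (Subsingleton (H (k + 3) ↥(S A C m)) ↔
      Subsingleton (H (k + 3) ↥A)) := by
    intro k m
    induction m with
    | zero => intro _; rw [hs0]
    | succ m ih =>
      intro hm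
      rw [← ih (by omega)]
      have := (key m hm z0 (hc _)).1 k
      exact (Equiv.ofBijective _ this).subsingleton_congr
  -- surjectivity in degree one
  have hsurj : ∀ m : ℕ, m ≤ n → Subsingleton (H 1 ↥(S A C n)) →
      Subsingleton (H 1 ↥(S A C (n - m))) := by
    intro m
    induction m with
    | zero => intro _ h; exact h
    | succ m ih =>
      intro hm h
      have h2 := ih (by omega) h
      have h3 : n - m = (n - (m + 1)) + 1 := by omega
      rw [h3] at h2
      exact (key (n - (m + 1)) (by omega) z0 (hc _)).2.2.1.subsingleton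
  have hsurj' : Subsingleton (H 1 ↥(S A C n)) → ∀ m : ℕ, m ≤ n →
      Subsingleton (H 1 ↥(S A C m)) := by
    intro h m hm
    have := hsurj (n - m) (by omega) h
    rwa [show n - (n - m) = m by omega] at this
  -- dimension count
  have hdim : Subsingleton (H 1 ↥(S A C n)) → ∀ m : ℕ, m ≤ n →
      (Module.Finite ℚ (H 2 ↥A) ↔ Module.Finite ℚ (H 2 ↥(S A C m))) ∧
      (Module.Finite ℚ (H 2 ↥A) →
        Module.finrank ℚ (H 2 ↥A) = Module.finrank ℚ (H 2 ↥(S A C m)) + m) := by
    intro h m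
    induction m with
    | zero => intro _; rw [hs0]; exact ⟨Iff.rfl, fun _ => rfl⟩
    | succ m ih =>
      intro hm
      obtain ⟨i1, i2⟩ := ih (by omega)
      obtain ⟨-, k2, -, -, ι, k4, k5⟩ := key m hm z0 (hc _)
      have hs : Subsingleton (H 1 ↥(S A C (m + 1))) := hsurj' h (m + 1) hm
      have hι : Function.Surjective ι := by
        intro a
        exact (k5 a).mpr (Subsingleton.elim _ _)
      obtain ⟨d1, d2⟩ := dim_step _ k2 ι k4 hι
      refine ⟨i1.trans d1, fun hf => ?_⟩
      rw [i2 hf, d2 (i1.mp hf)]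
      ring
  -- span of the meridians
  have hspan : ∀ z : T, Subsingleton (H 1 ↥A) → ∀ m : ℕ, m ≤ n →
      Submodule.span ℚ ((fun j : Fin n => loop (merid (S A C m) (φ j) (hc j) z
        (fun s => merid_mem hT j z s m))) '' {j | (j : ℕ) < m}) = ⊤ := by
    intro z h m
    induction m with
    | zero =>
      intro _
      have hs : Subsingleton (H 1 ↥(S A C 0)) := by rw [hs0]; exact h
      exact Subsingleton.elim _ _
    | succ m ih =>
      intro hm
      have ih' := ih (by omega)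
      obtain ⟨-, -, -, k4, -⟩ := key m hm z (hc _)
      rw [eq_top_iff]
      intro x _
      have hx : Hmap 1 (inc (S_anti A C (Nat.le_succ m))) x ∈ Submodule.span ℚ
          ((fun j : Fin n => loop (merid (S A C m) (φ j) (hc j) z
            (fun s => merid_mem hT j z s m))) '' {j | (j : ℕ) < m}) := by
        rw [ih']; exact Submodule.mem_top
      have himg : (fun j : Fin n => loop (merid (S A C m) (φ j) (hc j) z
            (fun s => merid_mem hT j z s m))) '' {j | (j : ℕ) < m} =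
          (Hmap 1 (inc (S_anti A C (Nat.le_succ m)))) ''
            ((fun j : Fin n => loop (merid (S A C (m + 1)) (φ j) (hc j) z
              (fun s => merid_mem hT j z s (m + 1)))) '' {j | (j : ℕ) < m}) := by
        rw [Set.image_image]
        refine Set.image_congr fun j _ => ?_
        rw [Hmap_inc_loop]
      rw [himg, ← Submodule.map_span] at hx
      obtain ⟨y, hy, hyx⟩ := hx
      have hsub : x - y ∈ LinearMap.ker (Hmap 1 (inc (S_anti A C (Nat.le_succ m)))) := by
        rw [LinearMap.mem_ker, map_sub, hyx, sub_self]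
      rw [k4] at hsub
      have hx2 : x = (x - y) + y := by abel
      rw [hx2]
      refine Submodule.add_mem _ ?_ ?_
      · refine Submodule.span_mono ?_ hsub
        rintro _ rfl
        exact ⟨⟨m, hm⟩, by simp, rfl⟩
      · refine Submodule.span_mono ?_ hy
        exact Set.image_mono (fun j (hj : (j : ℕ) < m) => Nat.lt_succ_of_lt hj)
  refine ⟨fun j z s => ?_, ?_, ?_, ?_, ?_, ?_⟩
  · rw [← hsl]; exact merid_mem hT j z s n
  · intro z hφ hs h
    have := hspan z h n le_rfl
    have huniv : {j : Fin n | (j : ℕ) < n} = Set.univ := by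
      ext j; simp
    rw [huniv, Set.image_univ] at this
    clear hsurj hsurj' hdim hbij key
    revert hs
    rw [← hsl]
    intro hs
    exact this
  · intro h hf hr
    rw [← hsl] at h ⊢
    obtain ⟨d1, d2⟩ := hdim h n le_rfl
    have hf' := d1.mp hf
    have := d2 hf
    have h0 : Module.finrank ℚ (H 2 ↥(S A C n)) = 0 := by omega
    exact Module.finrank_zero_iff.mp h0
  · intro k h
    rw [← hsl]
    exact (hbij k n le_rfl).mpr h
  · intro h
    rw [← hsl] at h ⊢
    refine ⟨subsing_of_eq hs0 1 (hsurj' h 0 (Nat.zero_le _)), fun hf => ?_⟩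
    obtain ⟨d1, d2⟩ := hdim h n le_rfl
    exact ⟨d1.mpr hf, (d2 (d1.mpr hf)).le⟩
  · intro k h
    rw [← hsl] at h
    exact (hbij k n le_rfl).mp h

end Pool.Agent.SH
end

section
/-!
# Removing one curve with a tube (module HGY)
-/
set_option autoImplicit false

open Finset

namespace Pool.Agent.SH.HGYM

open Pool.Agent.SH

/-! ### topology of the pieces -/

section pieces

variable {V T : Type} [TopologicalSpace V] [TopologicalSpace T]

/-- The complement of the curve in the space `A`. -/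
def UU (A C : Set V) : Set ↥A := {x | (x : V) ∉ C}

/-- The tube in the space `A`. -/
def NN (A : Set V) (φ : T × ℂ → V) : Set ↥A := {x | (x : V) ∈ Set.range φ}

/-- From `A \ C` to the complement of the curve. -/
def toU (A C : Set V) : C(↥(A \ C), ↥(UU A C)) :=
  ⟨fun x => ⟨⟨x, x.2.1⟩, x.2.2⟩, Continuous.subtype_mk
    (Continuous.subtype_mk continuous_subtype_val _) _⟩

def ofU (A C : Set V) : C(↥(UU A C), ↥(A \ C)) :=
  ⟨fun x => ⟨x.1.1, x.1.2, x.2⟩, Continuous.subtype_mk
    (continuous_subtype_val.comp continuous_subtype_val) _⟩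

lemma toU_ofU (A C : Set V) : (toU A C).comp (ofU A C) = ContinuousMap.id _ := rfl
lemma ofU_toU (A C : Set V) : (ofU A C).comp (toU A C) = ContinuousMap.id _ := rfl

lemma incV_toU (A C : Set V) :
    (incV (UU A C)).comp (toU A C) = inc (Set.sdiff_subset : A \ C ⊆ A) := rfl

variable {A C : Set V} {φ : T × ℂ → V}

lemma isOpen_UU (hC : IsOpen (A \ C)) : IsOpen (UU A C) := by
  have : UU A C = Subtype.val ⁻¹' (A \ C) := by
    ext x
    exact ⟨fun h => ⟨x.2, h⟩, fun h => h.2⟩
  rw [this]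
  exact hC.preimage continuous_subtype_val

lemma isOpen_NN (hT : Tube A C φ) : IsOpen (NN A φ) :=
  hT.emb.isOpen_range.preimage continuous_subtype_val

lemma union_eq (hT : Tube A C φ) : UU A C ∪ NN A φ = Set.univ := by
  ext x
  simp only [Set.mem_union, Set.mem_univ, iff_true]
  by_cases h : (x : V) ∈ C
  · exact Or.inr (hT.cov h)
  · exact Or.inl h

/-- The tube as a subspace of `A`. -/
def pN (hT : Tube A C φ) : C(T × ℂ, ↥(NN A φ)) :=
  ⟨fun p => ⟨⟨φ p, hT.sub ⟨p, rfl⟩⟩, ⟨p, rfl⟩⟩, Continuous.subtype_mk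
    (Continuous.subtype_mk hT.emb.continuous _) _⟩

/-- The inverse of the parametrization of the tube. -/
noncomputable def qN (hT : Tube A C φ) : C(↥(NN A φ), T × ℂ) :=
  ⟨fun x => hT.emb.isEmbedding.toHomeomorph.symm ⟨x.1.1, x.2⟩,
    hT.emb.isEmbedding.toHomeomorph.symm.continuous.comp (Continuous.subtype_mk
      (continuous_subtype_val.comp continuous_subtype_val) _)⟩

lemma phi_qN (hT : Tube A C φ) (x : ↥(NN A φ)) : φ (qN hT x) = x.1.1 := by
  have := hT.emb.isEmbedding.toHomeomorph.apply_symm_apply ⟨x.1.1, x.2⟩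
  exact congrArg Subtype.val this

lemma qN_pN (hT : Tube A C φ) (p : T × ℂ) : qN hT (pN hT p) = p := by
  apply hT.emb.injective
  exact phi_qN hT (pN hT p)

lemma pN_qN (hT : Tube A C φ) (x : ↥(NN A φ)) : pN hT (qN hT x) = x := by
  apply Subtype.ext
  apply Subtype.ext
  exact phi_qN hT x

/-- The tube is homeomorphic to `T × ℂ`. -/
noncomputable def homN (hT : Tube A C φ) : ↥(NN A φ) ≃ₜ T × ℂ where
  toFun := qN hT
  invFun := pN hT
  left_inv := pN_qN hT
  right_inv := qN_pN hT
  continuous_toFun := (qN hT).continuous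
  continuous_invFun := (pN hT).continuous

/-- The parametrization of the punctured tube. -/
def pW (hT : Tube A C φ) : C(T × {c : ℂ // c ≠ 0}, ↥(UU A C ∩ NN A φ)) :=
  ⟨fun p => ⟨⟨φ (p.1, p.2.1), hT.sub ⟨_, rfl⟩⟩, fun h => p.2.2 ((hT.mem _).1 h), ⟨_, rfl⟩⟩,
    Continuous.subtype_mk (Continuous.subtype_mk (hT.emb.continuous.comp
      (Continuous.prodMk continuous_fst (continuous_subtype_val.comp continuous_snd))) _) _⟩

/-- Coordinates on the punctured tube. -/
noncomputable def qW (hT : Tube A C φ) : C(↥(UU A C ∩ NN A φ), T × {c : ℂ // c ≠ 0}) :=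
  ⟨fun x => ((qN hT ⟨x.1, x.2.2⟩).1, ⟨(qN hT ⟨x.1, x.2.2⟩).2, fun h => x.2.1 (by
      have := (hT.mem (qN hT ⟨x.1, x.2.2⟩)).2 h
      rw [phi_qN hT] at this
      exact this)⟩), by
    have h1 : Continuous (fun x : ↥(UU A C ∩ NN A φ) => qN hT ⟨x.1, x.2.2⟩) :=
      (qN hT).continuous.comp (Continuous.subtype_mk continuous_subtype_val _)
    exact Continuous.prodMk (continuous_fst.comp h1)
      (Continuous.subtype_mk (continuous_snd.comp h1) _)⟩

lemma pW_qW (hT : Tube A C φ) (x : ↥(UU A C ∩ NN A φ)) : pW hT (qW hT x) = x := by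
  apply Subtype.ext
  apply Subtype.ext
  exact phi_qN hT ⟨x.1, x.2.2⟩

lemma qW_pW (hT : Tube A C φ) (p : T × {c : ℂ // c ≠ 0}) : qW hT (pW hT p) = p := by
  have h : qN hT ⟨(pW hT p).1, (pW hT p).2.2⟩ = (p.1, p.2.1) := qN_pN hT (p.1, p.2.1)
  have h1 := congrArg Prod.fst h
  have h2 := congrArg Prod.snd h
  refine Prod.ext ?_ (Subtype.ext ?_)
  · exact h1
  · exact h2

lemma dir_mem (c : {c : ℂ // c ≠ 0}) :
    (c : ℂ) / ((‖(c : ℂ)‖ : ℝ) : ℂ) ∈ Submonoid.unitSphere ℂ := by
  refine mem_sphere_zero_iff_norm.2 ?_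
  rw [norm_div, Complex.norm_real, norm_norm, div_self (norm_ne_zero_iff.2 c.2)]

/-- The direction of a non-zero complex number. -/
noncomputable def dir : C({c : ℂ // c ≠ 0}, Circle) :=
  ⟨fun c => (⟨(c : ℂ) / ((‖(c : ℂ)‖ : ℝ) : ℂ), dir_mem c⟩ : Submonoid.unitSphere ℂ), by
    refine Continuous.subtype_mk ?_ _
    exact Continuous.div continuous_subtype_val
      (Complex.continuous_ofReal.comp (continuous_norm.comp continuous_subtype_val))
      (fun c => Complex.ofReal_ne_zero.2 (norm_ne_zero_iff.2 c.2))⟩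

lemma dir_coe (c : {c : ℂ // c ≠ 0}) : ((dir c : Circle) : ℂ) = (c : ℂ) / ((‖(c : ℂ)‖ : ℝ) : ℂ) := rfl

def emb (s : Circle) : {c : ℂ // c ≠ 0} := ⟨(s : ℂ), Circle.coe_ne_zero s⟩

lemma continuous_emb : Continuous emb := Continuous.subtype_mk continuous_subtype_val _

lemma dir_emb (s : Circle) : dir (emb s) = s := by
  apply Circle.ext
  rw [dir_coe]
  show (s : ℂ) / ((‖(s : ℂ)‖ : ℝ) : ℂ) = s
  rw [Circle.norm_coe]
  simp

/-- The meridian in the punctured tube. -/
noncomputable def mu (hT : Tube A C φ) (z : T) : C(Circle, ↥(UU A C ∩ NN A φ)) :=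
  (pW hT).comp ⟨fun s => (z, emb s), Continuous.prodMk continuous_const continuous_emb⟩

/-- The retraction of the punctured tube. -/
noncomputable def rr (hT : Tube A C φ) : C(↥(UU A C ∩ NN A φ), Circle) :=
  dir.comp (⟨Prod.snd, continuous_snd⟩ : C(T × {c : ℂ // c ≠ 0}, {c : ℂ // c ≠ 0}))|>.comp (qW hT)

lemma rr_mu (hT : Tube A C φ) (z : T) : (rr hT).comp (mu hT z) = ContinuousMap.id Circle := by
  ext1 s
  show dir (qW hT (pW hT (z, emb s))).2 = s
  rw [qW_pW]
  exact dir_emb s

lemma homotopic_const [ContractibleSpace T] (z : T) :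
    ContinuousMap.Homotopic (ContinuousMap.id T) (ContinuousMap.const T z) := by
  obtain ⟨p, hp⟩ := id_nullhomotopic T
  refine hp.trans ?_
  have γ : Path p z := (PathConnectedSpace.joined p z).somePath
  exact ⟨{ toFun := fun q => γ q.1
           continuous_toFun := γ.continuous.comp continuous_fst
           map_zero_left := fun x => γ.source
           map_one_left := fun x => γ.target }⟩

/-- The scaling homotopy on the punctured plane. -/
noncomputable def scal : C(unitInterval × {c : ℂ // c ≠ 0}, {c : ℂ // c ≠ 0}) :=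
  ⟨fun q => ⟨(((1 - (q.1 : ℝ)) + (q.1 : ℝ) / ‖(q.2 : ℂ)‖ : ℝ) : ℂ) * (q.2 : ℂ), by
      have hn : 0 < ‖(q.2 : ℂ)‖ := norm_pos_iff.2 q.2.2
      refine mul_ne_zero ?_ q.2.2
      have h0 := q.1.2.1
      have h1 := q.1.2.2
      have hp : 0 < (1 - (q.1 : ℝ)) + (q.1 : ℝ) / ‖(q.2 : ℂ)‖ := by
        rcases eq_or_lt_of_le h1 with h | h
        · rw [h]; simp only [sub_self, zero_add]; positivity
        · have : 0 ≤ (q.1 : ℝ) / ‖(q.2 : ℂ)‖ := by positivity
          linarith
      exact_mod_cast hp.ne'⟩, by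
    refine Continuous.subtype_mk ?_ _
    refine Continuous.mul (Complex.continuous_ofReal.comp ?_)
      (continuous_subtype_val.comp continuous_snd)
    refine Continuous.add (continuous_const.sub (continuous_subtype_val.comp continuous_fst)) ?_
    refine Continuous.div (continuous_subtype_val.comp continuous_fst)
      (continuous_norm.comp (continuous_subtype_val.comp continuous_snd)) (fun q => ?_)
    exact norm_ne_zero_iff.2 q.2.2⟩

lemma scal_zero (c : {c : ℂ // c ≠ 0}) : scal (0, c) = c := by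
  apply Subtype.ext
  show (((1 - ((0 : unitInterval) : ℝ)) + ((0 : unitInterval) : ℝ) / ‖(c : ℂ)‖ : ℝ) : ℂ) * (c : ℂ) = c
  simp

lemma scal_one (c : {c : ℂ // c ≠ 0}) : scal (1, c) = emb (dir c) := by
  apply Subtype.ext
  have e : ((emb (dir c) : {c : ℂ // c ≠ 0}) : ℂ) = (c : ℂ) / ((‖(c : ℂ)‖ : ℝ) : ℂ) := dir_coe c
  rw [e]
  show (((1 - ((1 : unitInterval) : ℝ)) + ((1 : unitInterval) : ℝ) / ‖(c : ℂ)‖ : ℝ) : ℂ) * (c : ℂ) =
    (c : ℂ) / ((‖(c : ℂ)‖ : ℝ) : ℂ)
  simp only [Set.Icc.coe_one, sub_self, zero_add, one_div]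
  push_cast
  rw [div_eq_inv_mul]

lemma mu_rr [ContractibleSpace T] (hT : Tube A C φ) (z : T) :
    ContinuousMap.Homotopic ((mu hT z).comp (rr hT)) (ContinuousMap.id _) := by
  obtain ⟨K⟩ := homotopic_const z
  refine ContinuousMap.Homotopic.symm ⟨{
    toFun := fun q => pW hT (K (q.1, (qW hT q.2).1), scal (q.1, (qW hT q.2).2))
    continuous_toFun := ?_
    map_zero_left := fun x => ?_
    map_one_left := fun x => ?_ }⟩
  · refine (pW hT).continuous.comp (Continuous.prodMk ?_ ?_)
    · exact K.continuous.comp (Continuous.prodMk continuous_fst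
        (continuous_fst.comp ((qW hT).continuous.comp continuous_snd)))
    · exact scal.continuous.comp (Continuous.prodMk continuous_fst
        (continuous_snd.comp ((qW hT).continuous.comp continuous_snd)))
  · show pW hT (K (0, (qW hT x).1), scal (0, (qW hT x).2)) = x
    rw [ContinuousMap.Homotopy.apply_zero, scal_zero]
    exact pW_qW hT x
  · show pW hT (K (1, (qW hT x).1), scal (1, (qW hT x).2)) = pW hT (z, emb (dir (qW hT x).2))
    rw [ContinuousMap.Homotopy.apply_one, scal_one]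
    rfl

lemma mu_bij [ContractibleSpace T] (h2 : SpecHtpy) (hT : Tube A C φ) (z : T) (k : ℕ) :
    Function.Bijective (Hmap k (mu hT z)) :=
  h2.2.1 Circle ↥(UU A C ∩ NN A φ) (mu hT z) (rr hT)
    (by rw [rr_mu]) (mu_rr hT z) k

lemma toU_bij (h2 : SpecHtpy) (k : ℕ) : Function.Bijective (Hmap k (toU A C)) :=
  h2.2.1 _ _ (toU A C) (ofU A C) (by rw [ofU_toU]) (by rw [toU_ofU]) k

instance : PathConnectedSpace Circle := by
  have hs : Function.Surjective Circle.exp := fun c => ⟨Complex.arg c, Circle.exp_arg c⟩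
  exact hs.pathConnectedSpace Circle.exp.continuous

end pieces

lemma absIota {M N : Type} [AddCommGroup M] [Module ℚ M] [AddCommGroup N] [Module ℚ N]
    (d : M →ₗ[ℚ] N) (m0 : N) (h0 : m0 ≠ 0) (hsp : ∀ y : N, ∃ a : ℚ, y = a • m0) :
    ∃ ι : M →ₗ[ℚ] ℚ, LinearMap.ker ι = LinearMap.ker d ∧
      ∀ a : ℚ, a ∈ LinearMap.range ι ↔ ∃ c, d c = a • m0 := by
  have hbij : Function.Bijective (LinearMap.toSpanSingleton ℚ N m0) := by
    constructor
    · rw [injective_iff_map_eq_zero]
      intro a ha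
      rw [LinearMap.toSpanSingleton_apply] at ha
      exact (smul_eq_zero.1 ha).resolve_right h0
    · intro y
      obtain ⟨a, rfl⟩ := hsp y
      exact ⟨a, LinearMap.toSpanSingleton_apply _ _ _ _⟩
  refine ⟨(LinearEquiv.ofBijective _ hbij).symm.toLinearMap.comp d, ?_, fun a => ?_⟩
  · ext c
    rw [LinearMap.mem_ker, LinearMap.mem_ker, LinearMap.comp_apply, LinearEquiv.coe_coe,
      LinearEquiv.map_eq_zero_iff]
  · rw [LinearMap.mem_range]
    refine exists_congr fun c => ?_
    rw [LinearMap.comp_apply, LinearEquiv.coe_coe, LinearEquiv.symm_apply_eq,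
      LinearEquiv.ofBijective_apply, LinearMap.toSpanSingleton_apply]

/-- The linear algebra of the theorem. -/
theorem main (h1 : SpecMV) (h2 : SpecHtpy) (h3 : SpecZero) (h4 : SpecCirc)
    {V T : Type} [TopologicalSpace V] [TopologicalSpace T] [ContractibleSpace T]
    {A C : Set V} {φ : T × ℂ → V} (hC : IsOpen (A \ C)) (hT : Tube A C φ) (z : T)
    (hz : ∀ s : Circle, φ (z, (s : ℂ)) ∈ A \ C) :
    (∀ k : ℕ, Function.Bijective (Hmap (k + 3) (inc (Set.sdiff_subset : A \ C ⊆ A)))) ∧
    Function.Injective (Hmap 2 (inc (Set.sdiff_subset : A \ C ⊆ A))) ∧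
    Function.Surjective (Hmap 1 (inc (Set.sdiff_subset : A \ C ⊆ A))) ∧
    LinearMap.ker (Hmap 1 (inc (Set.sdiff_subset : A \ C ⊆ A))) =
      Submodule.span ℚ {loop (merid (A \ C) φ hT.emb.continuous z hz)} ∧
    ∃ ι : H 2 ↥A →ₗ[ℚ] ℚ,
      LinearMap.ker ι = LinearMap.range (Hmap 2 (inc (Set.sdiff_subset : A \ C ⊆ A))) ∧
      ∀ a : ℚ, a ∈ LinearMap.range ι ↔
        a • loop (merid (A \ C) φ hT.emb.continuous z hz) = 0 := by
  obtain ⟨δ, hA, hB, hD, -⟩ := h1 ↥A (UU A C) (NN A φ) (isOpen_UU hC) (isOpen_NN hT) (union_eq hT)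
  have : ContractibleSpace ↥(NN A φ) := (homN hT).contractibleSpace
  have hN : ∀ k, Subsingleton (H (k + 1) ↥(NN A φ)) := fun k => h2.2.2.1 _ k
  have hWk : ∀ k, Subsingleton (H (k + 2) ↥(UU A C ∩ NN A φ)) := fun k => by
    have := h4.1 k
    exact (mu_bij h2 hT z (k + 2)).2.subsingleton
  have hinc : ∀ k, Hmap k (inc (Set.sdiff_subset : A \ C ⊆ A)) =
      (Hmap k (incV (UU A C))).comp (Hmap k (toU A C)) := fun k => by
    refine LinearMap.ext fun c => ?_
    rw [LinearMap.comp_apply, ← Hmap_comp, incV_toU]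
  -- the map from the homology of `U`
  have hsum : ∀ k (p : H k ↥(UU A C)) (q : H k ↥(NN A φ)), mvSum k (UU A C) (NN A φ) (p, q) =
      Hmap k (incV (UU A C)) p + Hmap k (incV (NN A φ)) q := fun _ _ _ => rfl
  have hdiff : ∀ k (c : H k ↥(UU A C ∩ NN A φ)), mvDiff k (UU A C) (NN A φ) c =
      (Hmap k (inc Set.inter_subset_left) c, -(Hmap k (inc Set.inter_subset_right) c)) :=
    fun _ _ => rfl
  have hinj : ∀ k, Function.Injective (Hmap (k + 2) (incV (UU A C))) := by
    intro k
    rw [injective_iff_map_eq_zero]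
    intro c hc
    have h : mvSum (k + 2) (UU A C) (NN A φ) (c, 0) = 0 := by
      rw [hsum, hc, map_zero, add_zero]
    obtain ⟨y, hy⟩ := (hA (k + 2) _).1 h
    have := hWk k
    rw [Subsingleton.elim y 0, map_zero] at hy
    exact (congrArg Prod.fst hy).symm
  have hsurj : ∀ k, (∀ c, δ k c = 0) → Function.Surjective (Hmap (k + 1) (incV (UU A C))) := by
    intro k hk c
    obtain ⟨⟨p, q⟩, h⟩ := (hB k c).1 (hk c)
    have := hN k
    rw [hsum, Subsingleton.elim q 0, map_zero, add_zero] at h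
    exact ⟨p, h⟩
  -- degree zero
  have hδ0 : ∀ c, δ 0 c = 0 := by
    intro c
    have h : mvDiff 0 (UU A C) (NN A φ) (δ 0 c) = 0 := (hD 0 _).2 ⟨c, rfl⟩
    rw [hdiff, Prod.mk_eq_zero, neg_eq_zero] at h
    have hb : Function.Bijective (Hmap 0 ((inc (Set.inter_subset_right :
        UU A C ∩ NN A φ ⊆ NN A φ)).comp (mu hT z))) := h3.1 _ _ _
    obtain ⟨y, hy⟩ := (mu_bij h2 hT z 0).2 (δ 0 c)
    have h' : Hmap 0 ((inc (Set.inter_subset_right :
        UU A C ∩ NN A φ ⊆ NN A φ)).comp (mu hT z)) y = 0 := by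
      rw [Hmap_comp, hy]; exact h.2
    rw [← hy, (injective_iff_map_eq_zero _).1 hb.1 y h', map_zero]
  -- the class of the meridian
  set m0 : H 1 ↥(UU A C ∩ NN A φ) := Hmap 1 (mu hT z) circ with hm0
  have hm0ne : m0 ≠ 0 := fun h =>
    h4.2.2.1 ((injective_iff_map_eq_zero _).1 (mu_bij h2 hT z 1).1 _ h)
  have hm0sp : ∀ y : H 1 ↥(UU A C ∩ NN A φ), ∃ a : ℚ, y = a • m0 := by
    intro y
    obtain ⟨x, rfl⟩ := (mu_bij h2 hT z 1).2 y
    obtain ⟨a, rfl⟩ := h4.2.1 x
    exact ⟨a, by rw [map_smul]⟩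
  set mer := loop (merid (A \ C) φ hT.emb.continuous z hz) with hmer
  have hmerU : Hmap 1 (toU A C) mer = Hmap 1 (inc Set.inter_subset_left) m0 := by
    rw [hmer, loop, hm0, ← Hmap_comp, ← Hmap_comp]
    rfl
  have hm0N : Hmap 1 (inc (Set.inter_subset_right : UU A C ∩ NN A φ ⊆ NN A φ)) m0 = 0 := by
    have := hN 0
    exact Subsingleton.elim _ _
  have htoU := fun k => toU_bij (A := A) (C := C) h2 k
  refine ⟨fun k => ?_, ?_, ?_, ?_, ?_⟩
  · rw [hinc, LinearMap.coe_comp]
    refine Function.Bijective.comp ⟨hinj (k + 1), ?_⟩ (htoU _)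
    refine hsurj (k + 2) (fun c => ?_)
    have := hWk k
    exact Subsingleton.elim _ _
  · rw [hinc, LinearMap.coe_comp]
    exact (hinj 0).comp (htoU _).1
  · rw [hinc, LinearMap.coe_comp]
    exact (hsurj 0 hδ0).comp (htoU _).2
  · apply le_antisymm
    · intro c hc
      rw [LinearMap.mem_ker, hinc, LinearMap.comp_apply] at hc
      have h : mvSum 1 (UU A C) (NN A φ) (Hmap 1 (toU A C) c, 0) = 0 := by
        rw [hsum, hc, map_zero, add_zero]
      obtain ⟨y, hy⟩ := (hA 1 _).1 h
      obtain ⟨a, rfl⟩ := hm0sp y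
      rw [hdiff, map_smul, ← hmerU] at hy
      have hy1 : a • Hmap 1 (toU A C) mer = Hmap 1 (toU A C) c := congrArg Prod.fst hy
      rw [← map_smul] at hy1
      rw [← (htoU 1).1 hy1]
      exact Submodule.smul_mem _ _ (Submodule.mem_span_singleton_self _)
    · rw [Submodule.span_singleton_le_iff_mem, LinearMap.mem_ker, hinc, LinearMap.comp_apply, hmerU]
      have h : mvSum 1 (UU A C) (NN A φ) (mvDiff 1 (UU A C) (NN A φ) m0) = 0 := (hA 1 _).2 ⟨m0, rfl⟩
      rw [hdiff, hm0N, hsum, neg_zero, map_zero, add_zero] at h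
      exact h
  · obtain ⟨ι, hι, hr⟩ := absIota (δ 1) m0 hm0ne hm0sp
    refine ⟨ι, ?_, fun a => ?_⟩
    · rw [hι]
      refine Submodule.ext fun c => ?_
      rw [LinearMap.mem_ker, LinearMap.mem_range, hinc]
      constructor
      · intro h
        obtain ⟨⟨p, q⟩, hpq⟩ := (hB 1 c).1 h
        have := hN 1
        rw [hsum, Subsingleton.elim q 0, map_zero, add_zero] at hpq
        obtain ⟨x, rfl⟩ := (htoU 2).2 p
        exact ⟨x, hpq⟩
      · rintro ⟨x, hx⟩
        refine (hB 1 c).2 ⟨(Hmap 2 (toU A C) x, 0), ?_⟩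
        rw [hsum, map_zero, add_zero]
        exact hx
    · rw [hr]
      constructor
      · rintro ⟨c, hc⟩
        have h : mvDiff 1 (UU A C) (NN A φ) (δ 1 c) = 0 := (hD 1 _).2 ⟨c, rfl⟩
        rw [hc, hdiff, Prod.mk_eq_zero, map_smul, ← hmerU, ← map_smul] at h
        exact (injective_iff_map_eq_zero _).1 (htoU 1).1 _ h.1
      · intro h
        refine (hD 1 _).1 ?_
        rw [hdiff, map_smul, map_smul, ← hmerU, ← map_smul, h, map_zero, hm0N, smul_zero, neg_zero]
        rfl

end Pool.Agent.SH.HGYM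

namespace Pool.Agent.SH

theorem specGYS (h1 : SpecMV) (h2 : SpecHtpy) (h3 : SpecZero) (h4 : SpecCirc) : SpecGYS := by
  intro V T _ _ _ A C φ hC hA hT z hz
  exact HGYM.main h1 h2 h3 h4 hC hT z hz

end Pool.Agent.SH
end

section
/-! # The prism operator (module HPR) -/
set_option autoImplicit false

namespace Pool.Agent.SH.HPR

open HLC HRE HSD HOP

variable {X Y : Type} [TopologicalSpace X] [TopologicalSpace Y]

/-- the map of prisms given by a face -/
noncomputable def fp (k : ℕ) (i : Fin (k + 2)) : C(prismSet k, prismSet (k + 1)) :=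
  ⟨fun p => ⟨((face k i ⟨p.1.1, p.2.1⟩ : Dl (k + 1)), p.1.2), (face k i ⟨p.1.1, p.2.1⟩).2, p.2.2⟩, by
    refine Continuous.subtype_mk (Continuous.prodMk ?_ ?_) _
    · exact continuous_subtype_val.comp ((face k i).continuous.comp
        (Continuous.subtype_mk (continuous_fst.comp continuous_subtype_val) _))
    · exact continuous_snd.comp continuous_subtype_val⟩

theorem aff_prism_fst (k m : ℕ) (v : Fin (m + 1) → prismSet k) (t : Dl m) :
    (⟨((aff (convex_prismSet k) m v t : prismSet k) : (Fin (k + 1) → ℝ) × ℝ).1,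
      (aff (convex_prismSet k) m v t : prismSet k).2.1⟩ : Dl k) =
      aff (convex_Dl k) m (fun i => (⟨(v i).1.1, (v i).2.1⟩ : Dl k)) t := by
  apply Subtype.ext
  have h := congrArg Prod.fst (aff_apply (convex_prismSet k) m v t)
  rw [Prod.fst_sum] at h
  exact h

theorem aff_prism_snd (k m : ℕ) (v : Fin (m + 1) → prismSet k) (t : Dl m) :
    ((aff (convex_prismSet k) m v t : prismSet k) : (Fin (k + 1) → ℝ) × ℝ).2 =
      ∑ i, t i * (v i).1.2 := by
  rw [aff_apply, Prod.snd_sum]
  rfl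

theorem isAff_fp (k : ℕ) (i : Fin (k + 2)) :
    IsAff (convex_prismSet k) (convex_prismSet (k + 1)) (fp k i) := by
  intro m v t
  apply Subtype.ext
  apply Prod.ext
  · have h := aff_prism_fst (k + 1) m (fp k i ∘ v) t
    have h2 := congrArg Subtype.val h
    refine Eq.trans ?_ h2.symm
    show ((face k i ⟨((aff (convex_prismSet k) m v t : prismSet k) : (Fin (k + 1) → ℝ) × ℝ).1, _⟩ :
      Dl (k + 1)) : Fin (k + 2) → ℝ) = _
    rw [aff_prism_fst, isAff_face]
    rfl
  · have h := aff_prism_snd (k + 1) m (fp k i ∘ v) t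
    refine Eq.trans ?_ h.symm
    exact aff_prism_snd k m v t

theorem fp_bot (k : ℕ) (i : Fin (k + 2)) : fp k i ∘ bot k = bot (k + 1) ∘ face k i := rfl

theorem fp_top (k : ℕ) (i : Fin (k + 2)) : fp k i ∘ top k = top (k + 1) ∘ face k i := rfl

theorem isAff_bot (k : ℕ) : IsAff (convex_Dl k) (convex_prismSet k) (bot k) := by
  intro m v t
  apply Subtype.ext
  apply Prod.ext
  · exact (congrArg Subtype.val (aff_prism_fst k m (bot k ∘ v) t)).symm
  · refine Eq.trans ?_ (aff_prism_snd k m (bot k ∘ v) t).symm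
    simp [bot]

theorem isAff_top (k : ℕ) : IsAff (convex_Dl k) (convex_prismSet k) (top k) := by
  intro m v t
  apply Subtype.ext
  apply Prod.ext
  · exact (congrArg Subtype.val (aff_prism_fst k m (top k ∘ v) t)).symm
  · refine Eq.trans ?_ (aff_prism_snd k m (top k ∘ v) t).symm
    simp only [top, Function.comp_apply, mul_one]
    exact t.2.2.symm

theorem bot_cont (k : ℕ) : Continuous (bot k) :=
  Continuous.subtype_mk (Continuous.prodMk continuous_subtype_val continuous_const) _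

theorem top_cont (k : ℕ) : Continuous (top k) :=
  Continuous.subtype_mk (Continuous.prodMk continuous_subtype_val continuous_const) _

variable {f₀ f₁ : C(X, Y)} (Φ : ContinuousMap.Homotopy f₀ f₁)

theorem hS_single (k : ℕ) (σ : Smp k X) (a : ℚ) :
    hS k Φ (Finsupp.single σ a) = push (k + 1) (prismMap Φ σ) (real (convex_prismSet k) (k + 1)
      (Pr (bot k) (top k) k (Finsupp.single (vert k) a))) := by
  rw [single_eq_smul (vert k) a, map_smul, map_smul, map_smul, hS,
    Finsupp.linearCombination_single]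

theorem prismMap_fp (k : ℕ) (i : Fin (k + 2)) (σ : Smp (k + 1) X) :
    (prismMap Φ σ).comp (fp k i) = prismMap Φ (σ.comp (face k i)) := rfl

theorem face_vert (k : ℕ) (i : Fin (k + 2)) :
    face k i ∘ vert k = vert (k + 1) ∘ Fin.succAbove i := by
  funext j
  rw [face_eq]
  exact aff_vert _ _ _ _

/-- the boundary of the prism over a face of a simplex -/
theorem hS_face (k : ℕ) (i : Fin (k + 2)) (σ : Smp (k + 1) X) (a : ℚ) :
    hS k Φ (Finsupp.single (σ.comp (face k i)) a) =
      push (k + 1) (prismMap Φ σ) (real (convex_prismSet (k + 1)) (k + 1)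
        (Pr (bot (k + 1)) (top (k + 1)) k (Finsupp.single (vert (k + 1) ∘ Fin.succAbove i) a))) := by
  rw [hS_single, ← prismMap_fp, push_comp, push_real _ (convex_prismSet (k + 1)) _ (isAff_fp k i),
    lpush_Pr (bot k) (top k) (bot (k + 1)) (top (k + 1)) (face k i) (fp k i) (fp_bot k i)
      (fp_top k i), lpush_single, face_vert]

theorem hS_bd (k : ℕ) (σ : Smp (k + 1) X) (a : ℚ) :
    hS k Φ (bd k (Finsupp.single σ a)) =
      push (k + 1) (prismMap Φ σ) (real (convex_prismSet (k + 1)) (k + 1)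
        (Pr (bot (k + 1)) (top (k + 1)) k (lbd k (Finsupp.single (vert (k + 1)) a)))) := by
  rw [bd_single', lbd_single', map_sum, map_sum, map_sum, map_sum]
  apply Finset.sum_congr rfl
  intro i _
  rw [map_smul, map_smul, map_smul, map_smul, hS_face]

theorem push_end (g : C(X, Y)) (k : ℕ) (e : Dl k → prismSet k)
    (hA : IsAff (convex_Dl k) (convex_prismSet k) e) (σ : Smp k X)
    (hg : ∀ t, prismMap Φ σ (e t) = g (σ t)) (a : ℚ) :
    push k (prismMap Φ σ) (real (convex_prismSet k) k (lpush k e (Finsupp.single (vert k) a))) =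
      push k g (Finsupp.single σ a) := by
  rw [lpush_single, real_single, push_single, push_single]
  congr 1
  ext1 t
  show prismMap Φ σ (aff (convex_prismSet k) k (e ∘ vert k) t) = g (σ t)
  rw [← hA k (vert k) t, aff_id, hg]
  rfl

theorem push_bot (k : ℕ) (σ : Smp k X) (a : ℚ) :
    push k (prismMap Φ σ) (real (convex_prismSet k) k
      (lpush k (bot k) (Finsupp.single (vert k) a))) = push k f₀ (Finsupp.single σ a) := by
  apply push_end Φ f₀ k (bot k) (isAff_bot k)
  intro t
  show Φ (⟨0, _⟩, σ ⟨t.1, _⟩) = _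
  exact Φ.apply_zero (σ t)

theorem push_top (k : ℕ) (σ : Smp k X) (a : ℚ) :
    push k (prismMap Φ σ) (real (convex_prismSet k) k
      (lpush k (top k) (Finsupp.single (vert k) a))) = push k f₁ (Finsupp.single σ a) := by
  apply push_end Φ f₁ k (top k) (isAff_top k)
  intro t
  show Φ (⟨1, _⟩, σ ⟨t.1, _⟩) = _
  exact Φ.apply_one (σ t)

theorem bd_hS_zero (z : Ch 0 X) : bd 0 (hS 0 Φ z) = push 0 f₁ z - push 0 f₀ z := by
  induction z using Finsupp.induction_linear with
  | zero => simp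
  | add f g hf hg =>
    simp only [map_add, hf, hg]
    abel
  | single σ a =>
    rw [hS_single, bd_push, bd_real, lbd_Pr_zero, map_sub, map_sub, push_bot, push_top]

theorem bd_hS (k : ℕ) (z : Ch (k + 1) X) :
    bd (k + 1) (hS (k + 1) Φ z) + hS k Φ (bd k z) = push (k + 1) f₁ z - push (k + 1) f₀ z := by
  induction z using Finsupp.induction_linear with
  | zero => simp
  | add f g hf hg =>
    simp only [map_add]
    rw [show ∀ p q r s : Ch (k + 1) Y, (p + q) + (r + s) = (p + r) + (q + s) from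
        fun p q r s => by abel, hf, hg]
    abel
  | single σ a =>
    rw [hS_single, bd_push, bd_real, hS_bd, ← map_add, ← map_add, lbd_Pr, map_sub, map_sub,
      push_bot, push_top]

end Pool.Agent.SH.HPR

namespace Pool.Agent.SH

open HPR in
theorem specPrism (_h1 : SpecLC) (_h2 : SpecReal) (_h3 : SpecSdT) : SpecPrism :=
  fun _ _ _ _ _ _ Φ => ⟨fun z => bd_hS_zero Φ z, fun k z => bd_hS Φ k z⟩

end Pool.Agent.SH
end

section
/-! # Homotopy invariance (module HHT) -/
set_option autoImplicit false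

namespace Pool.Agent.SH.HHT

open HLC HRE HSD HOP

variable {X Y : Type} [TopologicalSpace X] [TopologicalSpace Y]

theorem cls_eq_iff (k : ℕ) (z w : ↥(cyc k X)) :
    cls k z = cls k w ↔ (z : Ch k X) - (w : Ch k X) ∈ bdr k X := by
  rw [← sub_eq_zero, ← map_sub, cls_eq_zero_iff]
  rfl

theorem Hmap_eq (h : SpecPrism) (f₀ f₁ : C(X, Y)) (hf : ContinuousMap.Homotopic f₀ f₁) (k : ℕ) :
    Hmap k f₀ = Hmap k f₁ := by
  obtain ⟨Φ⟩ := hf.symm
  obtain ⟨h0, h1⟩ := h X Y f₁ f₀ Φ
  apply LinearMap.ext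
  intro c
  obtain ⟨z, rfl⟩ := cls_surjective k c
  rw [Hmap_cls, Hmap_cls, cls_eq_iff]
  show push k f₀ (z : Ch k X) - push k f₁ (z : Ch k X) ∈ bdr k Y
  cases k with
  | zero => exact ⟨hS 0 Φ z, h0 z⟩
  | succ k =>
    refine ⟨hS (k + 1) Φ z, ?_⟩
    have hz : bd k (z : Ch (k + 1) X) = 0 := z.2
    have h2 := h1 k z
    rw [hz, map_zero, add_zero] at h2
    exact h2

theorem Hmap_bij (h : SpecPrism) (f : C(X, Y)) (g : C(Y, X))
    (h1 : ContinuousMap.Homotopic (g.comp f) (ContinuousMap.id X))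
    (h2 : ContinuousMap.Homotopic (f.comp g) (ContinuousMap.id Y)) (k : ℕ) :
    Function.Bijective (Hmap k f) := by
  have e1 := Hmap_eq h _ _ h1 k
  have e2 := Hmap_eq h _ _ h2 k
  refine Function.bijective_iff_has_inverse.mpr ⟨Hmap k g, fun c => ?_, fun c => ?_⟩
  · rw [← Hmap_comp, e1, Hmap_id]
  · rw [← Hmap_comp, e2, Hmap_id]

theorem smp_unit (k : ℕ) (σ τ : Smp k Unit) : σ = τ := by
  ext1 t
  exact Subsingleton.elim _ _

/-- the singular simplex of the point -/
noncomputable def σu (k : ℕ) : Smp k Unit := ContinuousMap.const _ ()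

theorem bd_unit (k : ℕ) (a : ℚ) : bd k (Finsupp.single (σu (k + 1)) a) =
    Finsupp.single (σu k) ((if Even (k + 2) then 0 else 1) * a) := by
  rw [bd_single']
  have h : ∀ i : Fin (k + 2), (σu (k + 1)).comp (face k i) = σu k := fun i => smp_unit _ _ _
  simp only [h]
  rw [← Finset.sum_smul, Fin.sum_neg_one_pow, Finsupp.smul_single, smul_eq_mul]

theorem ch_unit (k : ℕ) (z : Ch k Unit) : z = Finsupp.single (σu k) (z (σu k)) := by
  ext σ
  rw [smp_unit k σ (σu k), Finsupp.single_eq_same]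

theorem H_unit (k : ℕ) : Subsingleton (H (k + 1) Unit) := by
  refine ⟨fun c d => ?_⟩
  obtain ⟨z, rfl⟩ := cls_surjective (k + 1) c
  obtain ⟨w, rfl⟩ := cls_surjective (k + 1) d
  rw [← sub_eq_zero, ← map_sub, cls_eq_zero_iff]
  generalize z - w = u
  by_cases hk : Even k
  · refine ⟨Finsupp.single (σu (k + 2)) ((u : Ch (k + 1) Unit) (σu (k + 1))), ?_⟩
    have hk3 : ¬ Even (k + 1 + 2) := by
      rw [Nat.not_even_iff_odd]
      exact (hk.add_one).add_even even_two
    rw [bd_unit, if_neg hk3, one_mul, ← ch_unit]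
  · have hk2 : ¬ Even (k + 2) := by
      rw [Nat.even_add]
      simp [hk]
    have hu : bd k (u : Ch (k + 1) Unit) = 0 := u.2
    rw [ch_unit (k + 1) u, bd_unit, if_neg hk2, one_mul, Finsupp.single_eq_zero] at hu
    rw [ch_unit (k + 1) u, hu, Finsupp.single_zero]
    exact Submodule.zero_mem _

theorem H_contractible (h : SpecPrism) [ContractibleSpace X] (k : ℕ) :
    Subsingleton (H (k + 1) X) := by
  obtain ⟨e⟩ := ContractibleSpace.hequiv_unit X
  have hb := Hmap_bij h e.toFun e.invFun e.left_inv e.right_inv (k + 1)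
  have := H_unit k
  exact hb.1.subsingleton

theorem H_empty [IsEmpty X] (k : ℕ) : Subsingleton (H k X) := by
  have : IsEmpty (Smp k X) := ⟨fun σ => IsEmpty.false (σ (vert k 0))⟩
  refine ⟨fun c d => ?_⟩
  obtain ⟨z, rfl⟩ := cls_surjective k c
  obtain ⟨w, rfl⟩ := cls_surjective k d
  congr 1
  apply Subtype.ext
  exact Subsingleton.elim _ _

end Pool.Agent.SH.HHT

namespace Pool.Agent.SH

open HHT in
theorem specHtpy (h : SpecPrism) : SpecHtpy :=
  ⟨fun _ _ _ _ f₀ f₁ hf k => Hmap_eq h f₀ f₁ hf k,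
    fun _ _ _ _ f g h1 h2 k => Hmap_bij h f g h1 h2 k, fun _ _ _ k => H_contractible h k,
    fun _ _ _ k => H_empty k⟩

end Pool.Agent.SH
end

section
/-!
# Mayer-Vietoris (module HMV)
-/
set_option autoImplicit false

open Finset

namespace Pool.Agent.SH.HMVM

open Pool.Agent.SH

variable {X : Type} [TopologicalSpace X]

/-- Chains of `X` all of whose simplices lie in `A`. -/
noncomputable def CA (k : ℕ) (A : Set X) : Submodule ℚ (Ch k X) :=
  Finsupp.supported ℚ ℚ {σ : Smp k X | Set.range σ ⊆ A}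

/-- Corestriction of a simplex. -/
def codr {k : ℕ} {A : Set X} (σ : Smp k X) (h : Set.range σ ⊆ A) : Smp k ↥A :=
  ⟨fun t => ⟨σ t, h ⟨t, rfl⟩⟩, Continuous.subtype_mk σ.continuous _⟩

open Classical in
/-- Chains of `X` to chains of `A`: simplices which are not in `A` go to zero. -/
noncomputable def pull (k : ℕ) (A : Set X) : Ch k X →ₗ[ℚ] Ch k ↥A :=
  Finsupp.linearCombination ℚ (fun σ : Smp k X =>
    if h : Set.range σ ⊆ A then Finsupp.single (codr σ h) (1 : ℚ) else 0)

lemma pull_push (k : ℕ) (A : Set X) (z : Ch k ↥A) : pull k A (push k (incV A) z) = z := by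
  classical
  induction z using Finsupp.induction_linear with
  | zero => simp
  | add f g hf hg => rw [map_add, map_add, hf, hg]
  | single σ a =>
    have h : Set.range ((incV A).comp σ) ⊆ A := by rintro _ ⟨t, rfl⟩; exact (σ t).2
    rw [push_single, pull, Finsupp.linearCombination_single, dif_pos h, Finsupp.smul_single,
      smul_eq_mul, mul_one]
    congr 1

lemma push_inj (k : ℕ) (A : Set X) {z w : Ch k ↥A}
    (h : push k (incV A) z = push k (incV A) w) : z = w := by
  rw [← pull_push k A z, h, pull_push]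

lemma push_mem (k : ℕ) (A : Set X) (z : Ch k ↥A) : push k (incV A) z ∈ CA k A := by
  classical
  induction z using Finsupp.induction_linear with
  | zero => rw [map_zero]; exact Submodule.zero_mem _
  | add f g hf hg => rw [map_add]; exact Submodule.add_mem _ hf hg
  | single σ a =>
    rw [push_single]
    refine Finsupp.single_mem_supported ℚ a ?_
    rintro _ ⟨t, rfl⟩
    exact (σ t).2

lemma push_pull (k : ℕ) (A : Set X) {z : Ch k X} (hz : z ∈ CA k A) :
    push k (incV A) (pull k A z) = z := by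
  classical
  rw [CA, Finsupp.supported_eq_span_single] at hz
  induction hz using Submodule.span_induction with
  | mem x hx =>
    obtain ⟨σ, hσ, rfl⟩ := hx
    have hσ' : Set.range σ ⊆ A := hσ
    show push k (incV A) (pull k A (Finsupp.single σ 1)) = Finsupp.single σ 1
    rw [pull, Finsupp.linearCombination_single, dif_pos hσ', one_smul, push_single]
    congr 1
  | zero => simp
  | add x y _ _ hx hy => rw [map_add, map_add, hx, hy]
  | smul a x _ hx => rw [map_smul, map_smul, hx]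

lemma bd_mem (k : ℕ) (A : Set X) {z : Ch (k + 1) X} (hz : z ∈ CA (k + 1) A) :
    bd k z ∈ CA k A := by
  rw [← push_pull (k + 1) A hz, bd_push]
  exact push_mem _ _ _

lemma inter_mem (k : ℕ) (U V : Set X) {z : Ch k X} (h1 : z ∈ CA k U) (h2 : z ∈ CA k V) :
    z ∈ CA k (U ∩ V) := by
  rw [CA, Finsupp.mem_supported] at *
  intro σ hσ
  exact Set.subset_inter (h1 hσ) (h2 hσ)

lemma mono_mem (k : ℕ) {U V : Set X} (h : U ⊆ V) {z : Ch k X} (h1 : z ∈ CA k U) :
    z ∈ CA k V := by
  rw [CA, Finsupp.mem_supported] at *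
  intro σ hσ
  exact (h1 hσ).trans h

open Classical in
/-- The part of a chain in `U`. -/
noncomputable def PU (k : ℕ) (U : Set X) : Ch k X →ₗ[ℚ] Ch k X :=
  (Finsupp.supported ℚ ℚ {σ : Smp k X | Set.range σ ⊆ U}).subtype ∘ₗ
    Finsupp.restrictDom ℚ ℚ {σ : Smp k X | Set.range σ ⊆ U}

lemma PU_mem (k : ℕ) (U : Set X) (z : Ch k X) : PU k U z ∈ CA k U := by
  classical
  exact (Finsupp.restrictDom ℚ ℚ {σ : Smp k X | Set.range σ ⊆ U} z).2

lemma PU_apply (k : ℕ) (U : Set X) (z : Ch k X) (σ : Smp k X) :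
    (Set.range σ ⊆ U → PU k U z σ = z σ) ∧ (¬ Set.range σ ⊆ U → PU k U z σ = 0) := by
  classical
  have h : PU k U z = z.filter (fun σ : Smp k X => σ ∈ {σ : Smp k X | Set.range σ ⊆ U}) := by
    rw [PU, LinearMap.comp_apply, Submodule.subtype_apply]
    exact Finsupp.restrictDom_apply {σ : Smp k X | Set.range σ ⊆ U} z
  rw [h]
  constructor
  · intro hσ; exact Finsupp.filter_apply_pos _ _ hσ
  · intro hσ; exact Finsupp.filter_apply_neg _ _ hσ

/-- Small chains as a submodule. -/
noncomputable def SS (k : ℕ) (U V : Set X) : Submodule ℚ (Ch k X) :=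
  Finsupp.supported ℚ ℚ {σ : Smp k X | Set.range σ ⊆ U ∨ Set.range σ ⊆ V}

lemma small_iff (k : ℕ) (U V : Set X) (z : Ch k X) : SmallCh k U V z ↔ z ∈ SS k U V := by
  rw [SS, Finsupp.mem_supported]
  rfl

lemma CA_le_left (k : ℕ) (U V : Set X) {z : Ch k X} (h : z ∈ CA k U) : z ∈ SS k U V := by
  rw [SS, Finsupp.mem_supported]
  rw [CA, Finsupp.mem_supported] at h
  intro σ hσ
  exact Or.inl (h hσ)

lemma CA_le_right (k : ℕ) (U V : Set X) {z : Ch k X} (h : z ∈ CA k V) : z ∈ SS k U V := by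
  rw [SS, Finsupp.mem_supported]
  rw [CA, Finsupp.mem_supported] at h
  intro σ hσ
  exact Or.inr (h hσ)

lemma sub_PU_mem (k : ℕ) (U V : Set X) {z : Ch k X} (hz : z ∈ SS k U V) :
    z - PU k U z ∈ CA k V := by
  rw [SS, Finsupp.mem_supported] at hz
  rw [CA, Finsupp.mem_supported]
  intro σ hσ
  by_cases h : Set.range σ ⊆ U
  · exfalso
    rw [Finset.mem_coe, Finsupp.mem_support_iff, Finsupp.sub_apply, (PU_apply k U z σ).1 h,
      sub_self] at hσ
    exact hσ rfl
  · rw [Finset.mem_coe, Finsupp.mem_support_iff, Finsupp.sub_apply, (PU_apply k U z σ).2 h,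
      sub_zero] at hσ
    have := hz (Finset.mem_coe.2 (Finsupp.mem_support_iff.2 hσ))
    rcases this with h' | h'
    · exact absurd h' h
    · exact h'

lemma PU_inter (k : ℕ) (U V : Set X) {z : Ch k X} (hz : z ∈ CA k V) :
    PU k U z ∈ CA k (U ∩ V) := by
  refine inter_mem k U V (PU_mem k U z) ?_
  rw [CA, Finsupp.mem_supported] at hz ⊢
  intro σ hσ
  by_cases h : Set.range σ ⊆ U
  · rw [Finset.mem_coe, Finsupp.mem_support_iff, (PU_apply k U z σ).1 h] at hσ
    exact hz (Finset.mem_coe.2 (Finsupp.mem_support_iff.2 hσ))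
  · rw [Finset.mem_coe, Finsupp.mem_support_iff, (PU_apply k U z σ).2 h] at hσ
    exact absurd rfl hσ

lemma PU_self (k : ℕ) (U : Set X) {z : Ch k X} (hz : z ∈ CA k U) : PU k U z = z := by
  rw [CA, Finsupp.mem_supported] at hz
  ext σ
  by_cases h : Set.range σ ⊆ U
  · exact (PU_apply k U z σ).1 h
  · rw [(PU_apply k U z σ).2 h]
    by_contra h0
    exact h (hz (Finset.mem_coe.2 (Finsupp.mem_support_iff.2 (Ne.symm h0))))

/-! ### cycles and boundaries of subspaces -/

lemma mem_cyc_iff (k : ℕ) (A : Set X) (z : Ch k ↥A) :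
    z ∈ cyc k ↥A ↔ push k (incV A) z ∈ cyc k X := by
  cases k with
  | zero => exact ⟨fun _ => Submodule.mem_top, fun _ => Submodule.mem_top⟩
  | succ k =>
    constructor
    · intro h; exact push_mem_cyc _ _ h
    · intro h
      have h' : bd k (push (k + 1) (incV A) z) = 0 := h
      rw [bd_push] at h'
      show bd k z = 0
      exact push_inj k A (by rw [h', map_zero])

lemma mem_bdr_iff (k : ℕ) (A : Set X) (z : Ch k ↥A) :
    z ∈ bdr k ↥A ↔ ∃ w ∈ CA (k + 1) A, bd k w = push k (incV A) z := by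
  constructor
  · rintro ⟨w, rfl⟩
    exact ⟨push (k + 1) (incV A) w, push_mem _ _ _, bd_push _ _ _⟩
  · rintro ⟨w, hw, h⟩
    refine ⟨pull (k + 1) A w, push_inj k A ?_⟩
    rw [← bd_push, push_pull (k + 1) A hw, h]

lemma incV_inc {A B : Set X} (h : A ⊆ B) : (incV B).comp (inc h) = incV A := rfl

lemma push_incV_inc (k : ℕ) {A B : Set X} (h : A ⊆ B) (z : Ch k ↥A) :
    push k (incV B) (push k (inc h) z) = push k (incV A) z := by
  rw [← push_comp, incV_inc]

/-- Equality of two classes. -/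
lemma cls_eq_iff (k : ℕ) {Y : Type} [TopologicalSpace Y] (z w : ↥(cyc k Y)) :
    cls k z = cls k w ↔ (z : Ch k Y) - (w : Ch k Y) ∈ bdr k Y := by
  rw [← sub_eq_zero, ← map_sub, cls_eq_zero_iff]
  rfl

/-- Equality of the image of a class of `A` with a class of `B`. -/
lemma Hmap_inc_eq_iff (k : ℕ) {A B : Set X} (h : A ⊆ B) (a : ↥(cyc k ↥A)) (b : ↥(cyc k ↥B)) :
    Hmap k (inc h) (cls k a) = cls k b ↔
      ∃ w ∈ CA (k + 1) B, bd k w = push k (incV A) (a : Ch k ↥A) - push k (incV B) (b : Ch k ↥B) := by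
  rw [Hmap_cls, cls_eq_iff, mem_bdr_iff]
  have e : push k (incV B) ((pushCyc k (inc h) a : Ch k ↥B) - (b : Ch k ↥B)) =
      push k (incV A) (a : Ch k ↥A) - push k (incV B) (b : Ch k ↥B) := by
    rw [map_sub]
    congr 1
    exact push_incV_inc k h _
  rw [e]

/-! ### small representatives -/

section small

variable {U V : Set X}

lemma one_step (h1 : SpecOps) (h2 : SpecSmall) (hU : IsOpen U) (hV : IsOpen V)
    (hUV : U ∪ V = Set.univ) (k : ℕ) (z : Ch k X) (hz : z ∈ cyc k X) :
    ∃ w : Ch (k + 1) X, bd k w = z - sdS k X z ∧ (z ∈ SS k U V → w ∈ SS (k + 1) U V) := by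
  obtain ⟨hs0, hs1, ht, -, -⟩ := h1
  cases k with
  | zero =>
    refine ⟨0, ?_, fun _ => Submodule.zero_mem _⟩
    rw [hs0 X z, sub_self, map_zero]
  | succ k =>
    refine ⟨tS (k + 1) X z, ?_, fun hz' => ?_⟩
    · have := ht X k z
      rw [show bd k z = 0 from hz, map_zero, add_zero] at this
      exact this
    · rw [← small_iff]
      exact ((h2 X U V hU hV hUV).2 (k + 1) z ((small_iff _ _ _ _).2 hz')).2

lemma sd_cyc (h1 : SpecOps) (k : ℕ) (z : Ch k X) (hz : z ∈ cyc k X) : sdS k X z ∈ cyc k X := by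
  cases k with
  | zero => exact Submodule.mem_top
  | succ k =>
    show bd k (sdS (k + 1) X z) = 0
    rw [h1.2.1 X k z, show bd k z = 0 from hz, map_zero]

lemma sd_pow_cyc (h1 : SpecOps) (k m : ℕ) (z : Ch k X) (hz : z ∈ cyc k X) :
    ((sdS k X) ^ m) z ∈ cyc k X := by
  induction m with
  | zero => simpa using hz
  | succ m ih =>
    rw [pow_succ', Module.End.mul_apply]
    exact sd_cyc h1 k _ ih

lemma bd_sd_pow (h1 : SpecOps) (k m : ℕ) (w : Ch (k + 1) X) :
    bd k (((sdS (k + 1) X) ^ m) w) = ((sdS k X) ^ m) (bd k w) := by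
  induction m with
  | zero => simp
  | succ m ih =>
    rw [pow_succ', Module.End.mul_apply, pow_succ', Module.End.mul_apply, h1.2.1 X k, ih]

lemma iter_step (h1 : SpecOps) (h2 : SpecSmall) (hU : IsOpen U) (hV : IsOpen V)
    (hUV : U ∪ V = Set.univ) (k m : ℕ) : ∀ (z : Ch k X), z ∈ cyc k X →
    ∃ w : Ch (k + 1) X, bd k w = z - ((sdS k X) ^ m) z ∧ (z ∈ SS k U V → w ∈ SS (k + 1) U V) := by
  induction m with
  | zero => intro z hz; exact ⟨0, by simp, fun _ => Submodule.zero_mem _⟩
  | succ m ih =>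
    intro z hz
    obtain ⟨w0, hw0, hs0⟩ := one_step h1 h2 hU hV hUV k z hz
    obtain ⟨w1, hw1, hs1⟩ := ih (sdS k X z) (sd_cyc h1 k z hz)
    refine ⟨w0 + w1, ?_, fun h => Submodule.add_mem _ (hs0 h) (hs1 ?_)⟩
    · rw [map_add, hw0, hw1, pow_succ, Module.End.mul_apply]
      abel
    · rw [← small_iff]
      exact ((h2 X U V hU hV hUV).2 k z ((small_iff _ _ _ _).2 h)).1

/-- Every class has a small representative. -/
lemma exists_small (h1 : SpecOps) (h2 : SpecSmall) (hU : IsOpen U) (hV : IsOpen V)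
    (hUV : U ∪ V = Set.univ) (k : ℕ) (z : Ch k X) (hz : z ∈ cyc k X) :
    ∃ z' : Ch k X, z' ∈ cyc k X ∧ z' ∈ SS k U V ∧ z - z' ∈ bdr k X := by
  obtain ⟨m, hm⟩ := (h2 X U V hU hV hUV).1 k z
  refine ⟨((sdS k X) ^ m) z, sd_pow_cyc h1 k m z hz, (small_iff _ _ _ _).1 hm, ?_⟩
  obtain ⟨w, hw, -⟩ := iter_step h1 h2 hU hV hUV k m z hz
  exact ⟨w, hw⟩

/-- A small cycle which is a boundary is the boundary of a small chain. -/
lemma small_bd (h1 : SpecOps) (h2 : SpecSmall) (hU : IsOpen U) (hV : IsOpen V)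
    (hUV : U ∪ V = Set.univ) (k : ℕ) (z : Ch k X) (hz : z ∈ cyc k X) (hs : z ∈ SS k U V)
    (hb : z ∈ bdr k X) : ∃ w ∈ SS (k + 1) U V, bd k w = z := by
  obtain ⟨w, hw⟩ := hb
  obtain ⟨m, hm⟩ := (h2 X U V hU hV hUV).1 (k + 1) w
  obtain ⟨w1, hw1, hs1⟩ := iter_step h1 h2 hU hV hUV k m z hz
  refine ⟨((sdS (k + 1) X) ^ m) w + w1, Submodule.add_mem _ ((small_iff _ _ _ _).1 hm) (hs1 hs), ?_⟩
  rw [map_add, bd_sd_pow h1, hw, hw1]
  abel

end small

/-! ### the connecting map -/

section conn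

variable (U V : Set X)

/-- The connecting map on chains. -/
noncomputable def DD (k : ℕ) : Ch (k + 1) X →ₗ[ℚ] Ch k ↥(U ∩ V) :=
  pull k (U ∩ V) ∘ₗ bd k ∘ₗ PU (k + 1) U

variable {U V}

lemma DD_spec (k : ℕ) (z : Ch (k + 1) X) (hz : z ∈ cyc (k + 1) X) (hs : z ∈ SS (k + 1) U V) :
    push k (incV (U ∩ V)) (DD U V k z) = bd k (PU (k + 1) U z) := by
  rw [DD, LinearMap.comp_apply, LinearMap.comp_apply]
  refine push_pull k (U ∩ V) (inter_mem k U V (bd_mem k U (PU_mem _ _ _)) ?_)
  have h : bd k (PU (k + 1) U z) = - bd k (z - PU (k + 1) U z) := by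
    rw [map_sub, show bd k z = 0 from hz]
    simp
  rw [h]
  exact Submodule.neg_mem _ (bd_mem k V (sub_PU_mem (k + 1) U V hs))

lemma DD_cyc (k : ℕ) (z : Ch (k + 1) X) (hz : z ∈ cyc (k + 1) X) (hs : z ∈ SS (k + 1) U V) :
    DD U V k z ∈ cyc k ↥(U ∩ V) := by
  rw [mem_cyc_iff, DD_spec k z hz hs]
  cases k with
  | zero => exact Submodule.mem_top
  | succ k => exact bd_bd k _

/-- Small cycles. -/
noncomputable def Zs (U V : Set X) (k : ℕ) : Submodule ℚ (Ch (k + 1) X) :=
  cyc (k + 1) X ⊓ SS (k + 1) U V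

lemma mem_Zs {k : ℕ} {z : Ch (k + 1) X} (h : z ∈ cyc (k + 1) X) (h' : z ∈ SS (k + 1) U V) :
    z ∈ Zs U V k := Submodule.mem_inf.2 ⟨h, h'⟩

lemma Zs_cyc {k : ℕ} {z : Ch (k + 1) X} (h : z ∈ Zs U V k) : z ∈ cyc (k + 1) X :=
  (Submodule.mem_inf.1 h).1

lemma Zs_small {k : ℕ} {z : Ch (k + 1) X} (h : z ∈ Zs U V k) : z ∈ SS (k + 1) U V :=
  (Submodule.mem_inf.1 h).2

lemma DD_Zs {k : ℕ} {z : Ch (k + 1) X} (h : z ∈ Zs U V k) : DD U V k z ∈ cyc k ↥(U ∩ V) :=
  DD_cyc k z (Zs_cyc h) (Zs_small h)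

noncomputable def phi0 (U V : Set X) (k : ℕ) : ↥(Zs U V k) →ₗ[ℚ] ↥(cyc (k + 1) X) where
  toFun z := ⟨(z : Ch (k + 1) X), Zs_cyc z.2⟩
  map_add' _ _ := rfl
  map_smul' _ _ := rfl

noncomputable def phi (U V : Set X) (k : ℕ) : ↥(Zs U V k) →ₗ[ℚ] H (k + 1) X :=
  (cls (X := X) (k + 1)) ∘ₗ (phi0 U V k)

noncomputable def psi0 (U V : Set X) (k : ℕ) : ↥(Zs U V k) →ₗ[ℚ] ↥(cyc k ↥(U ∩ V)) where
  toFun z := ⟨DD U V k (z : Ch (k + 1) X), DD_Zs z.2⟩
  map_add' a b := Subtype.ext (map_add (DD U V k) (a : Ch (k + 1) X) (b : Ch (k + 1) X))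
  map_smul' c a := Subtype.ext (map_smul (DD U V k) c (a : Ch (k + 1) X))

noncomputable def psi (U V : Set X) (k : ℕ) : ↥(Zs U V k) →ₗ[ℚ] H k ↥(U ∩ V) :=
  (cls (X := ↥(U ∩ V)) k) ∘ₗ (psi0 U V k)

lemma phi_apply (k : ℕ) (z : Ch (k + 1) X) (h : z ∈ Zs U V k) :
    phi U V k ⟨z, h⟩ = cls (k + 1) ⟨z, Zs_cyc h⟩ := rfl

lemma psi_apply (k : ℕ) (z : Ch (k + 1) X) (h : z ∈ Zs U V k) :
    psi U V k ⟨z, h⟩ = cls k ⟨DD U V k z, DD_Zs h⟩ := rfl

lemma psi_eq_zero (h1 : SpecOps) (h2 : SpecSmall) (hU : IsOpen U) (hV : IsOpen V)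
    (hUV : U ∪ V = Set.univ) (k : ℕ) (z : ↥(Zs U V k)) (h : phi U V k z = 0) :
    psi U V k z = 0 := by
  obtain ⟨z, hz⟩ := z
  have hzc := Zs_cyc hz
  have hzs := Zs_small hz
  rw [phi_apply, cls_eq_zero_iff] at h
  rw [psi_apply, cls_eq_zero_iff, mem_bdr_iff]
  obtain ⟨w, hw, hwz⟩ := small_bd h1 h2 hU hV hUV (k + 1) z hzc hzs h
  refine ⟨PU (k + 1) U z - bd (k + 1) (PU (k + 2) U w), ?_, ?_⟩
  · refine inter_mem _ U V (Submodule.sub_mem _ (PU_mem _ _ _) (bd_mem _ _ (PU_mem _ _ _))) ?_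
    have e : PU (k + 1) U z - bd (k + 1) (PU (k + 2) U w) =
        bd (k + 1) (w - PU (k + 2) U w) - (z - PU (k + 1) U z) := by
      rw [map_sub, hwz]
      abel
    rw [e]
    exact Submodule.sub_mem _ (bd_mem _ _ (sub_PU_mem _ _ _ hw)) (sub_PU_mem _ _ _ hzs)
  · show _ = push k (incV (U ∩ V)) (DD U V k z)
    rw [DD_spec k z hzc hzs, map_sub, bd_bd, sub_zero]

lemma phi_surjective (h1 : SpecOps) (h2 : SpecSmall) (hU : IsOpen U) (hV : IsOpen V)
    (hUV : U ∪ V = Set.univ) (k : ℕ) (c : H (k + 1) X) :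
    ∃ (z : Ch (k + 1) X) (h : z ∈ Zs U V k), phi U V k ⟨z, h⟩ = c := by
  obtain ⟨z, rfl⟩ := cls_surjective (k + 1) c
  obtain ⟨z', hc, hs, hb⟩ := exists_small h1 h2 hU hV hUV (k + 1) z z.2
  refine ⟨z', mem_Zs hc hs, ?_⟩
  rw [phi_apply]
  symm
  rw [cls_eq_iff]
  exact hb

lemma exists_delta (h1 : SpecOps) (h2 : SpecSmall) (hU : IsOpen U) (hV : IsOpen V)
    (hUV : U ∪ V = Set.univ) (k : ℕ) : ∃ δ : H (k + 1) X →ₗ[ℚ] H k ↥(U ∩ V),
      ∀ z : ↥(Zs U V k), δ (phi U V k z) = psi U V k z := by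
  obtain ⟨s, hs⟩ := LinearMap.exists_rightInverse_of_surjective (phi U V k)
    (LinearMap.range_eq_top.2 (fun c => by
      obtain ⟨z, h, e⟩ := phi_surjective h1 h2 hU hV hUV k c
      exact ⟨_, e⟩))
  refine ⟨(psi U V k).comp s, fun z => ?_⟩
  have h : phi U V k (s (phi U V k z) - z) = 0 := by
    rw [map_sub]
    have := LinearMap.congr_fun hs (phi U V k z)
    simp only [LinearMap.comp_apply, LinearMap.id_apply] at this
    rw [this, sub_self]
  have := psi_eq_zero h1 h2 hU hV hUV k _ h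
  rw [map_sub, sub_eq_zero] at this
  exact this

end conn

/-! ### exactness -/

section exact

variable {U V : Set X}

lemma mvSum_cls (k : ℕ) (b : Ch k ↥U) (hb : b ∈ cyc k ↥U) (b' : Ch k ↥V) (hb' : b' ∈ cyc k ↥V) :
    mvSum k U V (cls k ⟨b, hb⟩, cls k ⟨b', hb'⟩) =
      cls k ⟨push k (incV U) b + push k (incV V) b',
        Submodule.add_mem _ (push_mem_cyc k _ hb) (push_mem_cyc k _ hb')⟩ := rfl

lemma mvDiff_apply (k : ℕ) (c : H k ↥(U ∩ V)) : mvDiff k U V c =
    (Hmap k (inc Set.inter_subset_left) c, -(Hmap k (inc Set.inter_subset_right) c)) := rfl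

lemma exists_rep (k : ℕ) {Y : Type} [TopologicalSpace Y] (c : H k Y) :
    ∃ (z : Ch k Y) (h : z ∈ cyc k Y), cls k ⟨z, h⟩ = c := by
  obtain ⟨z, rfl⟩ := cls_surjective k c
  exact ⟨z.1, z.2, rfl⟩

/-- Equality of the image of a class of `A` with a class of `B`. -/
lemma Hmap_inc_eq (k : ℕ) {A B : Set X} (h : A ⊆ B) (a : Ch k ↥A) (ha : a ∈ cyc k ↥A)
    (b : Ch k ↥B) (hb : b ∈ cyc k ↥B) :
    Hmap k (inc h) (cls k ⟨a, ha⟩) = cls k ⟨b, hb⟩ ↔
      ∃ w ∈ CA (k + 1) B, bd k w = push k (incV A) a - push k (incV B) b :=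
  Hmap_inc_eq_iff k h ⟨a, ha⟩ ⟨b, hb⟩

lemma Hmap_inc_zero (k : ℕ) {A B : Set X} (h : A ⊆ B) (a : Ch k ↥A) (ha : a ∈ cyc k ↥A) :
    Hmap k (inc h) (cls k ⟨a, ha⟩) = 0 ↔
      ∃ w ∈ CA (k + 1) B, bd k w = push k (incV A) a := by
  have e : (0 : H k ↥B) = cls k ⟨0, Submodule.zero_mem _⟩ := by
    rw [← map_zero (cls k)]; rfl
  rw [e, Hmap_inc_eq, map_zero, sub_zero]

lemma exact1 (h1 : SpecOps) (h2 : SpecSmall) (hU : IsOpen U) (hV : IsOpen V)
    (hUV : U ∪ V = Set.univ) (k : ℕ) : Function.Exact (mvDiff k U V) (mvSum k U V) := by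
  rintro ⟨p, q⟩
  constructor
  · intro h
    obtain ⟨b, hb, rfl⟩ := exists_rep k p
    obtain ⟨b', hb', rfl⟩ := exists_rep k q
    rw [mvSum_cls, cls_eq_zero_iff] at h
    have hbU := push_mem k U b
    have hbV := push_mem k V b'
    have hbc : push k (incV U) b ∈ cyc k X := push_mem_cyc k _ hb
    have hbc' : push k (incV V) b' ∈ cyc k X := push_mem_cyc k _ hb'
    obtain ⟨w, hw, hwz⟩ := small_bd h1 h2 hU hV hUV k _ (Submodule.add_mem _ hbc hbc')
      (Submodule.add_mem _ (CA_le_left k U V hbU) (CA_le_right k U V hbV)) h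
    -- the common part
    set e : Ch k X := push k (incV U) b - bd k (PU (k + 1) U w) with he
    have heU : e ∈ CA k U := Submodule.sub_mem _ hbU (bd_mem _ _ (PU_mem _ _ _))
    have heV : e ∈ CA k V := by
      have : e = bd k (w - PU (k + 1) U w) - push k (incV V) b' := by
        rw [he, map_sub, hwz]
        abel
      rw [this]
      exact Submodule.sub_mem _ (bd_mem _ _ (sub_PU_mem _ _ _ hw)) hbV
    have heI : e ∈ CA k (U ∩ V) := inter_mem k U V heU heV
    have hec : e ∈ cyc k X := Submodule.sub_mem _ hbc (bdr_le_cyc k ⟨_, rfl⟩)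
    have hpc : pull k (U ∩ V) e ∈ cyc k ↥(U ∩ V) := by
      rw [mem_cyc_iff, push_pull k _ heI]; exact hec
    refine ⟨cls k ⟨pull k (U ∩ V) e, hpc⟩, ?_⟩
    rw [mvDiff_apply]
    have hl : Hmap k (inc Set.inter_subset_left) (cls k ⟨pull k (U ∩ V) e, hpc⟩) =
        cls k ⟨b, hb⟩ := by
      rw [Hmap_inc_eq]
      refine ⟨-(PU (k + 1) U w), Submodule.neg_mem _ (PU_mem _ _ _), ?_⟩
      rw [push_pull k _ heI, map_neg, he]
      abel
    have hr : Hmap k (inc Set.inter_subset_right) (cls k ⟨pull k (U ∩ V) e, hpc⟩) =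
        cls k ⟨-b', Submodule.neg_mem _ hb'⟩ := by
      rw [Hmap_inc_eq]
      refine ⟨w - PU (k + 1) U w, sub_PU_mem _ _ _ hw, ?_⟩
      rw [push_pull k _ heI, map_neg, he, map_sub, hwz]
      abel
    rw [hl, hr]
    congr 1
    rw [neg_eq_iff_eq_neg, ← map_neg]
    rfl
  · rintro ⟨a, ha⟩
    rw [← ha, mvDiff_apply]
    have e : mvSum k U V (Hmap k (inc Set.inter_subset_left) a,
        -(Hmap k (inc Set.inter_subset_right) a)) =
        (Hmap k (incV U)) (Hmap k (inc Set.inter_subset_left) a) +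
      (Hmap k (incV V)) (-(Hmap k (inc Set.inter_subset_right) a)) := rfl
    rw [e, map_neg, ← Hmap_comp, ← Hmap_comp, incV_inc, incV_inc, add_neg_cancel]

lemma exact2 (h1 : SpecOps) (h2 : SpecSmall) (hU : IsOpen U) (hV : IsOpen V)
    (hUV : U ∪ V = Set.univ) (k : ℕ) (δ : H (k + 1) X →ₗ[ℚ] H k ↥(U ∩ V))
    (hδ : ∀ z : ↥(Zs U V k), δ (phi U V k z) = psi U V k z) :
    Function.Exact (mvSum (k + 1) U V) δ := by
  intro c
  constructor
  · intro h
    obtain ⟨z, hz, rfl⟩ := phi_surjective h1 h2 hU hV hUV k c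
    have hzc := Zs_cyc hz
    have hzs := Zs_small hz
    rw [hδ, psi_apply, cls_eq_zero_iff, mem_bdr_iff] at h
    obtain ⟨e, he, hez⟩ := h
    have hez' : bd k e = bd k (PU (k + 1) U z) := by
      rw [hez]; exact DD_spec k _ hzc hzs
    set x : Ch (k + 1) X := PU (k + 1) U z - e with hx
    set y : Ch (k + 1) X := z - PU (k + 1) U z + e with hy
    have hxU : x ∈ CA (k + 1) U := Submodule.sub_mem _ (PU_mem _ _ _)
      (mono_mem _ Set.inter_subset_left he)
    have hyV : y ∈ CA (k + 1) V := Submodule.add_mem _ (sub_PU_mem _ _ _ hzs)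
      (mono_mem _ Set.inter_subset_right he)
    have hz0 : bd k z = 0 := hzc
    have hxc : x ∈ cyc (k + 1) X := by
      show bd k x = 0
      rw [hx, map_sub, hez', sub_self]
    have hyc : y ∈ cyc (k + 1) X := by
      show bd k y = 0
      rw [hy, map_add, map_sub, hez', hz0]
      abel
    have hxp : pull (k + 1) U x ∈ cyc (k + 1) ↥U := by
      rw [mem_cyc_iff, push_pull _ _ hxU]; exact hxc
    have hyp : pull (k + 1) V y ∈ cyc (k + 1) ↥V := by
      rw [mem_cyc_iff, push_pull _ _ hyV]; exact hyc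
    refine ⟨(cls (k + 1) ⟨pull (k + 1) U x, hxp⟩, cls (k + 1) ⟨pull (k + 1) V y, hyp⟩), ?_⟩
    rw [mvSum_cls, phi_apply]
    congr 1
    apply Subtype.ext
    show push (k + 1) (incV U) (pull (k + 1) U x) + push (k + 1) (incV V) (pull (k + 1) V y) = z
    rw [push_pull _ _ hxU, push_pull _ _ hyV, hx, hy]
    abel
  · rintro ⟨⟨p, q⟩, rfl⟩
    obtain ⟨b, hb, rfl⟩ := exists_rep (k + 1) p
    obtain ⟨b', hb', rfl⟩ := exists_rep (k + 1) q
    rw [mvSum_cls]
    have hbU := push_mem (k + 1) U b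
    have hbV := push_mem (k + 1) V b'
    have hbc : push (k + 1) (incV U) b ∈ cyc (k + 1) X := push_mem_cyc (k + 1) _ hb
    have hbc' : push (k + 1) (incV V) b' ∈ cyc (k + 1) X := push_mem_cyc (k + 1) _ hb'
    have hz : push (k + 1) (incV U) b + push (k + 1) (incV V) b' ∈ Zs U V k :=
      mem_Zs (Submodule.add_mem _ hbc hbc')
        (Submodule.add_mem _ (CA_le_left _ U V hbU) (CA_le_right _ U V hbV))
    rw [← phi_apply k _ hz, hδ, psi_apply, cls_eq_zero_iff, mem_bdr_iff]
    refine ⟨PU (k + 1) U (push (k + 1) (incV V) b'), PU_inter _ U V hbV, ?_⟩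
    have hb0 : bd k (push (k + 1) (incV U) b) = 0 := hbc
    show _ = push k (incV (U ∩ V)) (DD U V k _)
    rw [DD_spec k _ (Zs_cyc hz) (Zs_small hz), map_add, map_add, PU_self _ U hbU, hb0, zero_add]

lemma exact3 (h1 : SpecOps) (h2 : SpecSmall) (hU : IsOpen U) (hV : IsOpen V)
    (hUV : U ∪ V = Set.univ) (k : ℕ) (δ : H (k + 1) X →ₗ[ℚ] H k ↥(U ∩ V))
    (hδ : ∀ z : ↥(Zs U V k), δ (phi U V k z) = psi U V k z) :
    Function.Exact δ (mvDiff k U V) := by
  intro c
  constructor
  · intro h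
    obtain ⟨a, ha, rfl⟩ := exists_rep k c
    rw [mvDiff_apply, Prod.mk_eq_zero, neg_eq_zero, Hmap_inc_zero, Hmap_inc_zero] at h
    obtain ⟨⟨b, hb, hba⟩, ⟨b', hb', hba'⟩⟩ := h
    have hs : b - b' ∈ SS (k + 1) U V :=
      Submodule.sub_mem _ (CA_le_left _ U V hb) (CA_le_right _ U V hb')
    have hc : b - b' ∈ cyc (k + 1) X := by
      show bd k (b - b') = 0
      rw [map_sub, hba, hba', sub_self]
    have hz : b - b' ∈ Zs U V k := mem_Zs hc hs
    refine ⟨phi U V k ⟨b - b', hz⟩, ?_⟩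
    rw [hδ, psi_apply, cls_eq_iff, mem_bdr_iff]
    refine ⟨-(PU (k + 1) U b'), Submodule.neg_mem _ (PU_inter _ U V hb'), ?_⟩
    show _ = push k (incV (U ∩ V)) (DD U V k (b - b') - a)
    rw [map_sub, DD_spec k _ hc hs, map_sub, map_sub, PU_self _ U hb, hba, map_neg]
    abel
  · rintro ⟨c', rfl⟩
    obtain ⟨z, hz, rfl⟩ := phi_surjective h1 h2 hU hV hUV k c'
    have hzc := Zs_cyc hz
    have hzs := Zs_small hz
    have hz0 : bd k z = 0 := hzc
    rw [hδ, psi_apply, mvDiff_apply, Prod.mk_eq_zero, neg_eq_zero, Hmap_inc_zero, Hmap_inc_zero,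
      DD_spec k _ hzc hzs]
    refine ⟨⟨PU (k + 1) U z, PU_mem _ _ _, rfl⟩,
      ⟨-(z - PU (k + 1) U z), Submodule.neg_mem _ (sub_PU_mem _ _ _ hzs), ?_⟩⟩
    rw [map_neg, map_sub, hz0]
    abel

lemma surj0 (h1 : SpecOps) (h2 : SpecSmall) (hU : IsOpen U) (hV : IsOpen V)
    (hUV : U ∪ V = Set.univ) : Function.Surjective (mvSum 0 U V) := by
  intro c
  obtain ⟨z, hz, rfl⟩ := exists_rep 0 c
  obtain ⟨z', hc, hs, hb⟩ := exists_small h1 h2 hU hV hUV 0 z hz
  have e1 : pull 0 U (PU 0 U z') ∈ cyc 0 ↥U := Submodule.mem_top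
  have e2 : pull 0 V (z' - PU 0 U z') ∈ cyc 0 ↥V := Submodule.mem_top
  refine ⟨(cls 0 ⟨pull 0 U (PU 0 U z'), e1⟩, cls 0 ⟨pull 0 V (z' - PU 0 U z'), e2⟩), ?_⟩
  rw [mvSum_cls]
  symm
  rw [cls_eq_iff]
  show z - (push 0 (incV U) (pull 0 U (PU 0 U z')) +
    push 0 (incV V) (pull 0 V (z' - PU 0 U z'))) ∈ bdr 0 X
  rw [push_pull 0 U (PU_mem _ _ _), push_pull 0 V (sub_PU_mem 0 U V hs), add_sub_cancel]
  exact hb

end exact

end Pool.Agent.SH.HMVM

namespace Pool.Agent.SH

theorem specMV (h1 : SpecOps) (h2 : SpecSmall) : SpecMV := by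
  intro X _ U V hU hV hUV
  choose δ hδ using fun k => HMVM.exists_delta h1 h2 hU hV hUV k
  exact ⟨δ, fun k => HMVM.exact1 h1 h2 hU hV hUV k,
    fun k => HMVM.exact2 h1 h2 hU hV hUV k (δ k) (hδ k),
    fun k => HMVM.exact3 h1 h2 hU hV hUV k (δ k) (hδ k), HMVM.surj0 h1 h2 hU hV hUV⟩

end Pool.Agent.SH
end

section
/-!
# Three small circles on the projective line
-/
set_option autoImplicit false
set_option linter.unusedSectionVars false

open scoped LinearAlgebra.Projectivization

namespace Pool.Agent.SH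

namespace HPAM

/-- Normalization of a nonzero complex number. -/
noncomputable def nrm (z : ℂ) (hz : z ≠ 0) : Circle :=
  ⟨z / (‖z‖ : ℂ), mem_sphere_zero_iff_norm.2 (by
    rw [norm_div, Complex.norm_real, norm_norm, div_self (norm_ne_zero_iff.mpr hz)])⟩

lemma coe_nrm (z : ℂ) (hz : z ≠ 0) : (nrm z hz : ℂ) = z / (‖z‖ : ℂ) := rfl

variable {X : Type} [TopologicalSpace X]

/-- Normalization of a nonvanishing function. -/
noncomputable def NC (f : X → ℂ) (hc : Continuous f) (h0 : ∀ x, f x ≠ 0) : C(X, Circle) :=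
  ⟨fun x => nrm (f x) (h0 x), Continuous.subtype_mk
    (hc.div (Complex.continuous_ofReal.comp hc.norm) (fun x => by
      simpa using h0 x)) _⟩

lemma NC_congr (f g : X → ℂ) (hf : Continuous f) (hg : Continuous g) (hf0 : ∀ x, f x ≠ 0)
    (hg0 : ∀ x, g x ≠ 0) (h : ∀ x, ∃ ρ : ℝ, 0 < ρ ∧ f x = (ρ : ℂ) * g x) :
    NC f hf hf0 = NC g hg hg0 := by
  ext x
  obtain ⟨ρ, hρ, hx⟩ := h x
  show f x / (‖f x‖ : ℂ) = g x / (‖g x‖ : ℂ)
  have hn : (‖g x‖ : ℂ) ≠ 0 := by simpa using hg0 x
  have hρ' : (ρ : ℂ) ≠ 0 := by exact_mod_cast hρ.ne'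
  rw [hx, norm_mul, Complex.norm_real, Real.norm_eq_abs, abs_of_pos hρ]
  push_cast
  field_simp

lemma ccoe : Continuous (fun s : Circle => (s : ℂ)) := continuous_subtype_val

lemma NC_coe (hc : Continuous (fun s : Circle => (s : ℂ))) (h0 : ∀ s : Circle, (s : ℂ) ≠ 0) :
    NC (fun s : Circle => (s : ℂ)) hc h0 = ContinuousMap.id Circle := by
  apply ContinuousMap.ext
  intro s
  apply Circle.ext
  have h1 : ((NC (fun s : Circle => (s : ℂ)) hc h0 s : Circle) : ℂ) =
      (s : ℂ) / (‖(s : ℂ)‖ : ℂ) := rfl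
  rw [h1, Circle.norm_coe, Complex.ofReal_one, div_one]
  rfl

lemma homotopic_of (F : unitInterval × X → ℂ) (hF : Continuous F) (hF0 : ∀ p, F p ≠ 0)
    (f g : X → ℂ) (hf : Continuous f) (hg : Continuous g) (hf0 : ∀ x, f x ≠ 0)
    (hg0 : ∀ x, g x ≠ 0) (h0 : ∀ x, F (0, x) = f x) (h1 : ∀ x, F (1, x) = g x) :
    ContinuousMap.Homotopic (NC f hf hf0) (NC g hg hg0) := by
  refine ⟨⟨NC F hF hF0, fun x => ?_, fun x => ?_⟩⟩
  · apply Circle.ext
    show F (0, x) / (‖F (0, x)‖ : ℂ) = f x / (‖f x‖ : ℂ)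
    rw [h0]
  · apply Circle.ext
    show F (1, x) / (‖F (1, x)‖ : ℂ) = g x / (‖g x‖ : ℂ)
    rw [h1]

lemma dog (f g : X → ℂ) (hf : Continuous f) (hg : Continuous g) (hf0 : ∀ x, f x ≠ 0)
    (hg0 : ∀ x, g x ≠ 0) (h : ∀ x, ‖f x - g x‖ < ‖g x‖) :
    ContinuousMap.Homotopic (NC f hf hf0) (NC g hg hg0) := by
  refine homotopic_of (fun p => g p.2 + ((1 - (p.1 : ℝ) : ℝ) : ℂ) * (f p.2 - g p.2)) ?_ ?_ f g
    hf hg hf0 hg0 ?_ ?_
  · have h1 : Continuous fun p : unitInterval × X => f p.2 := hf.comp continuous_snd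
    have h2 : Continuous fun p : unitInterval × X => g p.2 := hg.comp continuous_snd
    have h3 : Continuous fun p : unitInterval × X => ((1 - (p.1 : ℝ) : ℝ) : ℂ) :=
      Complex.continuous_ofReal.comp
        (continuous_const.sub (continuous_subtype_val.comp continuous_fst))
    exact h2.add (h3.mul (h1.sub h2))
  · rintro ⟨t, x⟩ h0
    have h1 : ‖g x‖ ≤ ‖f x - g x‖ := by
      have h2 : g x = -(((1 - (t : ℝ) : ℝ) : ℂ) * (f x - g x)) := by
        linear_combination h0
      have ht := t.2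
      calc ‖g x‖ = ‖((1 - (t : ℝ) : ℝ) : ℂ)‖ * ‖f x - g x‖ := by
            conv_lhs => rw [h2]
            rw [norm_neg, norm_mul]
        _ ≤ 1 * ‖f x - g x‖ := by
            refine mul_le_mul_of_nonneg_right ?_ (norm_nonneg _)
            rw [Complex.norm_real, Real.norm_eq_abs, abs_le]
            constructor <;> linarith [ht.1, ht.2]
        _ = ‖f x - g x‖ := one_mul _
    exact absurd (h x) (not_lt.mpr h1)
  · intro x; simp
  · intro x; simp

lemma rot (u : ℂ) (hu : u ≠ 0) (f : X → ℂ) (hf : Continuous f) (hf0 : ∀ x, f x ≠ 0)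
    (hg : Continuous fun x => u * f x) (hg0 : ∀ x, u * f x ≠ 0) :
    ContinuousMap.Homotopic (NC (fun x => u * f x) hg hg0) (NC f hf hf0) := by
  refine homotopic_of
    (fun p => Complex.exp (((1 - (p.1 : ℝ) : ℝ) : ℂ) * Complex.log u) * f p.2) ?_ ?_ _ f
    hg hf hg0 hf0 ?_ ?_
  · have h1 : Continuous fun p : unitInterval × X => f p.2 := hf.comp continuous_snd
    have h3 : Continuous fun p : unitInterval × X => ((1 - (p.1 : ℝ) : ℝ) : ℂ) :=
      Complex.continuous_ofReal.comp
        (continuous_const.sub (continuous_subtype_val.comp continuous_fst))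
    exact (Complex.continuous_exp.comp (h3.mul continuous_const)).mul h1
  · rintro ⟨t, x⟩
    exact mul_ne_zero (Complex.exp_ne_zero _) (hf0 x)
  · intro x; simp [Complex.exp_log hu]
  · intro x; simp

section homology

variable (h2 : SpecHtpy)

include h2

lemma loop_htpy {γ γ' : C(Circle, X)} (h : ContinuousMap.Homotopic γ γ') : loop γ = loop γ' := by
  rw [loop, loop, h2.1 _ _ _ _ h 1]

lemma loop_const (y : X) : loop (ContinuousMap.const Circle y) = 0 := by
  have h : ContinuousMap.const Circle y =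
      (ContinuousMap.const Unit y).comp (ContinuousMap.const Circle ()) := rfl
  have hs : Subsingleton (H 1 Unit) := h2.2.2.1 Unit 0
  rw [loop, h, Hmap_comp, Subsingleton.elim (Hmap 1 (ContinuousMap.const Circle ()) circ) 0,
    map_zero]

lemma loop_NC_const (u : ℂ) (hc : Continuous fun _ : Circle => u) (hu : ∀ _ : Circle, u ≠ 0) :
    loop (NC (fun _ : Circle => u) hc hu) = 0 :=
  loop_const h2 (nrm u (hu 1))

lemma loop_disc (f : Circle → ℂ) (hf : Continuous f) (hf0 : ∀ x, f x ≠ 0) (u : ℂ)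
    (h : ∀ s, ‖f s - u‖ < ‖u‖) : loop (NC f hf hf0) = 0 := by
  have hu : u ≠ 0 := by
    intro h0
    have := h 1
    rw [h0, norm_zero] at this
    exact absurd this (not_lt.mpr (norm_nonneg _))
  rw [loop_htpy h2 (dog f (fun _ => u) hf continuous_const hf0 (fun _ => hu) h)]
  exact loop_NC_const h2 u _ _

end homology

/-! ### The plane without two points -/

/-- The plane without two points. -/
abbrev PX (w : Fin 2 → ℂ) : Set ℂ := Set.univ \ ⋃ i, {w i}

lemma mem_PX (w : Fin 2 → ℂ) (x : ℂ) : x ∈ PX w ↔ ∀ i, x ≠ w i := by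
  simp only [Set.mem_sdiff, Set.mem_univ, Set.mem_iUnion, Set.mem_singleton_iff, true_and,
    not_exists, ne_eq]

/-- The normalized difference with one of the two points. -/
noncomputable def FF (w : Fin 2 → ℂ) (k : Fin 2) : C(↥(PX w), Circle) :=
  NC (fun x => (x : ℂ) - w k) (continuous_subtype_val.sub continuous_const)
    (fun x => sub_ne_zero.mpr ((mem_PX w x).mp x.2 k))

/-- The discs. -/
noncomputable def ph (w : Fin 2 → ℂ) (i : Fin 2) (p : Unit × ℂ) : ℂ :=
  OpenPartialHomeomorph.univBall (w i) ‖w 0 - w 1‖ p.2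

lemma ph_eq (w : Fin 2 → ℂ) (hw : w 0 ≠ w 1) (i : Fin 2) (p : Unit × ℂ) :
    ph w i p = w i + ((‖w 0 - w 1‖ * (Real.sqrt (1 + ‖p.2‖ ^ 2))⁻¹ : ℝ) : ℂ) * p.2 := by
  have hr : 0 < ‖w 0 - w 1‖ := norm_pos_iff.mpr (sub_ne_zero.mpr hw)
  have h : OpenPartialHomeomorph.univBall (w i) ‖w 0 - w 1‖ p.2 =
      ‖w 0 - w 1‖ • ((Real.sqrt (1 + ‖p.2‖ ^ 2))⁻¹ • p.2) + w i := by
    rw [OpenPartialHomeomorph.univBall, dif_pos hr]
    rfl
  rw [ph, h, smul_smul, Complex.real_smul, add_comm]

lemma ph_mem_ball (w : Fin 2 → ℂ) (hw : w 0 ≠ w 1) (i : Fin 2) (p : Unit × ℂ) :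
    ph w i p ∈ Metric.ball (w i) ‖w 0 - w 1‖ := by
  have hr : 0 < ‖w 0 - w 1‖ := norm_pos_iff.mpr (sub_ne_zero.mpr hw)
  rw [← OpenPartialHomeomorph.univBall_target (w i) hr]
  exact (OpenPartialHomeomorph.univBall (w i) ‖w 0 - w 1‖).map_source (by simp)

lemma norm_ne (w : Fin 2 → ℂ) (i j : Fin 2) (hij : i ≠ j) : ‖w i - w j‖ = ‖w 0 - w 1‖ := by
  fin_cases i <;> fin_cases j <;> simp_all [norm_sub_rev]

lemma tubes (w : Fin 2 → ℂ) (hw : w 0 ≠ w 1) :
    Tubes 2 (Set.univ : Set ℂ) (fun i => {w i}) (ph w) where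
  isOpen := isOpen_univ
  closed := fun j => isOpen_univ.sdiff isClosed_singleton
  tube := fun i =>
    { emb := by
        have h1 := (OpenPartialHomeomorph.univBall (w i) ‖w 0 - w 1‖).isOpenEmbedding
          (by simp)
        exact h1.comp (Homeomorph.punitProd ℂ).isOpenEmbedding
      sub := Set.subset_univ _
      cov := by
        rintro _ rfl
        exact ⟨((), 0), by simp [ph]⟩
      mem := by
        intro p
        rw [Set.mem_singleton_iff, ph_eq w hw]
        have hr : 0 < ‖w 0 - w 1‖ := norm_pos_iff.mpr (sub_ne_zero.mpr hw)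
        have hs : 0 < (Real.sqrt (1 + ‖p.2‖ ^ 2))⁻¹ := by positivity
        have hne : ((‖w 0 - w 1‖ * (Real.sqrt (1 + ‖p.2‖ ^ 2))⁻¹ : ℝ) : ℂ) ≠ 0 := by
          exact_mod_cast (mul_pos hr hs).ne'
        constructor
        · intro h
          have : ((‖w 0 - w 1‖ * (Real.sqrt (1 + ‖p.2‖ ^ 2))⁻¹ : ℝ) : ℂ) * p.2 = 0 := by
            linear_combination h
          exact (mul_eq_zero.mp this).resolve_left hne
        · intro h
          rw [h]; simp }
  disj := by
    intro i j hij
    rw [Set.disjoint_singleton_right]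
    rintro ⟨p, hp⟩
    have := ph_mem_ball w hw i p
    rw [hp, Metric.mem_ball, dist_eq_norm, norm_ne w j i (Ne.symm hij)] at this
    exact lt_irrefl _ this

lemma inj (h1 : SpecFam) (h2 : SpecHtpy) (h3 : SpecCirc) (w : Fin 2 → ℂ) (hw : w 0 ≠ w 1)
    (x : H 1 ↥(PX w)) (hx : ∀ k, Hmap 1 (FF w k) x = 0) : x = 0 := by
  have hT := tubes w hw
  obtain ⟨hm, hspan, -⟩ := h1 ℂ Unit 2 Set.univ (fun i => {w i}) (ph w) hT
  have hφ : ∀ j, Continuous (ph w j) := fun j => (hT.tube j).emb.continuous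
  have hcon : ContractibleSpace (Set.univ : Set ℂ) :=
    (Homeomorph.Set.univ ℂ).contractibleSpace
  have hsp := hspan () hφ (fun j s => hm j () s) (h2.2.2.1 _ 0)
  have hxm : x ∈ Submodule.span ℚ (Set.range fun j => loop (merid (PX w) (ph w j) (hφ j) ()
      (fun s => hm j () s))) := by
    rw [hsp]; exact Submodule.mem_top
  obtain ⟨c, hc⟩ := (Submodule.mem_span_range_iff_exists_fun ℚ).mp hxm
  have hval : ∀ k j : Fin 2, Hmap 1 (FF w k) (loop (merid (PX w) (ph w j) (hφ j) ()
      (fun s => hm j () s))) = if j = k then circ else 0 := by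
    intro k j
    have hne : ∀ s : Circle, ph w j ((), (s : ℂ)) - w k ≠ 0 := fun s =>
      sub_ne_zero.mpr ((mem_PX w _).mp (hm j () s) k)
    have hcont : Continuous fun s : Circle => ph w j ((), (s : ℂ)) - w k :=
      ((hφ j).comp (Continuous.prodMk continuous_const continuous_subtype_val)).sub
        continuous_const
    have e1 : Hmap 1 (FF w k) (loop (merid (PX w) (ph w j) (hφ j) ()
      (fun s => hm j () s))) = loop (NC (fun s : Circle => ph w j ((), (s : ℂ)) - w k)
        hcont hne) := by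
      rw [loop, ← Hmap_comp]
      rfl
    rw [e1]
    split_ifs with hjk
    · subst hjk
      have e2 : NC (fun s : Circle => ph w j ((), (s : ℂ)) - w j) hcont hne =
          ContinuousMap.id Circle := by
        rw [← NC_coe continuous_subtype_val (fun s => s.coe_ne_zero)]
        refine NC_congr _ _ _ _ _ _ fun s => ?_
        refine ⟨‖w 0 - w 1‖ * (Real.sqrt (1 + ‖(s : ℂ)‖ ^ 2))⁻¹, ?_, ?_⟩
        · have hr : 0 < ‖w 0 - w 1‖ := norm_pos_iff.mpr (sub_ne_zero.mpr hw)
          positivity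
        · rw [ph_eq w hw]
          ring
      rw [e2, loop, Hmap_id]
    · refine loop_disc h2 _ _ _ (w j - w k) fun s => ?_
      have h4 := ph_mem_ball w hw j ((), (s : ℂ))
      rw [Metric.mem_ball, dist_eq_norm] at h4
      rw [norm_ne w j k hjk]
      rwa [show ph w j ((), (s : ℂ)) - w k - (w j - w k) = ph w j ((), (s : ℂ)) - w j by ring]
  have hck : ∀ k, c k = 0 := by
    intro k
    have h5 := hx k
    rw [← hc, map_sum] at h5
    simp only [map_smul, hval, smul_ite, smul_zero, Finset.sum_ite_eq', Finset.mem_univ,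
      if_true] at h5
    exact (smul_eq_zero.mp h5).resolve_right h3.2.2.1
  rw [← hc]
  simp [hck]

/-! ### The three kinds of loops -/

section loops

variable (h2 : SpecHtpy) (h3 : SpecCirc)

include h2

lemma L1 (e c : ℂ) (hc : c ≠ 0) (he : ‖c‖ < ‖e‖)
    (hf : Continuous fun s : Circle => (e + c * (s : ℂ))⁻¹ - e⁻¹)
    (hf0 : ∀ s : Circle, (e + c * (s : ℂ))⁻¹ - e⁻¹ ≠ 0) :
    loop (NC (fun s : Circle => (e + c * (s : ℂ))⁻¹ - e⁻¹) hf hf0) = circ := by
  have he0 : e ≠ 0 := by
    intro h; rw [h, norm_zero] at he; exact absurd he (not_lt.mpr (norm_nonneg _))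
  have hn : ∀ s : Circle, ‖c * (s : ℂ)‖ = ‖c‖ := fun s => by
    rw [norm_mul, Circle.norm_coe, mul_one]
  have hd : ∀ s : Circle, e + c * (s : ℂ) ≠ 0 := by
    intro s h
    have h5 : e = -(c * (s : ℂ)) := by linear_combination h
    rw [h5, norm_neg, hn] at he
    exact lt_irrefl _ he
  have hu : (-c / e ^ 2 : ℂ) ≠ 0 := div_ne_zero (neg_ne_zero.mpr hc) (pow_ne_zero _ he0)
  have hg : Continuous fun s : Circle => (-c / e ^ 2) * (s : ℂ) :=
    continuous_const.mul continuous_subtype_val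
  have hg0 : ∀ s : Circle, (-c / e ^ 2) * (s : ℂ) ≠ 0 := fun s => mul_ne_zero hu s.coe_ne_zero
  have key : ContinuousMap.Homotopic (NC (fun s : Circle => (-c / e ^ 2) * (s : ℂ)) hg hg0)
      (NC (fun s : Circle => (e + c * (s : ℂ))⁻¹ - e⁻¹) hf hf0) := by
    refine dog _ _ _ _ _ _ fun s => ?_
    have h6 : (-c / e ^ 2) * (s : ℂ) - ((e + c * (s : ℂ))⁻¹ - e⁻¹) =
        (c * (s : ℂ) / e) * ((e + c * (s : ℂ))⁻¹ - e⁻¹) := by
      have := hd s
      field_simp
      ring
    rw [h6, norm_mul, norm_div, hn]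
    have h7 : 0 < ‖(e + c * (s : ℂ))⁻¹ - e⁻¹‖ := norm_pos_iff.mpr (hf0 s)
    have h8 : ‖c‖ / ‖e‖ < 1 := (div_lt_one (norm_pos_iff.mpr he0)).mpr he
    calc _ < 1 * ‖(e + c * (s : ℂ))⁻¹ - e⁻¹‖ := mul_lt_mul_of_pos_right h8 h7
      _ = _ := one_mul _
  have hk : ContinuousMap.Homotopic (NC (fun s : Circle => (-c / e ^ 2) * (s : ℂ)) hg hg0)
      (NC (fun s : Circle => (s : ℂ)) ccoe (fun s => Circle.coe_ne_zero s)) :=
    rot (X := Circle) (-c / e ^ 2) hu (fun s : Circle => (s : ℂ)) ccoe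
      (fun s => Circle.coe_ne_zero s) hg hg0
  rw [← loop_htpy h2 key, loop_htpy h2 hk, NC_coe, loop, Hmap_id]

lemma L2 (e b c : ℂ) (hb : b ≠ 0) (he : ‖c‖ < ‖e‖) (hbe : ‖c‖ < ‖b - e‖)
    (hf : Continuous fun s : Circle => (e + c * (s : ℂ))⁻¹ - b⁻¹)
    (hf0 : ∀ s : Circle, (e + c * (s : ℂ))⁻¹ - b⁻¹ ≠ 0) :
    loop (NC (fun s : Circle => (e + c * (s : ℂ))⁻¹ - b⁻¹) hf hf0) = 0 := by
  have he0 : e ≠ 0 := by
    intro h; rw [h, norm_zero] at he; exact absurd he (not_lt.mpr (norm_nonneg _))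
  have hn : ∀ s : Circle, ‖c * (s : ℂ)‖ = ‖c‖ := fun s => by
    rw [norm_mul, Circle.norm_coe, mul_one]
  have hd : ∀ s : Circle, e + c * (s : ℂ) ≠ 0 := by
    intro s h
    have h5 : e = -(c * (s : ℂ)) := by linear_combination h
    rw [h5, norm_neg, hn] at he
    exact lt_irrefl _ he
  have hd2 : ∀ s : Circle, b - e - c * (s : ℂ) ≠ 0 := by
    intro s h
    have h5 : b - e = (c * (s : ℂ)) := by linear_combination h
    rw [h5, hn] at hbe
    exact lt_irrefl _ hbe
  have hg : Continuous fun s : Circle => (b - e - c * (s : ℂ)) / (e * b) :=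
    (continuous_const.sub (continuous_const.mul continuous_subtype_val)).div_const _
  have hg0 : ∀ s : Circle, (b - e - c * (s : ℂ)) / (e * b) ≠ 0 := fun s =>
    div_ne_zero (hd2 s) (mul_ne_zero he0 hb)
  have key : ContinuousMap.Homotopic
      (NC (fun s : Circle => (b - e - c * (s : ℂ)) / (e * b)) hg hg0)
      (NC (fun s : Circle => (e + c * (s : ℂ))⁻¹ - b⁻¹) hf hf0) := by
    refine dog _ _ _ _ _ _ fun s => ?_
    have h6 : (b - e - c * (s : ℂ)) / (e * b) - ((e + c * (s : ℂ))⁻¹ - b⁻¹) =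
        (c * (s : ℂ) / e) * ((e + c * (s : ℂ))⁻¹ - b⁻¹) := by
      have := hd s
      field_simp
      ring
    rw [h6, norm_mul, norm_div, hn]
    have h7 : 0 < ‖(e + c * (s : ℂ))⁻¹ - b⁻¹‖ := norm_pos_iff.mpr (hf0 s)
    have h8 : ‖c‖ / ‖e‖ < 1 := (div_lt_one (norm_pos_iff.mpr he0)).mpr he
    calc _ < 1 * ‖(e + c * (s : ℂ))⁻¹ - b⁻¹‖ := mul_lt_mul_of_pos_right h8 h7
      _ = _ := one_mul _
  rw [← loop_htpy h2 key]
  refine loop_disc h2 _ _ _ ((b - e) / (e * b)) fun s => ?_
  rw [← sub_div, show b - e - c * (s : ℂ) - (b - e) = -(c * (s : ℂ)) by ring, norm_div, norm_div,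
    norm_neg, hn]
  exact div_lt_div_of_pos_right hbe (norm_pos_iff.mpr (mul_ne_zero he0 hb))

include h3

lemma L3 (b c : ℂ) (hc : c ≠ 0) (hb : ‖c‖ < ‖b‖)
    (hf : Continuous fun s : Circle => (0 + c * (s : ℂ))⁻¹ - b⁻¹)
    (hf0 : ∀ s : Circle, (0 + c * (s : ℂ))⁻¹ - b⁻¹ ≠ 0) :
    loop (NC (fun s : Circle => (0 + c * (s : ℂ))⁻¹ - b⁻¹) hf hf0) = -circ := by
  have hi : Continuous fun s : Circle => ((s⁻¹ : Circle) : ℂ) :=
    continuous_subtype_val.comp continuous_inv
  have hg : Continuous fun s : Circle => c⁻¹ * ((s⁻¹ : Circle) : ℂ) := continuous_const.mul hi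
  have hg0 : ∀ s : Circle, c⁻¹ * ((s⁻¹ : Circle) : ℂ) ≠ 0 := fun s =>
    mul_ne_zero (inv_ne_zero hc) (Circle.coe_ne_zero _)
  have key : ContinuousMap.Homotopic
      (NC (fun s : Circle => (0 + c * (s : ℂ))⁻¹ - b⁻¹) hf hf0)
      (NC (fun s : Circle => c⁻¹ * ((s⁻¹ : Circle) : ℂ)) hg hg0) := by
    refine dog _ _ _ _ _ _ fun s => ?_
    rw [zero_add, mul_inv, Circle.coe_inv, sub_sub_cancel_left, norm_neg, norm_inv, norm_mul,
      norm_inv, norm_inv, Circle.norm_coe, inv_one, mul_one]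
    exact inv_strictAnti₀ (norm_pos_iff.mpr hc) hb
  rw [loop_htpy h2 key, loop_htpy h2 (rot _ (inv_ne_zero hc) _ hi
    (fun s => Circle.coe_ne_zero _) hg hg0)]
  have e2 : NC (fun s : Circle => ((s⁻¹ : Circle) : ℂ)) hi (fun s => Circle.coe_ne_zero _) =
      (⟨fun s => s⁻¹, continuous_inv⟩ : C(Circle, Circle)) := by
    apply ContinuousMap.ext
    intro s
    apply Circle.ext
    show ((s⁻¹ : Circle) : ℂ) / (‖((s⁻¹ : Circle) : ℂ)‖ : ℂ) = ((s⁻¹ : Circle) : ℂ)
    rw [Circle.norm_coe, Complex.ofReal_one, div_one]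
  rw [e2, loop]
  exact h3.2.2.2

end loops

/-! ### Back to the projective line -/

/-- The map `w ↦ [w : 1 + b w]`, i.e. `w ↦ b + 1/w`. -/
noncomputable def psi0 (b w : ℂ) : {v : Fin 2 → ℂ // v ≠ 0} := ⟨![w, 1 + b * w], by
  intro h
  have h0 := congrFun h 0
  have h1 := congrFun h 1
  simp only [Matrix.cons_val_zero, Matrix.cons_val_one, Pi.zero_apply] at h0 h1
  rw [h0, mul_zero, add_zero] at h1
  exact one_ne_zero h1⟩

/-- The map `w ↦ b + 1/w` to the projective line. -/
noncomputable def psi (b w : ℂ) : ℙ ℂ (Fin 2 → ℂ) :=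
  Projectivization.mk ℂ (psi0 b w).1 (psi0 b w).2

lemma continuous_psi (h4 : SpecProjTop) (b : ℂ) : Continuous (psi b) := by
  refine (h4 2).1.continuous.comp (f := psi0 b) ?_
  refine Continuous.subtype_mk ?_ _
  refine continuous_pi fun i => ?_
  fin_cases i
  · exact continuous_id
  · exact continuous_const.add (continuous_const.mul continuous_id)

lemma psi_ne (b w a : ℂ) (h : w * (a - b) ≠ 1) : psi b w ≠ pt1 a := by
  intro h0
  rw [psi, pt1, Projectivization.mk_eq_mk_iff'] at h0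
  obtain ⟨t, ht⟩ := h0
  have e0 := congrFun ht 0
  have e1 := congrFun ht 1
  simp only [psi0, Pi.smul_apply, smul_eq_mul, Matrix.cons_val_zero, Matrix.cons_val_one,
    mul_one] at e0 e1
  apply h
  rw [e0] at e1
  linear_combination e1

lemma psi_eq (b m : ℂ) (h : m ≠ b) : psi b (m - b)⁻¹ = pt1 m := by
  rw [psi, pt1, Projectivization.mk_eq_mk_iff']
  refine ⟨(m - b)⁻¹, ?_⟩
  have h1 : m - b ≠ 0 := sub_ne_zero.mpr h
  funext i
  fin_cases i
  · simp [psi0]
  · simp only [psi0, Pi.smul_apply, smul_eq_mul, Fin.mk_one, Matrix.cons_val_one,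
      Matrix.cons_val_fin_one]
    field_simp
    ring

end HPAM

open HPAM in
theorem specPants (h1 : SpecFam) (h2 : SpecHtpy) (h3 : SpecCirc) (h4 : SpecProjTop) :
    SpecPants := by
  intro a c hc hca γ hγ
  have h01 : a 0 ≠ a 1 := by
    intro h
    have := hca 0 1 (by decide)
    rw [h, sub_self, norm_zero] at this
    exact absurd this (not_lt.mpr (norm_nonneg _))
  have hne : ∀ i j, i ≠ j → a i - a j ≠ 0 := by
    intro i j hij h
    have := hca i j hij
    rw [h, norm_zero] at this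
    exact absurd this (not_lt.mpr (norm_nonneg _))
  -- the two points of the plane
  set k3 : Fin 2 → Fin 3 := fun k => k.castSucc with hk3
  have hk2 : ∀ k, k3 k ≠ 2 := by decide
  set w : Fin 2 → ℂ := fun k => (a (k3 k) - a 2)⁻¹ with hwdef
  have hw : w 0 ≠ w 1 := by
    intro h
    have h5 : a 0 - a 2 = a 1 - a 2 := inv_injective h
    exact h01 (by linear_combination h5)
  -- the map to the projective line
  have hpsi : ∀ x ∈ PX w, ∀ j, psi (a 2) x ≠ pt1 (a j) := by
    intro x hx j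
    rw [mem_PX] at hx
    apply psi_ne
    intro h
    by_cases hj : j = 2
    · rw [hj, sub_self, mul_zero] at h
      exact zero_ne_one h
    · obtain ⟨k, hk⟩ : ∃ k, k3 k = j := by
        clear h
        revert j
        decide
      apply hx k
      have h6 := hne j 2 hj
      show x = (a (k3 k) - a 2)⁻¹
      rw [hk]
      exact eq_inv_of_mul_eq_one_left h
  let Ψ : C(↥(PX w), {m : ℙ ℂ (Fin 2 → ℂ) | ∀ j, m ≠ pt1 (a j)}) :=
    ⟨fun x => ⟨psi (a 2) x, hpsi x x.2⟩,
      Continuous.subtype_mk ((continuous_psi h4 (a 2)).comp continuous_subtype_val) _⟩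
  -- the loops in the plane
  have hcs : ∀ (j : Fin 3) (s : Circle), ‖c j * (s : ℂ)‖ = ‖c j‖ := fun j s => by
    rw [norm_mul, Circle.norm_coe, mul_one]
  have hden : ∀ (j : Fin 3) (s : Circle), (a j - a 2) + c j * (s : ℂ) ≠ 0 := by
    intro j s h
    by_cases hj : j = 2
    · rw [hj, sub_self, zero_add] at h
      exact mul_ne_zero (hc 2) s.coe_ne_zero h
    · have h5 : c j * (s : ℂ) = a 2 - a j := by linear_combination h
      have h6 := hca 2 j (Ne.symm hj)
      rw [← h5, hcs] at h6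
      exact lt_irrefl _ h6
  have hmem : ∀ (j : Fin 3) (s : Circle), ((a j - a 2) + c j * (s : ℂ))⁻¹ ∈ PX w := by
    intro j s
    rw [mem_PX]
    intro k h
    have h5 : (a j - a 2) + c j * (s : ℂ) = a (k3 k) - a 2 := inv_injective h
    by_cases hj : k3 k = j
    · rw [hj] at h5
      have : c j * (s : ℂ) = 0 := by linear_combination h5
      exact mul_ne_zero (hc j) s.coe_ne_zero this
    · have h6 := hca (k3 k) j hj
      have h7 : a (k3 k) - a j = c j * (s : ℂ) := by linear_combination -h5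
      rw [h7, hcs] at h6
      exact lt_irrefl _ h6
  have hcont : ∀ j : Fin 3, Continuous fun s : Circle => ((a j - a 2) + c j * (s : ℂ))⁻¹ :=
    fun j => (continuous_const.add (continuous_const.mul continuous_subtype_val)).inv₀
      (fun s => hden j s)
  let g : Fin 3 → C(Circle, ↥(PX w)) := fun j =>
    ⟨fun s => ⟨((a j - a 2) + c j * (s : ℂ))⁻¹, hmem j s⟩,
      Continuous.subtype_mk (hcont j) _⟩
  have hγg : ∀ j, γ j = Ψ.comp (g j) := by
    intro j
    apply ContinuousMap.ext
    intro s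
    apply Subtype.ext
    rw [hγ j s]
    have hm : a j + c j * (s : ℂ) ≠ a 2 := by
      intro h
      exact hden j s (by linear_combination h)
    have h8 := psi_eq (a 2) (a j + c j * (s : ℂ)) hm
    rw [← h8]
    show psi (a 2) _ = psi (a 2) ((a j - a 2) + c j * (s : ℂ))⁻¹
    congr 2
    ring
  have hsum : ∑ j, loop (γ j) = Hmap 1 Ψ (∑ j, loop (g j)) := by
    rw [map_sum]
    refine Finset.sum_congr rfl fun j _ => ?_
    rw [hγg j, loop, loop, Hmap_comp]
  have hval : ∀ (k : Fin 2) (j : Fin 3), Hmap 1 (FF w k) (loop (g j)) =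
      if j = 2 then -circ else if j = k3 k then circ else 0 := by
    intro k j
    have hcont' : Continuous fun s : Circle =>
        ((a j - a 2) + c j * (s : ℂ))⁻¹ - (a (k3 k) - a 2)⁻¹ := (hcont j).sub continuous_const
    have hne' : ∀ s : Circle, ((a j - a 2) + c j * (s : ℂ))⁻¹ - (a (k3 k) - a 2)⁻¹ ≠ 0 :=
      fun s => sub_ne_zero.mpr ((mem_PX w _).mp (hmem j s) k)
    have e1 : Hmap 1 (FF w k) (loop (g j)) = loop (NC (fun s : Circle =>
        ((a j - a 2) + c j * (s : ℂ))⁻¹ - (a (k3 k) - a 2)⁻¹) hcont' hne') := by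
      rw [loop, ← Hmap_comp]
      rfl
    rw [e1]
    split_ifs with hj hjk
    · subst hj
      have e2 : a 2 - a 2 = 0 := sub_self _
      clear e1
      revert hcont' hne'
      rw [e2]
      intro hcont' hne'
      refine L3 h2 h3 _ _ (hc 2) ?_ _ _
      exact hca _ _ (hk2 k)
    · subst hjk
      refine L1 h2 _ _ (hc _) ?_ _ _
      rw [norm_sub_rev]
      exact hca _ _ (hk2 k).symm
    · refine L2 h2 _ _ _ (hne _ _ (hk2 k)) ?_ ?_ _ _
      · rw [norm_sub_rev]
        exact hca _ _ (Ne.symm hj)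
      · rw [show a (k3 k) - a 2 - (a j - a 2) = a (k3 k) - a j by ring]
        exact hca _ _ (Ne.symm hjk)
  have hz : ∑ j, loop (g j) = 0 := by
    refine inj h1 h2 h3 w hw _ fun k => ?_
    rw [map_sum, Fin.sum_univ_three, hval, hval, hval]
    fin_cases k <;> simp [hk3]
  rw [hsum, hz, map_zero]

end Pool.Agent.SH
end
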