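import Pool.Agent.Lib.MP_8f595d_ag.SH.Spec

section
/-!
# Module HPT: topology of projective spaces
-/
set_option autoImplicit false

open scoped LinearAlgebra.Projectivization

namespace Pool.Agent.SH.HptM

/-- The projection from the nonzero vectors. -/
noncomputable def prj (n : ℕ) (v : {v : Fin n → ℂ // v ≠ 0}) : ℙ ℂ (Fin n → ℂ) :=
  Projectivization.mk ℂ v.1 v.2

lemma surj (n : ℕ) : Function.Surjective (prj n) := by
  intro p
  exact ⟨⟨p.rep, p.rep_nonzero⟩, Projectivization.mk_rep p⟩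

lemma quot (n : ℕ) : Topology.IsQuotientMap (prj n) := by
  have : prj n = (Quotient.mk (projectivizationSetoid ℂ (Fin n → ℂ)) :
      {v : Fin n → ℂ // v ≠ 0} → ℙ ℂ (Fin n → ℂ)) := rfl
  rw [this]
  exact @isQuotientMap_quot_mk _ _ _

lemma prj_eq_iff (n : ℕ) (v w : {v : Fin n → ℂ // v ≠ 0}) :
    prj n v = prj n w ↔ ∃ a : ℂˣ, (a : ℂ) • (w : Fin n → ℂ) = v :=
  Projectivization.mk_eq_mk_iff ℂ v.1 w.1 v.2 w.2

lemma open_map (n : ℕ) : IsOpenMap (prj n) := by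
  intro U hU
  rw [← (quot n).isOpen_preimage]
  have : prj n ⁻¹' (prj n '' U) =
      ⋃ a : ℂˣ, (fun w : {v : Fin n → ℂ // v ≠ 0} =>
        (⟨(a : ℂ) • (w : Fin n → ℂ), smul_ne_zero a.ne_zero w.2⟩ : {v : Fin n → ℂ // v ≠ 0})) ⁻¹'
          U := by
    ext w
    simp only [Set.mem_preimage, Set.mem_image, Set.mem_iUnion]
    constructor
    · rintro ⟨u, hu, h⟩
      obtain ⟨a, ha⟩ := (prj_eq_iff n u w).1 h
      refine ⟨a, ?_⟩
      convert hu using 1
      exact Subtype.ext ha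
    · rintro ⟨a, ha⟩
      refine ⟨_, ha, (prj_eq_iff n _ w).2 ⟨a, rfl⟩⟩
  rw [this]
  refine isOpen_iUnion fun a => hU.preimage ?_
  have hc : Continuous fun w : {v : Fin n → ℂ // v ≠ 0} => (a : ℂ) • (w : Fin n → ℂ) :=
    continuous_subtype_val.const_smul (a : ℂ)
  exact Continuous.subtype_mk hc _

lemma eq_iff_minors (n : ℕ) (v w : {v : Fin n → ℂ // v ≠ 0}) :
    prj n v = prj n w ↔ ∀ i j, v.1 i * w.1 j = v.1 j * w.1 i := by
  rw [prj_eq_iff]
  constructor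
  · rintro ⟨a, ha⟩ i j
    rw [← ha]
    simp only [Pi.smul_apply, smul_eq_mul]
    ring
  · intro h
    obtain ⟨i, hi⟩ := Function.ne_iff.1 w.2
    simp only [Pi.zero_apply] at hi
    have h1 : ∀ j, v.1 j = (v.1 i / w.1 i) * w.1 j := by
      intro j
      have := h i j
      field_simp
      linear_combination -this
    have h2 : v.1 i / w.1 i ≠ 0 := by
      intro h0
      apply v.2
      funext j
      rw [h1 j, h0]
      simp
    refine ⟨Units.mk0 _ h2, ?_⟩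
    funext j
    rw [h1 j]
    rfl

lemma t2 (n : ℕ) : T2Space (ℙ ℂ (Fin n → ℂ)) := by
  have ho : IsOpenQuotientMap (prj n) := ⟨surj n, (quot n).continuous, open_map n⟩
  rw [t2Space_iff_of_isOpenQuotientMap ho]
  have : {q : {v : Fin n → ℂ // v ≠ 0} × {v : Fin n → ℂ // v ≠ 0} | prj n q.1 = prj n q.2} =
      ⋂ i, ⋂ j, {q | q.1.1 i * q.2.1 j = q.1.1 j * q.2.1 i} := by
    ext q
    simp only [Set.mem_ofPred_eq, Set.mem_iInter]
    exact eq_iff_minors n q.1 q.2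
  rw [this]
  have c1 : ∀ i, Continuous fun q : {v : Fin n → ℂ // v ≠ 0} × {v : Fin n → ℂ // v ≠ 0} =>
      q.1.1 i := fun i => (continuous_apply i).comp (continuous_subtype_val.comp continuous_fst)
  have c2 : ∀ i, Continuous fun q : {v : Fin n → ℂ // v ≠ 0} × {v : Fin n → ℂ // v ≠ 0} =>
      q.2.1 i := fun i => (continuous_apply i).comp (continuous_subtype_val.comp continuous_snd)
  exact isClosed_iInter fun i => isClosed_iInter fun j =>
    isClosed_eq ((c1 i).mul (c2 j)) ((c1 j).mul (c2 i))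

lemma cpt (n : ℕ) : CompactSpace (ℙ ℂ (Fin n → ℂ)) := by
  have hne : ∀ v : Metric.sphere (0 : Fin n → ℂ) 1, (v : Fin n → ℂ) ≠ 0 := by
    intro v h
    have := v.2
    rw [h] at this
    simp at this
  have hs : Function.Surjective (fun v : Metric.sphere (0 : Fin n → ℂ) 1 =>
      prj n ⟨v, hne v⟩) := by
    intro p
    obtain ⟨v, rfl⟩ := surj n p
    have hv : ‖(v : Fin n → ℂ)‖ ≠ 0 := norm_ne_zero_iff.2 v.2
    refine ⟨⟨((‖(v : Fin n → ℂ)‖ : ℝ) : ℂ)⁻¹ • (v : Fin n → ℂ), ?_⟩, ?_⟩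
    · rw [mem_sphere_zero_iff_norm, norm_smul, norm_inv, Complex.norm_real, norm_norm]
      exact inv_mul_cancel₀ hv
    · refine (prj_eq_iff n _ _).2 ⟨(Units.mk0 ((‖(v : Fin n → ℂ)‖ : ℝ) : ℂ)
        (Complex.ofReal_ne_zero.2 hv))⁻¹, ?_⟩
      simp
  have hc : Continuous (fun v : Metric.sphere (0 : Fin n → ℂ) 1 => prj n ⟨v, hne v⟩) :=
    (quot n).continuous.comp (Continuous.subtype_mk continuous_subtype_val _)
  exact hs.compactSpace hc

end Pool.Agent.SH.HptM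

namespace Pool.Agent.SH

open HptM

theorem specProjTop : SpecProjTop := fun n => ⟨quot n, open_map n, cpt n, t2 n⟩

end Pool.Agent.SH
end

section
/-!
# Module HSH: shrinking tubes
-/
set_option autoImplicit false

namespace Pool.Agent.SH.HshM

variable {T : Type} [TopologicalSpace T]

lemma cont_shr (ρ : C(T, ℝ)) : Continuous (shr ρ) := by
  unfold shr
  refine continuous_fst.prodMk (Continuous.mul ?_ continuous_snd)
  refine Complex.continuous_ofReal.comp (Continuous.div (ρ.continuous.comp continuous_fst)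
    (continuous_const.add continuous_snd.norm) ?_)
  intro p
  have := norm_nonneg p.2
  positivity

lemma norm_shr {ρ : C(T, ℝ)} (hρ : ∀ z, 0 < ρ z) (p : T × ℂ) :
    ‖(shr ρ p).2‖ = ρ p.1 * ‖p.2‖ / (1 + ‖p.2‖) := by
  have h1 := norm_nonneg p.2
  have h2 := hρ p.1
  simp only [shr, norm_mul, Complex.norm_real, Real.norm_eq_abs]
  rw [abs_of_pos (by positivity)]
  ring

lemma norm_shr_lt {ρ : C(T, ℝ)} (hρ : ∀ z, 0 < ρ z) (p : T × ℂ) :
    ‖(shr ρ p).2‖ < ρ p.1 := by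
  rw [norm_shr hρ]
  have h1 := norm_nonneg p.2
  have h2 := hρ p.1
  rw [div_lt_iff₀ (by positivity)]
  nlinarith

/-- The rescaling is a homeomorphism onto the disc bundle of radius `ρ`. -/
noncomputable def shrHomeo (ρ : C(T, ℝ)) (hρ : ∀ z, 0 < ρ z) :
    (T × ℂ) ≃ₜ {p : T × ℂ // ‖p.2‖ < ρ p.1} where
  toFun p := ⟨shr ρ p, norm_shr_lt hρ p⟩
  invFun q := (q.1.1, ((ρ q.1.1 - ‖q.1.2‖ : ℝ) : ℂ)⁻¹ * q.1.2)
  left_inv p := by
    have h1 := norm_nonneg p.2
    have h2 := hρ p.1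
    have h3 := norm_shr hρ p
    refine Prod.ext rfl ?_
    show ((ρ p.1 - ‖(shr ρ p).2‖ : ℝ) : ℂ)⁻¹ * (shr ρ p).2 = p.2
    rw [h3]
    simp only [shr]
    rw [← mul_assoc, ← Complex.ofReal_inv, ← Complex.ofReal_mul]
    have h4 : (ρ p.1 - ρ p.1 * ‖p.2‖ / (1 + ‖p.2‖))⁻¹ * (ρ p.1 / (1 + ‖p.2‖)) = 1 := by
      have h5 : ρ p.1 - ρ p.1 * ‖p.2‖ / (1 + ‖p.2‖) = ρ p.1 / (1 + ‖p.2‖) := by
        field_simp
        ring
      rw [h5]
      exact inv_mul_cancel₀ (by positivity)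
    rw [h4]
    simp
  right_inv q := by
    obtain ⟨⟨z, s⟩, hq⟩ := q
    simp only at hq
    have h1 := norm_nonneg s
    have h2 := hρ z
    apply Subtype.ext
    refine Prod.ext rfl ?_
    show (shr ρ (z, ((ρ z - ‖s‖ : ℝ) : ℂ)⁻¹ * s)).2 = s
    simp only [shr]
    rw [norm_mul, norm_inv, Complex.norm_real, Real.norm_eq_abs, abs_of_pos (sub_pos.2 hq)]
    rw [← mul_assoc, ← Complex.ofReal_inv, ← Complex.ofReal_mul]
    have h4 : (ρ z / (1 + (ρ z - ‖s‖)⁻¹ * ‖s‖)) * (ρ z - ‖s‖)⁻¹ = 1 := by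
      have h5 : 0 < ρ z - ‖s‖ := sub_pos.2 hq
      have h6 : 1 + (ρ z - ‖s‖)⁻¹ * ‖s‖ = ρ z * (ρ z - ‖s‖)⁻¹ := by
        field_simp
        ring
      rw [h6]
      field_simp
    rw [h4]
    simp
  continuous_toFun := (cont_shr ρ).subtype_mk _
  continuous_invFun := by
    refine (continuous_fst.comp continuous_subtype_val).prodMk (Continuous.mul ?_
      (continuous_snd.comp continuous_subtype_val))
    refine Continuous.inv₀ (Complex.continuous_ofReal.comp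
      ((ρ.continuous.comp (continuous_fst.comp continuous_subtype_val)).sub
        (continuous_snd.comp continuous_subtype_val).norm)) ?_
    intro q
    have := sub_pos.2 q.2
    exact Complex.ofReal_ne_zero.2 this.ne'

lemma emb_shr (ρ : C(T, ℝ)) (hρ : ∀ z, 0 < ρ z) : Topology.IsOpenEmbedding (shr ρ) := by
  have ho : IsOpen {p : T × ℂ | ‖p.2‖ < ρ p.1} :=
    isOpen_lt continuous_snd.norm (ρ.continuous.comp continuous_fst)
  exact (ho.isOpenEmbedding_subtypeVal).comp (shrHomeo ρ hρ).isOpenEmbedding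

lemma shr_eq_zero {ρ : C(T, ℝ)} (hρ : ∀ z, 0 < ρ z) (p : T × ℂ) :
    (shr ρ p).2 = 0 ↔ p.2 = 0 := by
  have h1 := norm_nonneg p.2
  have h2 := hρ p.1
  have h3 : ((ρ p.1 / (1 + ‖p.2‖) : ℝ) : ℂ) ≠ 0 := Complex.ofReal_ne_zero.2 (by positivity)
  show ((ρ p.1 / (1 + ‖p.2‖) : ℝ) : ℂ) * p.2 = 0 ↔ p.2 = 0
  rw [mul_eq_zero]
  constructor
  · rintro (h | h)
    · exact absurd h h3
    · exact h
  · intro h
    exact Or.inr h

end Pool.Agent.SH.HshM

namespace Pool.Agent.SH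

open HshM

theorem specShrink : SpecShrink := by
  intro V T _ _ A C Z Ω φ hφ hA hAZ hZC
  -- the good open set
  have hGo : IsOpen {p : T × ℂ | p ∈ Ω ∧ φ p ∈ A \ Z} := by
    have h1 : IsOpen ((Ω.domRestrict φ) ⁻¹' (A \ Z)) := hAZ.preimage hφ.emb.continuous
    have h2 := hφ.isOpen.isOpenEmbedding_subtypeVal.isOpenMap _ h1
    convert h2 using 1
    ext p
    constructor
    · rintro ⟨hp, h⟩
      exact ⟨⟨p, hp⟩, h, rfl⟩
    · rintro ⟨q, hq, rfl⟩
      exact ⟨q.2, hq⟩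
  set G : Set (T × ℂ) := {p : T × ℂ | p ∈ Ω ∧ φ p ∈ A \ Z} with hG
  have hz0 : ∀ z : T, (z, (0 : ℂ)) ∈ G := by
    intro z
    have h1 := hφ.zero z
    refine ⟨h1, hφ.sub ⟨_, h1, rfl⟩, fun h => ?_⟩
    exact Set.disjoint_left.1 hZC h ((hφ.mem _ h1).2 rfl)
  obtain ⟨r, hr0, hrG⟩ : ∃ r : C(T, ℝ), (∀ z, 0 < r z) ∧
      ∀ (z : T) (s : ℂ), ‖s‖ < r z → (z, s) ∈ G := by
    by_cases hne : (Gᶜ : Set (T × ℂ)).Nonempty
    · refine ⟨⟨fun z => Metric.infDist (z, (0 : ℂ)) Gᶜ,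
        (Metric.continuous_infDist_pt _).comp (continuous_id.prodMk continuous_const)⟩, ?_, ?_⟩
      · intro z
        exact (hGo.isClosed_compl.notMem_iff_infDist_pos hne).1 (fun h => h (hz0 z))
      · intro z s hs
        by_contra h
        have h1 : Metric.infDist (z, (0 : ℂ)) Gᶜ ≤ dist (z, (0 : ℂ)) (z, s) :=
          Metric.infDist_le_dist_of_mem h
        rw [Prod.dist_eq, dist_self, dist_zero_left, max_eq_right (norm_nonneg _)] at h1
        exact absurd hs (not_lt.2 h1)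
    · refine ⟨⟨fun _ => 1, continuous_const⟩, fun _ => one_pos, fun z s _ => ?_⟩
      by_contra h
      exact hne ⟨_, h⟩
  refine ⟨r, hr0, fun ρ hρ => ?_⟩
  have hρ0 : ∀ z, 0 < ρ z := fun z => (hρ z).1
  have hmem : ∀ p : T × ℂ, shr ρ p ∈ G := fun p =>
    hrG p.1 _ (lt_of_lt_of_le (norm_shr_lt hρ0 p) (hρ p.1).2)
  refine ⟨?_, ?_, ?_, ?_⟩
  · have h1 : Topology.IsOpenEmbedding (fun p : T × ℂ => (⟨shr ρ p, (hmem p).1⟩ : Ω)) := by
      have h2 := (hφ.isOpen.isOpenEmbedding_subtypeVal).of_comp_iff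
        (fun p : T × ℂ => (⟨shr ρ p, (hmem p).1⟩ : Ω))
      exact h2.1 (emb_shr ρ hρ0)
    exact hφ.emb.comp h1
  · rintro _ ⟨p, rfl⟩
    exact (hmem p).2
  · intro c hc
    obtain ⟨q, hq, rfl⟩ := hφ.cov hc
    have h0 := (hφ.mem q hq).1 hc
    refine ⟨q, ?_⟩
    have : shr ρ q = q := by
      refine Prod.ext rfl ?_
      rw [h0]
      exact (shr_eq_zero hρ0 q).2 h0
    simp only [this]
  · intro p
    rw [hφ.mem _ (hmem p).1]
    exact shr_eq_zero hρ0 p

end Pool.Agent.SH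
end
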