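import Pool.Agent.Lib.MP_8f595d_ag.SH.HPA

/-! # Small chains (module HSM) -/

set_option autoImplicit false

namespace Pool.Agent.SH.HSM

open HLC HRE HSD HOP HDI

variable {X : Type} [TopologicalSpace X] (U V : Set X)

/-- simplices contained in `U` or in `V` -/
def Sml (k : ℕ) (U V : Set X) : Set (Smp k X) :=
  {σ | Set.range σ ⊆ U ∨ Set.range σ ⊆ V}

theorem smallCh_iff (k : ℕ) (z : Ch k X) :
    SmallCh k U V z ↔ z ∈ Finsupp.supported ℚ ℚ (Sml k U V) := by
  rw [Finsupp.mem_supported]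
  exact Iff.rfl

theorem push_small {k l : ℕ} (σ : Smp k X) (hσ : σ ∈ Sml k U V) (c : Ch l (Dl k)) :
    push l σ c ∈ Finsupp.supported ℚ ℚ (Sml l U V) := by
  refine sup_of_single (push l σ) Set.univ _ ?_ c ?_
  · intro w _
    rw [push_single]
    apply single_mem
    rcases hσ with hσ | hσ
    · left
      rintro _ ⟨t, rfl⟩
      exact hσ ⟨w t, rfl⟩
    · right
      rintro _ ⟨t, rfl⟩
      exact hσ ⟨w t, rfl⟩
  · rw [Finsupp.mem_supported]
    exact Set.subset_univ _

theorem sdS_small (k : ℕ) (c : Ch k X) (hc : c ∈ Finsupp.supported ℚ ℚ (Sml k U V)) :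
    sdS k X c ∈ Finsupp.supported ℚ ℚ (Sml k U V) := by
  refine sup_of_single (sdS k X) _ _ ?_ c hc
  intro σ hσ
  rw [sdS_single]
  exact push_small U V σ hσ _

theorem tS_small (k : ℕ) (c : Ch k X) (hc : c ∈ Finsupp.supported ℚ ℚ (Sml k U V)) :
    tS k X c ∈ Finsupp.supported ℚ ℚ (Sml (k + 1) U V) := by
  refine sup_of_single (tS k X) _ _ ?_ c hc
  intro σ hσ
  rw [tS_single]
  exact push_small U V σ hσ _

theorem bd_small (k : ℕ) (c : Ch (k + 1) X)
    (hc : c ∈ Finsupp.supported ℚ ℚ (Sml (k + 1) U V)) :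
    bd k c ∈ Finsupp.supported ℚ ℚ (Sml k U V) := by
  refine sup_of_single (bd k) _ _ ?_ c hc
  intro σ hσ
  rw [single_eq, bd_push]
  exact push_small U V σ hσ _

theorem sdS_iter_small (k m : ℕ) (c : Ch k X) (hc : c ∈ Finsupp.supported ℚ ℚ (Sml k U V)) :
    ((sdS k X) ^ m) c ∈ Finsupp.supported ℚ ℚ (Sml k U V) := by
  induction m with
  | zero => exact hc
  | succ m ih =>
    rw [pow_succ', Module.End.mul_apply]
    exact sdS_small U V k _ ih

variable {U V}

theorem exists_small_single (hU : IsOpen U) (hV : IsOpen V) (hUV : U ∪ V = Set.univ) (k : ℕ)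
    (σ : Smp k X) : ∃ N₀, ∀ N, N₀ ≤ N → ∀ a : ℚ,
      ((sdS k X) ^ N) (Finsupp.single σ a) ∈ Finsupp.supported ℚ ℚ (Sml k U V) := by
  classical
  -- Lebesgue number
  obtain ⟨δ, hδ, hδ2⟩ := lebesgue_number_lemma_of_metric (α := Dl k) (s := Set.univ)
    (c := fun b : Bool => if b then σ ⁻¹' U else σ ⁻¹' V) isCompact_univ
    (by
      intro b
      cases b
      · exact hV.preimage σ.continuous
      · exact hU.preimage σ.continuous)
    (by
      intro x _
      have hx : σ x ∈ U ∪ V := by rw [hUV]; trivial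
      rcases hx with hx | hx
      · exact Set.mem_iUnion.mpr ⟨true, hx⟩
      · exact Set.mem_iUnion.mpr ⟨false, hx⟩)
  -- mesh
  have hlt : (k : ℝ) / (k + 1) < 1 := by
    rw [div_lt_one (by positivity)]
    linarith
  have hlim := (tendsto_pow_atTop_nhds_zero_of_lt_one (r := (k : ℝ) / (k + 1))
    (by positivity) hlt)
  have hev := hlim.eventually (gt_mem_nhds hδ)
  obtain ⟨N₀, hN₀⟩ := Filter.eventually_atTop.mp hev
  refine ⟨N₀, ?_⟩
  intro N hN a
  have hv : ∀ i j, dist (vert k i) (vert k j) ≤ 1 := by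
    intro i j
    rw [Subtype.dist_eq, dist_pi_le_iff zero_le_one]
    intro l
    have h1 : (vert k i).1 l = if l = i then 1 else 0 := vert_apply k i l
    have h2 : (vert k j).1 l = if l = j then 1 else 0 := vert_apply k j l
    rw [h1, h2, Real.dist_eq]
    split_ifs <;> norm_num
  rw [single_eq, sdS_iter_push, sdS_iter_real]
  have h1 := Sd_iter_mesh k N (vert k) 1 hv a
  rw [mul_one] at h1
  refine sup_of_single ((push k σ).comp (real (convex_Dl k) k)) _ _ ?_ _ h1
  intro w hw
  rw [LinearMap.comp_apply, real_single, push_single]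
  apply single_mem
  obtain ⟨b, hb⟩ := hδ2 (w 0) (Set.mem_univ _)
  have hball : ∀ t, aff (convex_Dl k) k w t ∈ Metric.ball (w 0) δ := by
    intro t
    rw [Metric.mem_ball]
    exact lt_of_le_of_lt (aff_dist_le _ k w _ (w 0) (fun i => hw i 0) t) (hN₀ N hN)
  cases b with
  | true =>
    left
    rintro _ ⟨t, rfl⟩
    have := hb (hball t)
    simpa using this
  | false =>
    right
    rintro _ ⟨t, rfl⟩
    have := hb (hball t)
    simpa using this

theorem exists_small (hU : IsOpen U) (hV : IsOpen V) (hUV : U ∪ V = Set.univ) (k : ℕ)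
    (c : Ch k X) : ∃ N₀, ∀ N, N₀ ≤ N →
      ((sdS k X) ^ N) c ∈ Finsupp.supported ℚ ℚ (Sml k U V) := by
  induction c using Finsupp.induction_linear with
  | zero => exact ⟨0, fun N _ => by rw [map_zero]; exact Submodule.zero_mem _⟩
  | add f g hf hg =>
    obtain ⟨N1, h1⟩ := hf
    obtain ⟨N2, h2⟩ := hg
    refine ⟨max N1 N2, fun N hN => ?_⟩
    rw [map_add]
    exact Submodule.add_mem _ (h1 N (le_trans (le_max_left _ _) hN))
      (h2 N (le_trans (le_max_right _ _) hN))
  | single σ a =>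
    obtain ⟨N₀, h⟩ := exists_small_single hU hV hUV k σ
    exact ⟨N₀, fun N hN => h N hN a⟩

end Pool.Agent.SH.HSM

namespace Pool.Agent.SH

open HSM in
theorem specSmall (_h1 : SpecReal) (_h2 : SpecOps) (_h3 : SpecDiam) : SpecSmall := by
  intro X _ U V hU hV hUV
  refine ⟨fun k z => ?_, fun k z hz => ?_⟩
  · obtain ⟨N, hN⟩ := exists_small hU hV hUV k z
    exact ⟨N, (smallCh_iff U V k _).mpr (hN N le_rfl)⟩
  · rw [smallCh_iff] at hz
    exact ⟨(smallCh_iff U V k _).mpr (sdS_small U V k z hz),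
      (smallCh_iff U V (k + 1) _).mpr (tS_small U V k z hz)⟩

end Pool.Agent.SH
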