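import Mathlib

/-!
# Elementary rational singular homology: definitions

Chains with rational coefficients are finitely supported functions on the set of continuous maps
from the standard simplex.  `H k X` is the quotient of cycles by boundaries.
-/

set_option autoImplicit false

open Finset

namespace Pool.Agent.SH

/-- The standard `k`-simplex (as a topological space). -/
abbrev Dl (k : ℕ) : Type := stdSimplex ℝ (Fin (k + 1))

/-- Singular `k`-simplices of `X`. -/
abbrev Smp (k : ℕ) (X : Type) [TopologicalSpace X] : Type := C(Dl k, X)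

/-- Singular `k`-chains with rational coefficients. -/
abbrev Ch (k : ℕ) (X : Type) [TopologicalSpace X] : Type := Smp k X →₀ ℚ

/-- The `i`-th face map `Δ^k → Δ^{k+1}`. -/
noncomputable def face (k : ℕ) (i : Fin (k + 2)) : C(Dl k, Dl (k + 1)) :=
  ⟨stdSimplex.map (Fin.succAbove i), stdSimplex.continuous_map _⟩

variable {X Y Z : Type} [TopologicalSpace X] [TopologicalSpace Y] [TopologicalSpace Z]

/-- The boundary operator on a singular simplex. -/
noncomputable def bdS (k : ℕ) (σ : Smp (k + 1) X) : Ch k X :=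
  ∑ i : Fin (k + 2), ((-1 : ℚ) ^ (i : ℕ)) • Finsupp.single (σ.comp (face k i)) (1 : ℚ)

/-- The boundary operator `C_{k+1}(X) → C_k(X)`. -/
noncomputable def bd (k : ℕ) : Ch (k + 1) X →ₗ[ℚ] Ch k X :=
  Finsupp.linearCombination ℚ (bdS k)

/-- Push-forward of chains by a continuous map. -/
noncomputable def push (k : ℕ) (f : C(X, Y)) : Ch k X →ₗ[ℚ] Ch k Y :=
  Finsupp.lmapDomain ℚ ℚ (fun σ : Smp k X => f.comp σ)

@[simp] lemma bd_single (k : ℕ) (σ : Smp (k + 1) X) (a : ℚ) :
    bd k (Finsupp.single σ a) = a • bdS k σ := by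
  simp [bd]

@[simp] lemma push_single (k : ℕ) (f : C(X, Y)) (σ : Smp k X) (a : ℚ) :
    push k f (Finsupp.single σ a) = Finsupp.single (f.comp σ) a := by
  simp [push]

lemma push_id (k : ℕ) (z : Ch k X) : push k (ContinuousMap.id X) z = z := by
  induction z using Finsupp.induction_linear with
  | zero => simp
  | add f g hf hg => rw [map_add, hf, hg]
  | single a b => simp

lemma push_comp (k : ℕ) (g : C(Y, Z)) (f : C(X, Y)) (z : Ch k X) :
    push k (g.comp f) z = push k g (push k f z) := by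
  induction z using Finsupp.induction_linear with
  | zero => simp
  | add f g hf hg => simp only [map_add, hf, hg]
  | single a b => simp [ContinuousMap.comp_assoc]

lemma bd_push (k : ℕ) (f : C(X, Y)) (z : Ch (k + 1) X) :
    bd k (push (k + 1) f z) = push k f (bd k z) := by
  induction z using Finsupp.induction_linear with
  | zero => simp
  | add f g hf hg => simp only [map_add, hf, hg]
  | single a b => simp [bdS, map_sum, ContinuousMap.comp_assoc]

lemma face_comp_face (k : ℕ) (i : Fin (k + 2)) (j : Fin (k + 3)) (h : (i.castSucc : Fin (k + 3)) < j) :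
    (face (k + 1) j).comp (face k i) =
      (face (k + 1) i.castSucc).comp (face k (j.pred (by
        intro h0; subst h0; exact absurd h (Fin.not_lt_zero _)))) := by
  ext1 t
  apply Subtype.ext
  show (stdSimplex.map _ (stdSimplex.map _ t)).1 = (stdSimplex.map _ (stdSimplex.map _ t)).1
  rw [stdSimplex.map_comp_apply, stdSimplex.map_comp_apply]
  congr 2
  funext x
  apply Fin.ext
  simp only [Function.comp_apply, Fin.succAbove, Fin.lt_def, Fin.val_castSucc, Fin.val_pred]
  rw [Fin.lt_def] at h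
  simp only [Fin.val_castSucc] at h
  have hx := x.2
  split_ifs <;> simp_all <;> omega


lemma bd_bdS (k : ℕ) (σ : Smp (k + 2) X) : bd k (bdS (k + 1) σ) = 0 := by
  classical
  have h1 : bd k (bdS (k + 1) σ) = ∑ p : Fin (k + 3) × Fin (k + 2),
      ((-1 : ℚ) ^ ((p.1 : ℕ) + (p.2 : ℕ))) •
        Finsupp.single ((σ.comp (face (k + 1) p.1)).comp (face k p.2)) (1 : ℚ) := by
    rw [Fintype.sum_prod_type]
    simp only [bdS, map_sum, map_smul, bd_single, Finset.smul_sum, smul_smul, pow_add, one_mul]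
  rw [h1]
  rw [← Finset.sum_filter_add_sum_filter_not Finset.univ
    (fun p : Fin (k + 3) × Fin (k + 2) => p.2.castSucc < p.1)]
  rw [add_comm, ← eq_neg_iff_add_eq_zero, ← Finset.sum_neg_distrib]
  symm
  refine Finset.sum_bij' (fun p hp => (p.2.castSucc, p.1.pred (by
      intro h0; simp only [Finset.mem_filter, Finset.mem_univ, true_and] at hp
      rw [h0] at hp; exact absurd hp (Fin.not_lt_zero _))))
    (fun p hp => (p.2.succ, p.1.castLT (by
      simp only [Finset.mem_filter, Finset.mem_univ, true_and, not_lt, Fin.le_def,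
        Fin.val_castSucc] at hp
      have := p.2.2
      omega))) ?_ ?_ ?_ ?_ ?_
  · intro p hp
    simp only [Finset.mem_filter, Finset.mem_univ, true_and, not_lt, Fin.lt_def,
      Fin.val_castSucc, Fin.val_pred] at hp ⊢
    omega
  · intro p hp
    simp only [Finset.mem_filter, Finset.mem_univ, true_and, not_lt, Fin.lt_def,
      Fin.val_castSucc, Fin.val_castLT, Fin.val_succ] at hp ⊢
    omega
  · intro p hp
    ext <;> simp
  · intro p hp
    ext <;> simp
  · intro p hp
    simp only [Finset.mem_filter, Finset.mem_univ, true_and] at hp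
    have hc := face_comp_face k p.2 p.1 hp
    simp only [ContinuousMap.comp_assoc]
    rw [hc, ← neg_smul]
    congr 1
    have h2 : 0 < (p.1 : ℕ) := by
      rw [Fin.lt_def] at hp; omega
    simp only [Fin.val_castSucc, Fin.val_pred]
    obtain ⟨n, hn⟩ : ∃ n, (p.1 : ℕ) = n + 1 := ⟨(p.1 : ℕ) - 1, by omega⟩
    rw [hn]
    simp only [Nat.add_sub_cancel]
    ring

lemma bd_bd (k : ℕ) (z : Ch (k + 2) X) : bd k (bd (k + 1) z) = 0 := by
  induction z using Finsupp.induction_linear with
  | zero => simp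
  | add f g hf hg => simp only [map_add, hf, hg, add_zero]
  | single a b => rw [bd_single, map_smul, bd_bdS, smul_zero]

/-- Cycles. -/
noncomputable def cyc : (k : ℕ) → (X : Type) → [TopologicalSpace X] → Submodule ℚ (Ch k X)
  | 0, _, _ => ⊤
  | k + 1, _, _ => LinearMap.ker (bd k)

/-- Boundaries. -/
noncomputable def bdr (k : ℕ) (X : Type) [TopologicalSpace X] : Submodule ℚ (Ch k X) :=
  LinearMap.range (bd k)

lemma bdr_le_cyc (k : ℕ) : bdr k X ≤ cyc k X := by
  cases k with
  | zero => exact le_top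
  | succ k =>
    rintro _ ⟨w, rfl⟩
    exact bd_bd k w

lemma push_mem_cyc (k : ℕ) (f : C(X, Y)) {z : Ch k X} (hz : z ∈ cyc k X) :
    push k f z ∈ cyc k Y := by
  cases k with
  | zero => exact Submodule.mem_top
  | succ k =>
    show bd k (push (k + 1) f z) = 0
    rw [bd_push, show bd k z = 0 from hz, map_zero]

lemma push_mem_bdr (k : ℕ) (f : C(X, Y)) {z : Ch k X} (hz : z ∈ bdr k X) :
    push k f z ∈ bdr k Y := by
  obtain ⟨w, rfl⟩ := hz
  exact ⟨push (k + 1) f w, bd_push k f w⟩

/-- Rational singular homology: cycles modulo boundaries. -/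
abbrev H (k : ℕ) (X : Type) [TopologicalSpace X] : Type :=
  ↥(cyc k X) ⧸ (bdr k X).comap (cyc k X).subtype

/-- The class of a cycle. -/
noncomputable def cls (k : ℕ) : ↥(cyc k X) →ₗ[ℚ] H k X := Submodule.mkQ _

/-- Push-forward on cycles. -/
noncomputable def pushCyc (k : ℕ) (f : C(X, Y)) : ↥(cyc k X) →ₗ[ℚ] ↥(cyc k Y) :=
  (push k f).restrict (fun _ hz => push_mem_cyc k f hz)

/-- Push-forward on homology. -/
noncomputable def Hmap (k : ℕ) (f : C(X, Y)) : H k X →ₗ[ℚ] H k Y :=
  Submodule.mapQ _ _ (pushCyc k f) (fun z hz => push_mem_bdr k f (z := (z : Ch k X)) hz)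

@[simp] lemma Hmap_cls (k : ℕ) (f : C(X, Y)) (z : ↥(cyc k X)) :
    Hmap k f (cls k z) = cls k (pushCyc k f z) := rfl

lemma cls_surjective (k : ℕ) : Function.Surjective (cls k : ↥(cyc k X) →ₗ[ℚ] H k X) :=
  Submodule.mkQ_surjective _

lemma cls_eq_zero_iff (k : ℕ) (z : ↥(cyc k X)) : cls k z = 0 ↔ (z : Ch k X) ∈ bdr k X := by
  rw [cls, Submodule.mkQ_apply, Submodule.Quotient.mk_eq_zero]
  rfl

lemma Hmap_id (k : ℕ) (c : H k X) : Hmap k (ContinuousMap.id X) c = c := by
  obtain ⟨z, rfl⟩ := cls_surjective k c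
  rw [Hmap_cls]
  congr 1
  exact Subtype.ext (push_id k _)

lemma Hmap_comp (k : ℕ) (g : C(Y, Z)) (f : C(X, Y)) (c : H k X) :
    Hmap k (g.comp f) c = Hmap k g (Hmap k f c) := by
  obtain ⟨z, rfl⟩ := cls_surjective k c
  rw [Hmap_cls, Hmap_cls, Hmap_cls]
  congr 1
  exact Subtype.ext (push_comp k g f _)

/-- The inclusion of a subset in a bigger subset, as a continuous map. -/
def inc {V : Type} [TopologicalSpace V] {A B : Set V} (h : A ⊆ B) : C(↥A, ↥B) :=
  ⟨Set.inclusion h, continuous_inclusion h⟩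

/-- The inclusion of a subset in the space. -/
def incV {V : Type} [TopologicalSpace V] (A : Set V) : C(↥A, V) :=
  ⟨Subtype.val, continuous_subtype_val⟩

/-! ### Linear chains -/

/-- Linear `k`-chains with vertices in `K`. -/
abbrev LC (K : Type) (k : ℕ) : Type := (Fin (k + 1) → K) →₀ ℚ

variable {K L : Type}

/-- Boundary of a linear simplex. -/
noncomputable def lbdS (k : ℕ) (v : Fin (k + 2) → K) : LC K k :=
  ∑ i : Fin (k + 2), ((-1 : ℚ) ^ (i : ℕ)) • Finsupp.single (v ∘ Fin.succAbove i) (1 : ℚ)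

/-- Boundary of linear chains. -/
noncomputable def lbd (k : ℕ) : LC K (k + 1) →ₗ[ℚ] LC K k :=
  Finsupp.linearCombination ℚ (lbdS k)

/-- The cone operator: put the new vertex `b` in front. -/
noncomputable def cone (k : ℕ) (b : K) : LC K k →ₗ[ℚ] LC K (k + 1) :=
  Finsupp.lmapDomain ℚ ℚ (fun v : Fin (k + 1) → K => (Fin.cons b v : Fin (k + 2) → K))

/-- Push-forward of linear chains by a map of the vertices. -/
noncomputable def lpush (k : ℕ) (g : K → L) : LC K k →ₗ[ℚ] LC L k :=
  Finsupp.lmapDomain ℚ ℚ (fun v : Fin (k + 1) → K => g ∘ v)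

/-- The subdivision operator with respect to a choice `ba` of a point for each linear simplex. -/
noncomputable def Sd (ba : ∀ k : ℕ, (Fin (k + 1) → K) → K) : (k : ℕ) → LC K k →ₗ[ℚ] LC K k
  | 0 => LinearMap.id
  | k + 1 => Finsupp.linearCombination ℚ
      (fun v : Fin (k + 2) → K => cone k (ba (k + 1) v) (Sd ba k (lbdS k v)))

/-- The chain homotopy between the identity and the subdivision. -/
noncomputable def Tt (ba : ∀ k : ℕ, (Fin (k + 1) → K) → K) : (k : ℕ) → LC K k →ₗ[ℚ] LC K (k + 1)
  | 0 => 0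
  | k + 1 => Finsupp.linearCombination ℚ
      (fun v : Fin (k + 2) → K => cone (k + 1) (ba (k + 1) v)
        (Finsupp.single v 1 - Sd ba (k + 1) (Finsupp.single v 1) - Tt ba k (lbdS k v)))

/-- The prism operator between the two maps of vertices `g₀` and `g₁`. -/
noncomputable def Pr (g₀ g₁ : K → L) : (k : ℕ) → LC K k →ₗ[ℚ] LC L (k + 1)
  | 0 => Finsupp.linearCombination ℚ
      (fun v : Fin 1 → K => cone 0 (g₀ (v 0))
        (Finsupp.single (g₁ ∘ v) 1 - Finsupp.single (g₀ ∘ v) 1))
  | k + 1 => Finsupp.linearCombination ℚ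
      (fun v : Fin (k + 2) → K => cone (k + 1) (g₀ (v 0))
        (Finsupp.single (g₁ ∘ v) 1 - Finsupp.single (g₀ ∘ v) 1 - Pr g₀ g₁ k (lbdS k v)))

/-! ### Realization of linear chains in a convex set -/

section real

variable {E F : Type} [NormedAddCommGroup E] [NormedSpace ℝ E]
  [NormedAddCommGroup F] [NormedSpace ℝ F]

/-- The affine simplex with vertices `v` in a convex set. -/
noncomputable def aff {K : Set E} (hK : Convex ℝ K) (k : ℕ) (v : Fin (k + 1) → K) :
    C(Dl k, K) :=
  ⟨fun t => ⟨∑ i, (t : Fin (k + 1) → ℝ) i • (v i : E),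
      hK.sum_mem (fun i _ => t.2.1 i) t.2.2 (fun i _ => (v i).2)⟩,
    Continuous.subtype_mk (continuous_finsetSum _ fun i _ =>
      ((continuous_apply i).comp continuous_subtype_val).smul continuous_const) _⟩

/-- Realization of linear chains. -/
noncomputable def real {K : Set E} (hK : Convex ℝ K) (k : ℕ) : LC K k →ₗ[ℚ] Ch k K :=
  Finsupp.lmapDomain ℚ ℚ (aff hK k)

/-- The barycentre of the vertices of a linear simplex in a convex set. -/
noncomputable def bary {K : Set E} (hK : Convex ℝ K) (k : ℕ) (v : Fin (k + 1) → K) : K :=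
  ⟨∑ i, ((k + 1 : ℝ)⁻¹) • (v i : E),
    hK.sum_mem (fun _ _ => by positivity) (by
      rw [Finset.sum_const, Finset.card_univ, Fintype.card_fin, nsmul_eq_mul]
      push_cast
      field_simp) (fun i _ => (v i).2)⟩

/-- The vertices of the standard simplex. -/
def vert (k : ℕ) : Fin (k + 1) → Dl k := fun i => ⟨Pi.single i 1, single_mem_stdSimplex ℝ i⟩

lemma convex_Dl (n : ℕ) : Convex ℝ (stdSimplex ℝ (Fin (n + 1))) := convex_stdSimplex ℝ _

/-- The subdivision operator on singular chains. -/
noncomputable def sdS (k : ℕ) (X : Type) [TopologicalSpace X] : Ch k X →ₗ[ℚ] Ch k X :=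
  Finsupp.linearCombination ℚ (fun σ : Smp k X =>
    push k σ (real (convex_Dl k) k (Sd (bary (convex_Dl k)) k (Finsupp.single (vert k) 1))))

/-- The chain homotopy between the identity and the subdivision on singular chains. -/
noncomputable def tS (k : ℕ) (X : Type) [TopologicalSpace X] : Ch k X →ₗ[ℚ] Ch (k + 1) X :=
  Finsupp.linearCombination ℚ (fun σ : Smp k X =>
    push (k + 1) σ (real (convex_Dl k) (k + 1)
      (Tt (bary (convex_Dl k)) k (Finsupp.single (vert k) 1))))

/-- The convex set `Δ^k × [0,1]`. -/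
def prismSet (k : ℕ) : Set ((Fin (k + 1) → ℝ) × ℝ) := stdSimplex ℝ (Fin (k + 1)) ×ˢ Set.Icc (0:ℝ) 1

lemma convex_prismSet (k : ℕ) : Convex ℝ (prismSet k) := (convex_Dl k).prod (convex_Icc 0 1)

/-- Lower and upper copies of a point of the simplex. -/
def bot (k : ℕ) (x : Dl k) : prismSet k := ⟨(x, 0), x.2, by simp⟩
def top (k : ℕ) (x : Dl k) : prismSet k := ⟨(x, 1), x.2, by simp⟩

/-- The map `Δ^k × [0,1] → X × [0,1] → Y` given by a singular simplex and a homotopy. -/
noncomputable def prismMap {k : ℕ} {f₀ f₁ : C(X, Y)} (Φ : ContinuousMap.Homotopy f₀ f₁) (σ : Smp k X) :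
    C(prismSet k, Y) :=
  ⟨fun p => Φ (⟨p.1.2, p.2.2⟩, σ ⟨p.1.1, p.2.1⟩), by
    refine Φ.continuous.comp (Continuous.prodMk ?_ (σ.continuous.comp ?_))
    · exact Continuous.subtype_mk (continuous_snd.comp continuous_subtype_val) _
    · exact Continuous.subtype_mk (continuous_fst.comp continuous_subtype_val) _⟩

/-- The prism operator of a homotopy. -/
noncomputable def hS (k : ℕ) {f₀ f₁ : C(X, Y)} (Φ : ContinuousMap.Homotopy f₀ f₁) :
    Ch k X →ₗ[ℚ] Ch (k + 1) Y :=
  Finsupp.linearCombination ℚ (fun σ : Smp k X =>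
    push (k + 1) (prismMap Φ σ) (real (convex_prismSet k) (k + 1)
      (Pr (bot k) (top k) k (Finsupp.single (vert k) 1))))

end real

/-! ### Small chains, Mayer-Vietoris maps -/

/-- Chains all of whose simplices lie in `U` or in `V`. -/
def SmallCh (k : ℕ) (U V : Set X) (z : Ch k X) : Prop :=
  ∀ σ ∈ z.support, Set.range σ ⊆ U ∨ Set.range σ ⊆ V

/-- `H(U ∩ V) → H(U) × H(V)`, `c ↦ (c, -c)`. -/
noncomputable def mvDiff (k : ℕ) (U V : Set X) : H k ↥(U ∩ V) →ₗ[ℚ] H k ↥U × H k ↥V :=
  (Hmap k (inc Set.inter_subset_left)).prod (-(Hmap k (inc Set.inter_subset_right)))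

/-- `H(U) × H(V) → H(X)`, `(a, b) ↦ a + b`. -/
noncomputable def mvSum (k : ℕ) (U V : Set X) : H k ↥U × H k ↥V →ₗ[ℚ] H k X :=
  (Hmap k (incV U)).coprod (Hmap k (incV V))

/-! ### Loops -/

/-- The singular 1-simplex `(s₀, s₁) ↦ exp(2πi s₁)` of the circle. -/
noncomputable def circS : Smp 1 Circle :=
  ⟨fun s => Circle.exp (2 * Real.pi * (s : Fin 2 → ℝ) 1),
    Circle.exp.continuous.comp (continuous_const.mul
      ((continuous_apply 1).comp continuous_subtype_val))⟩

lemma circS_mem : (Finsupp.single circS (1 : ℚ)) ∈ cyc 1 Circle := by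
  show bd 0 (Finsupp.single circS (1 : ℚ)) = 0
  rw [bd_single, one_smul, bdS, Fin.sum_univ_two]
  have h : circS.comp (face 0 0) = circS.comp (face 0 1) := by
    ext t
    have ht : t = vert 0 0 := Subsingleton.elim _ _
    subst ht
    simp [circS, face, vert, stdSimplex.map]
  rw [h]
  simp

/-- The fundamental class of the circle. -/
noncomputable def circ : H 1 Circle := cls 1 ⟨Finsupp.single circS 1, circS_mem⟩

/-- The class of a loop. -/
noncomputable def loop (γ : C(Circle, X)) : H 1 X := Hmap 1 γ circ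

end Pool.Agent.SH
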