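import Pool.Agent.Lib.MP_8f595d_ag.SH.Defs

/-!
# Elementary rational singular homology: specifications of the modules
-/

set_option autoImplicit false

open CategoryTheory

open scoped LinearAlgebra.Projectivization

namespace Pool.Agent.SH

/-! ## Module HLC: linear chains -/

def SpecLC : Prop :=
  (∀ (K : Type) (k : ℕ) (c : LC K (k + 2)), lbd k (lbd (k + 1) c) = 0) ∧
  (∀ (K : Type) (b : K) (k : ℕ) (c : LC K (k + 1)),
    lbd (k + 1) (cone (k + 1) b c) = c - cone k b (lbd k c)) ∧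
  (∀ (K : Type) (b : K) (c : LC K 0),
    lbd 0 (cone 0 b c) = c - (c.sum fun _ a => a) • Finsupp.single (fun _ => b) (1 : ℚ)) ∧
  (∀ (K L : Type) (g : K → L) (k : ℕ) (c : LC K (k + 1)),
    lbd k (lpush (k + 1) g c) = lpush k g (lbd k c)) ∧
  (∀ (K L : Type) (g : K → L) (b : K) (k : ℕ) (c : LC K k),
    lpush (k + 1) g (cone k b c) = cone k (g b) (lpush k g c))

/-- A map between convex sets which commutes with convex combinations. -/
def IsAff {E F : Type} [NormedAddCommGroup E] [NormedSpace ℝ E]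
    [NormedAddCommGroup F] [NormedSpace ℝ F] {K : Set E} (hK : Convex ℝ K) {L : Set F}
    (hL : Convex ℝ L) (g : K → L) : Prop :=
  ∀ (k : ℕ) (v : Fin (k + 1) → K) (t : Dl k), g (aff hK k v t) = aff hL k (g ∘ v) t

/-! ## Module HRE: realization of linear chains -/

def SpecReal : Prop :=
  (∀ (E : Type) [NormedAddCommGroup E] [NormedSpace ℝ E] (K : Set E) (hK : Convex ℝ K)
    (k : ℕ) (c : LC K (k + 1)), bd k (real hK (k + 1) c) = real hK k (lbd k c)) ∧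
  (∀ (E F : Type) [NormedAddCommGroup E] [NormedSpace ℝ E]
    [NormedAddCommGroup F] [NormedSpace ℝ F] (K : Set E) (hK : Convex ℝ K) (L : Set F)
    (hL : Convex ℝ L) (g : C(K, L)), IsAff hK hL g →
    (∀ (k : ℕ) (c : LC K k), push k g (real hK k c) = real hL k (lpush k g c)) ∧
    (∀ (k : ℕ) (v : Fin (k + 1) → K), g (bary hK k v) = bary hL k (g ∘ v))) ∧
  (∀ (k : ℕ) (i : Fin (k + 2)), IsAff (convex_Dl k) (convex_Dl (k + 1)) (face k i)) ∧
  (∀ (E : Type) [NormedAddCommGroup E] [NormedSpace ℝ E] (K : Set E) (hK : Convex ℝ K)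
    (k : ℕ) (v : Fin (k + 1) → K), IsAff (convex_Dl k) hK (aff hK k v)) ∧
  (∀ k : ℕ, aff (convex_Dl k) k (vert k) = ContinuousMap.id _) ∧
  (∀ (E : Type) [NormedAddCommGroup E] [NormedSpace ℝ E] (K : Set E) (hK : Convex ℝ K)
    (k : ℕ) (v : Fin (k + 1) → K) (i : Fin (k + 1)), aff hK k v (vert k i) = v i) ∧
  (∀ (E : Type) [NormedAddCommGroup E] [NormedSpace ℝ E] (K : Set E) (hK : Convex ℝ K)
    (k : ℕ) (v : Fin (k + 1) → K) (R : ℝ), (∀ i j, dist (v i) (v j) ≤ R) →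
    ∀ s t : Dl k, dist (aff hK k v s) (aff hK k v t) ≤ R)

/-! ## Module HSD: subdivision and prism on linear chains -/

def SpecSdT : Prop :=
  (∀ (K : Type) (ba : ∀ k : ℕ, (Fin (k + 1) → K) → K),
    (∀ (k : ℕ) (c : LC K (k + 1)), lbd k (Sd ba (k + 1) c) = Sd ba k (lbd k c)) ∧
    (∀ (k : ℕ) (c : LC K (k + 1)),
      lbd (k + 1) (Tt ba (k + 1) c) + Tt ba k (lbd k c) = c - Sd ba (k + 1) c)) ∧
  (∀ (K L : Type) (ba : ∀ k : ℕ, (Fin (k + 1) → K) → K) (ba' : ∀ k : ℕ, (Fin (k + 1) → L) → L)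
    (g : K → L), (∀ (k : ℕ) (v : Fin (k + 1) → K), g (ba k v) = ba' k (g ∘ v)) →
    ∀ (k : ℕ) (c : LC K k), lpush k g (Sd ba k c) = Sd ba' k (lpush k g c) ∧
      lpush (k + 1) g (Tt ba k c) = Tt ba' k (lpush k g c)) ∧
  (∀ (K L : Type) (g₀ g₁ : K → L),
    (∀ c : LC K 0, lbd 0 (Pr g₀ g₁ 0 c) = lpush 0 g₁ c - lpush 0 g₀ c) ∧
    (∀ (k : ℕ) (c : LC K (k + 1)),
      lbd (k + 1) (Pr g₀ g₁ (k + 1) c) + Pr g₀ g₁ k (lbd k c) =
        lpush (k + 1) g₁ c - lpush (k + 1) g₀ c)) ∧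
  (∀ (K L K' L' : Type) (g₀ g₁ : K → L) (g₀' g₁' : K' → L') (a : K → K') (b : L → L'),
    b ∘ g₀ = g₀' ∘ a → b ∘ g₁ = g₁' ∘ a →
    ∀ (k : ℕ) (c : LC K k), lpush (k + 1) b (Pr g₀ g₁ k c) = Pr g₀' g₁' k (lpush k a c))

/-! ## Module HOP: the operators on singular chains (from SpecLC, SpecReal, SpecSdT) -/

def SpecOps : Prop :=
  (∀ (X : Type) [TopologicalSpace X] (z : Ch 0 X), sdS 0 X z = z) ∧
  (∀ (X : Type) [TopologicalSpace X] (k : ℕ) (z : Ch (k + 1) X),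
    bd k (sdS (k + 1) X z) = sdS k X (bd k z)) ∧
  (∀ (X : Type) [TopologicalSpace X] (k : ℕ) (z : Ch (k + 1) X),
    bd (k + 1) (tS (k + 1) X z) + tS k X (bd k z) = z - sdS (k + 1) X z) ∧
  (∀ (X Y : Type) [TopologicalSpace X] [TopologicalSpace Y] (f : C(X, Y)) (k : ℕ) (z : Ch k X),
    push k f (sdS k X z) = sdS k Y (push k f z) ∧
    push (k + 1) f (tS k X z) = tS k Y (push k f z)) ∧
  -- iterated subdivision of a simplex
  (∀ (X : Type) [TopologicalSpace X] (k m : ℕ) (σ : Smp k X),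
    ((sdS k X) ^ m) (Finsupp.single σ 1) =
      push k σ (real (convex_Dl k) k (((Sd (bary (convex_Dl k)) k) ^ m)
        (Finsupp.single (vert k) 1))))

/-! ## Module HPR: prism operator (from SpecLC, SpecReal, SpecSdT) -/

def SpecPrism : Prop :=
  ∀ (X Y : Type) [TopologicalSpace X] [TopologicalSpace Y] (f₀ f₁ : C(X, Y))
    (Φ : ContinuousMap.Homotopy f₀ f₁),
    (∀ z : Ch 0 X, bd 0 (hS 0 Φ z) = push 0 f₁ z - push 0 f₀ z) ∧
    (∀ (k : ℕ) (z : Ch (k + 1) X),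
      bd (k + 1) (hS (k + 1) Φ z) + hS k Φ (bd k z) = push (k + 1) f₁ z - push (k + 1) f₀ z)

/-! ## Module HDI: the simplices of iterated subdivisions get small -/

def SpecDiam : Prop :=
  ∀ (n k m : ℕ) (v : Fin (k + 1) → Dl n) (R : ℝ), (∀ i j, dist (v i) (v j) ≤ R) →
    ∀ w ∈ (((Sd (bary (convex_Dl n)) k) ^ m) (Finsupp.single v 1)).support,
      ∀ i j, dist (w i) (w j) ≤ ((k : ℝ) / (k + 1)) ^ m * R

/-! ## Module HSM: small chains (from SpecReal, SpecOps, SpecDiam) -/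

def SpecSmall : Prop :=
  ∀ (X : Type) [TopologicalSpace X] (U V : Set X), IsOpen U → IsOpen V → U ∪ V = Set.univ →
    (∀ (k : ℕ) (z : Ch k X), ∃ m : ℕ, SmallCh k U V (((sdS k X) ^ m) z)) ∧
    (∀ (k : ℕ) (z : Ch k X), SmallCh k U V z → SmallCh k U V (sdS k X z) ∧
      SmallCh (k + 1) U V (tS k X z))

/-! ## Module HMV: Mayer-Vietoris (from SpecOps, SpecSmall) -/

def SpecMV : Prop :=
  ∀ (X : Type) [TopologicalSpace X] (U V : Set X), IsOpen U → IsOpen V → U ∪ V = Set.univ →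
    ∃ δ : ∀ k : ℕ, H (k + 1) X →ₗ[ℚ] H k ↥(U ∩ V),
      (∀ k : ℕ, Function.Exact (mvDiff k U V) (mvSum k U V)) ∧
      (∀ k : ℕ, Function.Exact (mvSum (k + 1) U V) (δ k)) ∧
      (∀ k : ℕ, Function.Exact (δ k) (mvDiff k U V)) ∧
      Function.Surjective (mvSum 0 U V)

/-! ## Module HHT: homotopy invariance (from SpecPrism) -/

def SpecHtpy : Prop :=
  (∀ (X Y : Type) [TopologicalSpace X] [TopologicalSpace Y] (f₀ f₁ : C(X, Y)),
    ContinuousMap.Homotopic f₀ f₁ → ∀ k : ℕ, Hmap k f₀ = Hmap k f₁) ∧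
  (∀ (X Y : Type) [TopologicalSpace X] [TopologicalSpace Y] (f : C(X, Y)) (g : C(Y, X)),
    ContinuousMap.Homotopic (g.comp f) (ContinuousMap.id X) →
    ContinuousMap.Homotopic (f.comp g) (ContinuousMap.id Y) →
    ∀ k : ℕ, Function.Bijective (Hmap k f)) ∧
  (∀ (X : Type) [TopologicalSpace X] [ContractibleSpace X] (k : ℕ), Subsingleton (H (k + 1) X)) ∧
  (∀ (X : Type) [TopologicalSpace X] [IsEmpty X] (k : ℕ), Subsingleton (H k X))

/-! ## Module HZE: degree zero -/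

def SpecZero : Prop :=
  (∀ (X Y : Type) [TopologicalSpace X] [TopologicalSpace Y] [PathConnectedSpace X]
    [PathConnectedSpace Y] (f : C(X, Y)), Function.Bijective (Hmap 0 f)) ∧
  (∀ (X : Type) [TopologicalSpace X] [PathConnectedSpace X],
    ∃ e : H 0 X →ₗ[ℚ] ℚ, Function.Bijective e ∧
      ∀ σ : Smp 0 X, e (cls 0 ⟨Finsupp.single σ 1, Submodule.mem_top⟩) = 1)

/-! ## Module HCI: the circle (from SpecMV, SpecHtpy, SpecZero) -/

def SpecCirc : Prop :=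
  (∀ k : ℕ, Subsingleton (H (k + 2) Circle)) ∧
  (∀ x : H 1 Circle, ∃ a : ℚ, x = a • circ) ∧
  circ ≠ 0 ∧
  Hmap 1 (⟨fun s => s⁻¹, continuous_inv⟩ : C(Circle, Circle)) circ = -circ

/-! ## Tubes -/

/-- `φ : T × ℂ → V` is a tube around `C` inside `A`: an open embedding into `A` whose
zero section is `C`. -/
structure Tube {V T : Type} [TopologicalSpace V] [TopologicalSpace T] (A C : Set V)
    (φ : T × ℂ → V) : Prop where
  emb : Topology.IsOpenEmbedding φ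
  sub : Set.range φ ⊆ A
  cov : C ⊆ Set.range φ
  mem : ∀ p : T × ℂ, φ p ∈ C ↔ p.2 = 0

/-- The meridian `s ↦ φ (z, s)` of a tube, as a loop in `X = A ∖ (the union of C and of other
curves)`; the hypothesis says that the loop stays in `X`. -/
noncomputable def merid {V T : Type} [TopologicalSpace V] [TopologicalSpace T] (X : Set V)
    (φ : T × ℂ → V) (hφ : Continuous φ) (z : T) (h : ∀ s : Circle, φ (z, (s : ℂ)) ∈ X) :
    C(Circle, ↥X) :=
  ⟨fun s => ⟨φ (z, (s : ℂ)), h s⟩, Continuous.subtype_mk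
    (hφ.comp (Continuous.prodMk continuous_const continuous_subtype_val)) _⟩

/-! ## Module HGY: removing one curve with a tube
(from SpecMV, SpecHtpy, SpecZero, SpecCirc) -/

def SpecGYS : Prop :=
  ∀ (V T : Type) [TopologicalSpace V] [TopologicalSpace T] [ContractibleSpace T]
    (A C : Set V) (φ : T × ℂ → V) (hC : IsOpen (A \ C)) (hA : IsOpen A) (hT : Tube A C φ)
    (z : T) (hz : ∀ s : Circle, φ (z, (s : ℂ)) ∈ A \ C),
    (∀ k : ℕ, Function.Bijective (Hmap (k + 3) (inc (Set.sdiff_subset : A \ C ⊆ A)))) ∧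
    Function.Injective (Hmap 2 (inc (Set.sdiff_subset : A \ C ⊆ A))) ∧
    Function.Surjective (Hmap 1 (inc (Set.sdiff_subset : A \ C ⊆ A))) ∧
    LinearMap.ker (Hmap 1 (inc (Set.sdiff_subset : A \ C ⊆ A))) =
      Submodule.span ℚ {loop (merid (A \ C) φ hT.emb.continuous z hz)} ∧
    ∃ ι : H 2 ↥A →ₗ[ℚ] ℚ,
      LinearMap.ker ι = LinearMap.range (Hmap 2 (inc (Set.sdiff_subset : A \ C ⊆ A))) ∧
      ∀ a : ℚ, a ∈ LinearMap.range ι ↔
        a • loop (merid (A \ C) φ hT.emb.continuous z hz) = 0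

/-- Rescaling of the fibres of a tube: `(z, t) ↦ (z, ρ(z) t / (1 + |t|))`. -/
noncomputable def shr {T : Type} [TopologicalSpace T] (ρ : C(T, ℝ)) (p : T × ℂ) : T × ℂ :=
  (p.1, ((ρ p.1 / (1 + ‖p.2‖) : ℝ) : ℂ) * p.2)

/-- A tube which is only defined on an open neighbourhood `Ω` of `T × {0}`. -/
structure PTube {V T : Type} [TopologicalSpace V] [TopologicalSpace T] (A C : Set V)
    (Ω : Set (T × ℂ)) (φ : T × ℂ → V) : Prop where
  isOpen : IsOpen Ω
  zero : ∀ z : T, (z, (0 : ℂ)) ∈ Ω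
  emb : Topology.IsOpenEmbedding (Ω.domRestrict φ)
  sub : φ '' Ω ⊆ A
  cov : C ⊆ φ '' Ω
  mem : ∀ p ∈ Ω, (φ p ∈ C ↔ p.2 = 0)

/-! ## Module HSH: shrinking tubes (independent of homology) -/

def SpecShrink : Prop :=
  ∀ (V T : Type) [TopologicalSpace V] [MetricSpace T] (A C Z : Set V) (Ω : Set (T × ℂ))
    (φ : T × ℂ → V), PTube A C Ω φ → IsOpen A → IsOpen (A \ Z) → Disjoint Z C →
    ∃ r : C(T, ℝ), (∀ z, 0 < r z) ∧ ∀ ρ : C(T, ℝ), (∀ z, 0 < ρ z ∧ ρ z ≤ r z) →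
      Tube (A \ Z) C (fun p => φ (shr ρ p))

/-- A finite family of pairwise disjoint tubed curves in `A`. -/
structure Tubes {V T : Type} [TopologicalSpace V] [TopologicalSpace T] (n : ℕ) (A : Set V)
    (C : Fin n → Set V) (φ : Fin n → T × ℂ → V) : Prop where
  isOpen : IsOpen A
  closed : ∀ j, IsOpen (A \ C j)
  tube : ∀ j, Tube A (C j) (φ j)
  disj : ∀ i j, i ≠ j → Disjoint (Set.range (φ i)) (C j)

/-! ## Module HFA: families of curves (from SpecGYS, SpecHtpy) -/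

def SpecFam : Prop :=
  ∀ (V T : Type) [TopologicalSpace V] [TopologicalSpace T] [ContractibleSpace T]
    (n : ℕ) (A : Set V) (C : Fin n → Set V) (φ : Fin n → T × ℂ → V), Tubes n A C φ →
    -- the meridians stay in the complement
    (∀ (j : Fin n) (z : T) (s : Circle), φ j (z, (s : ℂ)) ∈ A \ ⋃ i, C i) ∧
    -- removing the curves
    (∀ (z : T) (hφ : ∀ j, Continuous (φ j))
      (hs : ∀ (j : Fin n) (s : Circle), φ j (z, (s : ℂ)) ∈ A \ ⋃ i, C i),
      Subsingleton (H 1 ↥A) →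
      Submodule.span ℚ (Set.range fun j => loop (merid (A \ ⋃ i, C i) (φ j) (hφ j) z (hs j))) = ⊤) ∧
    (Subsingleton (H 1 ↥(A \ ⋃ i, C i)) → Module.Finite ℚ (H 2 ↥A) →
      Module.finrank ℚ (H 2 ↥A) ≤ n → Subsingleton (H 2 ↥(A \ ⋃ i, C i))) ∧
    (∀ k : ℕ, Subsingleton (H (k + 3) ↥A) → Subsingleton (H (k + 3) ↥(A \ ⋃ i, C i))) ∧
    -- adding the curves
    (Subsingleton (H 1 ↥(A \ ⋃ i, C i)) → Subsingleton (H 1 ↥A) ∧
      (Module.Finite ℚ (H 2 ↥(A \ ⋃ i, C i)) → Module.Finite ℚ (H 2 ↥A) ∧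
        Module.finrank ℚ (H 2 ↥A) ≤ Module.finrank ℚ (H 2 ↥(A \ ⋃ i, C i)) + n)) ∧
    (∀ k : ℕ, Subsingleton (H (k + 3) ↥(A \ ⋃ i, C i)) → Subsingleton (H (k + 3) ↥A))

/-! ## Projective spaces as topological spaces -/

/-- The quotient topology on complex projective space. -/
instance projTop (n : ℕ) : TopologicalSpace (ℙ ℂ (Fin n → ℂ)) :=
  inferInstanceAs (TopologicalSpace (Quotient (projectivizationSetoid ℂ (Fin n → ℂ))))

/-! ## Module HPT: topology of projective spaces (independent) -/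

def SpecProjTop : Prop :=
  ∀ n : ℕ,
    Topology.IsQuotientMap (fun v : {v : Fin n → ℂ // v ≠ 0} => Projectivization.mk ℂ v.1 v.2) ∧
    IsOpenMap (fun v : {v : Fin n → ℂ // v ≠ 0} => Projectivization.mk ℂ v.1 v.2) ∧
    CompactSpace (ℙ ℂ (Fin n → ℂ)) ∧ T2Space (ℙ ℂ (Fin n → ℂ))

/-- The point `[1 : a]` of the projective line. -/
noncomputable def pt1 (a : ℂ) : ℙ ℂ (Fin 2 → ℂ) := Projectivization.mk ℂ ![1, a] (by
  intro h; have := congrFun h 0; simp at this)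

/-! ## Module HPA: three small circles on the projective line (from SpecFam, SpecHtpy,
SpecCirc, SpecProjTop) -/

def SpecPants : Prop :=
  ∀ (a c : Fin 3 → ℂ), (∀ j, c j ≠ 0) → (∀ i j, i ≠ j → ‖c j‖ < ‖a i - a j‖) →
    ∀ (γ : Fin 3 → C(Circle, {m : ℙ ℂ (Fin 2 → ℂ) | ∀ j, m ≠ pt1 (a j)})),
      (∀ (j : Fin 3) (s : Circle), ((γ j s : {m : ℙ ℂ (Fin 2 → ℂ) | ∀ j, m ≠ pt1 (a j)}) :
        ℙ ℂ (Fin 2 → ℂ)) = pt1 (a j + c j * (s : ℂ))) →
      ∑ j, loop (γ j) = 0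

/-! ## Module HBR: bridge to Mathlib's singular homology (independent) -/

def SpecBridge : Prop :=
  ∀ (X : Type) [TopologicalSpace X] (k : ℕ), Subsingleton (H (k + 1) X) →
    Limits.IsZero (((AlgebraicTopology.singularHomologyFunctor (ModuleCat.{0} ℚ) (k + 1)).obj
      (ModuleCat.of ℚ ℚ)).obj (TopCat.of X))

end Pool.Agent.SH
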